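import Mathlib
import Pool.Agent.Lib.MP_08f711_an.Holo

/-!
Heisenberg group, Siegel domain and the complexified hypersurface: definitions and algebra.
-/

set_option autoImplicit false

open Complex Metric Set ComplexConjugate

namespace Pool.Agent.Lib.MP_601e9e_an

noncomputable section

variable {d : ℕ}

abbrev Vs (d : ℕ) : Type := Fin d → ℂ
/-- points `(z, w)` -/
abbrev Xs (d : ℕ) : Type := Vs d × ℂ
/-- the complexified hypersurface, coordinates `(z, ζ, t)` -/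
abbrev Ps (d : ℕ) : Type := Vs d × Vs d × ℂ
/-- the real Heisenberg group -/
abbrev Hs (d : ℕ) : Type := Vs d × ℝ

/-- Hermitian product, linear in the first slot. -/
def ip {κ : Type} [Fintype κ] (u v : κ → ℂ) : ℂ := ∑ j, u j * conj (v j)
/-- squared Euclidean norm -/
def nsq {κ : Type} [Fintype κ] (u : κ → ℂ) : ℝ := ∑ j, ‖u j‖ ^ 2
/-- bilinear product -/
def bil (u v : Vs d) : ℂ := ∑ j, u j * v j

def rho (X : Xs d) : ℝ := X.2.im - nsq X.1
def Om (d : ℕ) (lam : ℝ) : Set (Xs d) := {X | -lam < rho X}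
/-- Heisenberg translation -/
def tr (y : Hs d) (X : Xs d) : Xs d :=
  (X.1 + y.1, X.2 + (y.2 : ℂ) + I * (nsq y.1 : ℂ) + 2 * I * ip X.1 y.1)
/-- the point of the hypersurface with parameter `y` -/
def pt (y : Hs d) : Xs d := (y.1, (y.2 : ℂ) + I * (nsq y.1 : ℂ))
def hmul (y y' : Hs d) : Hs d := (y.1 + y'.1, y.2 + y'.2 - 2 * (ip y'.1 y.1).im)
def pi1 (p : Ps d) : Xs d := (p.1, p.2.2 + I * bil p.1 p.2.1)
def pi2' (p : Ps d) : Xs d := (p.2.1, p.2.2 - I * bil p.1 p.2.1)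
def pi2 (p : Ps d) : Xs d := star (pi2' p)
def Dm (d : ℕ) (lam : ℝ) : Set (Ps d) := {p | pi1 p ∈ Om d lam ∧ pi2 p ∈ Om d lam}
/-- real points of the complexified hypersurface -/
def rp (y : Hs d) : Ps d := (y.1, star y.1, (y.2 : ℂ))
def act (y : Hs d) (p : Ps d) : Ps d :=
  (p.1 + y.1, p.2.1 + star y.1, p.2.2 + (y.2 : ℂ) + I * ip p.1 y.1 - I * bil y.1 p.2.1)
def qq (X : Xs d) : ℂ := 1 - I * X.2
def dil (σ : ℝ) (X : Xs d) : Xs d := ((σ : ℂ) • X.1, (σ : ℂ) ^ 2 * X.2)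
def dilP (σ : ℝ) (p : Ps d) : Ps d := ((σ : ℂ) • p.1, (σ : ℂ) • p.2.1, (σ : ℂ) ^ 2 * p.2.2)
def dilH (σ : ℝ) (y : Hs d) : Hs d := ((σ : ℂ) • y.1, σ ^ 2 * y.2)

/-- letters: `none` is `w`, `some i` is `z i` -/
abbrev Lt (d : ℕ) : Type := Option (Fin d)
def cx : Lt d → Xs d → ℂ
  | none, X => X.2
  | some i, X => X.1 i
def ex : Lt d → Xs d
  | none => (0, 1)
  | some i => (Pi.single i 1, 0)
def c2 : Lt d ⊕ Lt d → Xs d × Xs d → ℂ
  | Sum.inl a, P => cx a P.1
  | Sum.inr a, P => cx a P.2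
def e2 : Lt d ⊕ Lt d → Xs d × Xs d
  | Sum.inl a => (ex a, 0)
  | Sum.inr a => (0, ex a)

/-- index set of the words of length between `1` and `M` -/
def Idx (ι : Type) : ℕ → Type
  | 0 => Empty
  | M + 1 => Option (Idx ι M) × ι
instance instFintypeIdx (ι : Type) [Fintype ι] : ∀ M, Fintype (Idx ι M)
  | 0 => inferInstanceAs (Fintype Empty)
  | M + 1 => @instFintypeProd (Option (Idx ι M)) ι
      (@instFintypeOption _ (instFintypeIdx ι M)) _
def wd {ι : Type} : ∀ {M : ℕ}, Idx ι M → List ι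
  | 0, a => Empty.elim a
  | _ + 1, (none, i) => [i]
  | _ + 1, (some a, i) => i :: wd a
def mon {ι E : Type} (c : ι → E → ℂ) (l : List ι) (p : E) : ℂ := (l.map fun i => c i p).prod

/-- Uniform Taylor remainder of order `m + 1` at all points of the hypersurface. -/
def Jet {κ : Type} [Fintype κ] (m : ℕ) (F : Xs d → κ → ℂ) (β lam : ℝ) : Prop :=
  ∀ y : Hs d, ∃ v : Option (Idx (Lt d) m) → κ → ℂ, ∀ X ∈ Om d lam,
    ‖F (tr y X) - v none - ∑ a, mon cx (wd a) X • v (some a)‖ ≤ β * ‖X‖ ^ (m + 1)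

abbrev Lat (d : ℕ) : Type := (Fin d → ℤ) × (Fin d → ℤ) × ℤ
def lat (l : ℕ) (γ : Lat d) : Hs d :=
  (fun i => ((γ.1 i : ℂ) + (γ.2.1 i : ℂ) * I) / (l : ℂ), (γ.2.2 : ℝ) / (l : ℝ) ^ 2)
def ker (a : ℕ) (X : Xs d) : ℝ := (‖qq X‖ ^ a)⁻¹
def SS (a l : ℕ) (X : Xs d) : ℝ := ∑' γ : Lat d, ker a (tr (lat l γ) X)
abbrev Col (d L : ℕ) : Type := (Fin d → ZMod (L + 1)) × (Fin d → ZMod (L + 1)) × ZMod (L + 1)
def col (L : ℕ) (γ : Lat d) : Col d L :=
  (fun i => (γ.1 i : ZMod (L + 1)), fun i => (γ.2.1 i : ZMod (L + 1)), (γ.2.2 : ZMod (L + 1)))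

/-- the basic functions `1, w, z i, z i` -/
abbrev Bs (d : ℕ) : Type := Option (Lt d) ⊕ Fin d
def bas : Bs d → Xs d → ℂ
  | Sum.inl none, _ => 1
  | Sum.inl (some a), X => cx a X
  | Sum.inr i, X => X.1 i
def num {M : ℕ} (ω : Fin M → Bs d) (X : Xs d) : ℂ := ∏ j, bas (ω j) X

/-- one peak: the block vector is put in the colour of the lattice point -/
def pk {M : ℕ} {B : Type} [Fintype B] (A l L : ℕ) (n : Lat d → (Fin M → Bs d) → B → ℂ)
    (γ : Lat d) (X : Xs d) : Col d L × B → ℂ := fun cb =>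
  if cb.1 = col L γ then
    (qq (tr (lat l γ) X) ^ A)⁻¹ * (∑ ω, num ω (tr (lat l γ) X) • n γ ω) cb.2 else 0

/-- the error function after adding `g` to `F` -/
def upd {κ : Type} [Fintype κ] (ε : Ps d → ℂ) (F g : Xs d → κ → ℂ) (p : Ps d) : ℂ :=
  ε p - ip (g (pi1 p)) (F (pi2 p)) - ip (F (pi1 p)) (g (pi2 p)) - ip (g (pi1 p)) (g (pi2 p))

/-- hypotheses on an error function -/
structure Err (ε : Ps d → ℂ) (lam : ℝ) : Prop where
  diff : DifferentiableOn ℂ ε (Dm d lam)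
  bd : ∀ p ∈ Dm d lam, ‖ε p - 1‖ ≤ 1 / 2
  real : ∀ y : Hs d, (ε (rp y)).im = 0

/-- iterated directional derivatives -/
def Dw {ι E W : Type} [NormedAddCommGroup E] [NormedSpace ℂ E] [NormedAddCommGroup W]
    [NormedSpace ℂ W] (e : ι → E) : List ι → (E → W) → E → W
  | [], f => f
  | i :: l, f => fun x => fderiv ℂ (Dw e l f) x (e i)

/-- the ball model, `n = d + 1`; coordinate `0` is `W` -/
abbrev Eb (d : ℕ) : Type := EuclideanSpace ℂ (Fin (d + 1))
def cay (Z : Eb d) : Xs d := (fun i => Z i.succ / (1 + Z 0), I * (1 - Z 0) / (1 + Z 0))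
def hh (D : ℕ) (Z : Eb d) : ℂ := ((1 + Z 0) / 2) ^ D
/-- the bounded transcendental function, `e^W / 1000` in the ball model -/
def psi (X : Xs d) : ℂ := cexp (2 / qq X - 1) / 1000

section ipnsq
variable {κ : Type} [Fintype κ]

theorem nsq_nonneg (u : κ → ℂ) : 0 ≤ nsq u := Finset.sum_nonneg fun _ _ => by positivity

theorem ip_self (u : κ → ℂ) : ip u u = (nsq u : ℂ) := by
  simp [ip, nsq, Complex.mul_conj']

theorem conj_ip (u v : κ → ℂ) : conj (ip u v) = ip v u := by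
  simp [ip, mul_comm]

theorem ip_add_left (u u' v : κ → ℂ) : ip (u + u') v = ip u v + ip u' v := by
  simp [ip, add_mul, Finset.sum_add_distrib]

theorem ip_add_right (u v v' : κ → ℂ) : ip u (v + v') = ip u v + ip u v' := by
  simp [ip, mul_add, Finset.sum_add_distrib]

theorem ip_neg_left (u v : κ → ℂ) : ip (-u) v = -ip u v := by simp [ip]

theorem ip_neg_right (u v : κ → ℂ) : ip u (-v) = -ip u v := by simp [ip]

theorem ip_sub_left (u u' v : κ → ℂ) : ip (u - u') v = ip u v - ip u' v := by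
  simp [ip, sub_mul]

theorem ip_smul_left (c : ℂ) (u v : κ → ℂ) : ip (c • u) v = c * ip u v := by
  simp [ip, Finset.mul_sum, mul_assoc]

theorem ip_smul_right (c : ℂ) (u v : κ → ℂ) : ip u (c • v) = conj c * ip u v := by
  simp [ip, Finset.mul_sum, mul_left_comm]

theorem ip_zero_left (v : κ → ℂ) : ip 0 v = 0 := by simp [ip]

theorem ip_zero_right (v : κ → ℂ) : ip v 0 = 0 := by simp [ip]

theorem nsq_zero : nsq (0 : κ → ℂ) = 0 := by simp [nsq]

theorem nsq_neg (u : κ → ℂ) : nsq (-u) = nsq u := by simp [nsq]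

theorem nsq_star (u : κ → ℂ) : nsq (star u) = nsq u := by simp [nsq]

theorem nsq_smul (c : ℂ) (u : κ → ℂ) : nsq (c • u) = ‖c‖ ^ 2 * nsq u := by
  simp [nsq, Finset.mul_sum, mul_pow]

theorem nsq_add (u v : κ → ℂ) : nsq (u + v) = nsq u + nsq v + 2 * (ip u v).re := by
  have h : ((nsq (u + v) : ℝ) : ℂ) = nsq u + nsq v + (ip u v + conj (ip u v)) := by
    rw [← ip_self, ← ip_self, ← ip_self, conj_ip, ip_add_left, ip_add_right, ip_add_right]
    ring
  have := congrArg Complex.re h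
  simp at this
  linarith

theorem sq_norm_apply_le (u : κ → ℂ) (j : κ) : ‖u j‖ ^ 2 ≤ nsq u :=
  Finset.single_le_sum (f := fun j => ‖u j‖ ^ 2) (fun _ _ => by positivity) (Finset.mem_univ j)

theorem norm_le_of_nsq_le {u : κ → ℂ} {b : ℝ} (hb : 0 ≤ b) (h : nsq u ≤ b ^ 2) : ‖u‖ ≤ b :=
  (pi_norm_le_iff_of_nonneg hb).2 fun j =>
    pow_le_pow_left_iff_helper (norm_nonneg _) hb ((sq_norm_apply_le u j).trans h)
where
  pow_le_pow_left_iff_helper {x y : ℝ} (_hx : 0 ≤ x) (hy : 0 ≤ y) (h : x ^ 2 ≤ y ^ 2) : x ≤ y :=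
    abs_le_of_sq_le_sq' h hy |>.2

theorem nsq_le_card (u : κ → ℂ) : nsq u ≤ Fintype.card κ * ‖u‖ ^ 2 := by
  unfold nsq
  calc ∑ j, ‖u j‖ ^ 2 ≤ ∑ _j : κ, ‖u‖ ^ 2 :=
        Finset.sum_le_sum fun j _ => by gcongr; exact norm_le_pi_norm u j
    _ = _ := by simp

/-- weighted arithmetic-geometric form of Cauchy-Schwarz -/
theorem norm_ip_le (u v : κ → ℂ) {t : ℝ} (ht : 0 < t) :
    ‖ip u v‖ ≤ (t * nsq u + nsq v / t) / 2 := by
  unfold ip nsq
  refine (norm_sum_le _ _).trans ?_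
  rw [Finset.mul_sum, Finset.sum_div, ← Finset.sum_add_distrib, Finset.sum_div]
  refine Finset.sum_le_sum fun j _ => ?_
  rw [norm_mul, RCLike.norm_conj]
  have : 0 ≤ (t * ‖u j‖ - ‖v j‖) ^ 2 / t := by positivity
  have e : (t * ‖u j‖ ^ 2 + ‖v j‖ ^ 2 / t) / 2 - ‖u j‖ * ‖v j‖ =
      (t * ‖u j‖ - ‖v j‖) ^ 2 / t / 2 := by
    field_simp
    ring
  linarith

theorem norm_ip_le_one (u v : κ → ℂ) : ‖ip u v‖ ≤ (nsq u + nsq v) / 2 := by
  simpa using norm_ip_le u v one_pos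

theorem norm_ip_le_mul {u v : κ → ℂ} {a b : ℝ} (ha : 0 ≤ a) (hb : 0 ≤ b) (hu : nsq u ≤ a ^ 2)
    (hv : nsq v ≤ b ^ 2) : ‖ip u v‖ ≤ a * b := by
  have h1 : ‖ip u v‖ ≤ ∑ j, ‖u j‖ * ‖v j‖ := by
    unfold ip
    refine (norm_sum_le _ _).trans (le_of_eq ?_)
    simp
  have h2 := Finset.sum_mul_sq_le_sq_mul_sq Finset.univ (fun j => ‖u j‖) (fun j => ‖v j‖)
  have h3 : (∑ j, ‖u j‖ * ‖v j‖) ^ 2 ≤ (a * b) ^ 2 := by
    rw [mul_pow]
    exact h2.trans (mul_le_mul hu hv (nsq_nonneg v) (sq_nonneg a))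
  exact h1.trans (abs_le_of_sq_le_sq' h3 (mul_nonneg ha hb)).2

theorem continuous_nsq : Continuous (nsq : (κ → ℂ) → ℝ) := by
  unfold nsq
  fun_prop

theorem continuous_ip : Continuous fun p : (κ → ℂ) × (κ → ℂ) => ip p.1 p.2 := by
  unfold ip
  fun_prop

end ipnsq

theorem bil_star (u v : Vs d) : bil u (star v) = ip u v := by simp [bil, ip]

theorem bil_comm (u v : Vs d) : bil u v = bil v u := by simp [bil, mul_comm]

theorem bil_add_left (u u' v : Vs d) : bil (u + u') v = bil u v + bil u' v := by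
  simp [bil, add_mul, Finset.sum_add_distrib]

theorem bil_add_right (u v v' : Vs d) : bil u (v + v') = bil u v + bil u v' := by
  simp [bil, mul_add, Finset.sum_add_distrib]

theorem bil_smul (a b : ℂ) (u v : Vs d) : bil (a • u) (b • v) = a * b * bil u v := by
  simp only [bil, Finset.mul_sum, Pi.smul_apply, smul_eq_mul]
  exact Finset.sum_congr rfl fun _ _ => by ring

theorem ip_star_left (u v : Vs d) : ip (star u) v = conj (bil u v) := by simp [bil, ip]

theorem rho_tr (y : Hs d) (X : Xs d) : rho (tr y X) = rho X := by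
  simp [rho, tr, nsq_add]

theorem tr_mem_Om {lam : ℝ} (y : Hs d) {X : Xs d} : tr y X ∈ Om d lam ↔ X ∈ Om d lam := by
  simp [Om, rho_tr]

theorem tr_zero_right (y : Hs d) : tr y 0 = pt y := by simp [tr, pt, ip_zero_left]

theorem tr_zero_left (X : Xs d) : tr 0 X = X := by simp [tr, ip_zero_right, nsq_zero]

theorem rho_pt (y : Hs d) : rho (pt y) = 0 := by simp [rho, pt]

theorem pt_mem_Om {lam : ℝ} (h : 0 < lam) (y : Hs d) : pt y ∈ Om d lam := by
  simp [Om, rho_pt, h]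

theorem exists_pt {X : Xs d} (h : rho X = 0) : ∃ y : Hs d, X = pt y := by
  refine ⟨(X.1, X.2.re), Prod.ext rfl ?_⟩
  have : nsq X.1 = X.2.im := by unfold rho at h; linarith
  simp [pt, this, mul_comm I]

theorem tr_tr (y y' : Hs d) (X : Xs d) : tr y (tr y' X) = tr (hmul y y') X := by
  refine Prod.ext (by simp [tr, hmul]; abel) ?_
  have h := nsq_add y'.1 y.1
  simp only [tr, hmul, ip_add_left, ip_add_right, add_comm y.1 y'.1, h]
  have h2 : ip y'.1 y.1 = ((ip y'.1 y.1).re : ℂ) + ((ip y'.1 y.1).im : ℂ) * I :=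
    (Complex.re_add_im _).symm
  push_cast
  linear_combination (2 * I) * h2 + (2 * ((ip y'.1 y.1).im : ℂ)) * I_mul_I

theorem hmul_neg_left (y : Hs d) : hmul (-y) y = 0 := by
  refine Prod.ext (by simp [hmul]) ?_
  simp [hmul, ip_neg_right, ip_self]

theorem hmul_neg_right (y : Hs d) : hmul y (-y) = 0 := by
  refine Prod.ext (by simp [hmul]) ?_
  simp [hmul, ip_neg_left, ip_self]

theorem tr_neg_tr (y : Hs d) (X : Xs d) : tr (-y) (tr y X) = X := by
  rw [tr_tr, hmul_neg_left, tr_zero_left]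

theorem tr_tr_neg (y : Hs d) (X : Xs d) : tr y (tr (-y) X) = X := by
  rw [tr_tr, hmul_neg_right, tr_zero_left]

theorem tr_pt (y y' : Hs d) : tr y (pt y') = pt (hmul y y') := by
  rw [← tr_zero_right, tr_tr, tr_zero_right]

theorem pt_injective : Function.Injective (pt : Hs d → Xs d) := fun y y' h => by
  have h1 : y.1 = y'.1 := congrArg (fun X : Xs d => X.1) h
  have h2 := congrArg (fun X : Xs d => X.2.re) h
  simp [pt] at h2
  exact Prod.ext h1 h2

theorem hmul_neg_hmul (y y' : Hs d) : hmul (-y) (hmul y y') = y' :=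
  pt_injective (by rw [← tr_pt, ← tr_pt, tr_neg_tr])

theorem pi1_rp (y : Hs d) : pi1 (rp y) = pt y := by simp [pi1, rp, pt, bil_star, ip_self]

theorem pi2_rp (y : Hs d) : pi2 (rp y) = pt y := by
  refine Prod.ext (by simp [pi2, pi2', rp, pt]) ?_
  simp [pi2, pi2', rp, pt, bil_star, ip_self]

theorem rp_mem_Dm {lam : ℝ} (h : 0 < lam) (y : Hs d) : rp y ∈ Dm d lam :=
  ⟨by rw [pi1_rp]; exact pt_mem_Om h y, by rw [pi2_rp]; exact pt_mem_Om h y⟩

theorem pi1_act (y : Hs d) (p : Ps d) : pi1 (act y p) = tr y (pi1 p) := by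
  refine Prod.ext rfl ?_
  simp only [pi1, act, tr, bil_add_left, bil_add_right, bil_star, ip_add_left, ip_self]
  ring

theorem pi2_act (y : Hs d) (p : Ps d) : pi2 (act y p) = tr y (pi2 p) := by
  refine Prod.ext (by simp [pi2, pi2', act, tr]) ?_
  simp only [pi2, pi2', act, tr, bil_add_left, bil_add_right, bil_star, ip_add_left, ip_self,
    Prod.snd_star, Prod.fst_star, ip_star_left, bil_comm y.1 p.2.1]
  simp
  ring

theorem act_mem_Dm {lam : ℝ} (y : Hs d) {p : Ps d} : act y p ∈ Dm d lam ↔ p ∈ Dm d lam := by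
  simp [Dm, pi1_act, pi2_act, tr_mem_Om]

theorem act_zero_right (y : Hs d) : act y 0 = rp y := by
  simp [act, rp, ip_zero_left, bil]

theorem act_rp (y y' : Hs d) : act y (rp y') = rp (hmul y y') := by
  refine Prod.ext (by simp [act, rp, hmul, add_comm]) (Prod.ext (by simp [act, rp, hmul, add_comm]) ?_)
  simp only [act, rp, hmul, bil_star, ← conj_ip y'.1 y.1]
  apply Complex.ext <;> simp
  ring

theorem rho_pi1 (p : Ps d) : rho (pi1 p) = p.2.2.im + (bil p.1 p.2.1).re - nsq p.1 := by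
  simp [rho, pi1]

theorem rho_pi2 (p : Ps d) : rho (pi2 p) = -p.2.2.im + (bil p.1 p.2.1).re - nsq p.2.1 := by
  simp [rho, pi2, pi2', nsq_star]

theorem Om_mono {a b : ℝ} (h : a ≤ b) : Om d a ⊆ Om d b := fun X hX => by
  simp only [Om, mem_ofPred_eq] at *
  linarith

theorem Dm_mono {a b : ℝ} (h : a ≤ b) : Dm d a ⊆ Dm d b := fun _ hp =>
  ⟨Om_mono h hp.1, Om_mono h hp.2⟩

theorem continuous_rho : Continuous (rho : Xs d → ℝ) := by
  unfold rho nsq
  fun_prop

theorem isOpen_Om (lam : ℝ) : IsOpen (Om d lam) := isOpen_lt continuous_const continuous_rho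

theorem differentiable_pi1 : Differentiable ℂ (pi1 : Ps d → Xs d) := by
  unfold pi1 bil
  fun_prop

theorem differentiable_pi2' : Differentiable ℂ (pi2' : Ps d → Xs d) := by
  unfold pi2' bil
  fun_prop

theorem continuous_pi2 : Continuous (pi2 : Ps d → Xs d) :=
  differentiable_pi2'.continuous.star

theorem isOpen_Dm (lam : ℝ) : IsOpen (Dm d lam) :=
  ((isOpen_Om lam).preimage differentiable_pi1.continuous).inter
    ((isOpen_Om lam).preimage continuous_pi2)

theorem differentiable_tr (y : Hs d) : Differentiable ℂ (tr y) := by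
  unfold tr ip
  fun_prop

theorem differentiable_act (y : Hs d) : Differentiable ℂ (act y) := by
  unfold act ip bil
  fun_prop

theorem differentiable_dil (σ : ℝ) : Differentiable ℂ (dil σ : Xs d → Xs d) := by
  unfold dil
  fun_prop

theorem differentiable_dilP (σ : ℝ) : Differentiable ℂ (dilP σ : Ps d → Ps d) := by
  unfold dilP
  fun_prop

theorem differentiable_qq : Differentiable ℂ (qq : Xs d → ℂ) := by
  unfold qq
  fun_prop

/-- `p ↦ ip (F (pi1 p)) (G (pi2 p))` is holomorphic. -/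
theorem differentiableOn_ip {κ : Type} [Fintype κ] {F G : Xs d → κ → ℂ} {lam : ℝ}
    (hF : DifferentiableOn ℂ F (Om d lam)) (hG : DifferentiableOn ℂ G (Om d lam)) :
    DifferentiableOn ℂ (fun p => ip (F (pi1 p)) (G (pi2 p))) (Dm d lam) := by
  intro p hp
  have h1 : DifferentiableAt ℂ (fun p => F (pi1 p)) p :=
    (hF.differentiableAt ((isOpen_Om lam).mem_nhds hp.1)).comp p (differentiable_pi1 p)
  have h2 : DifferentiableAt ℂ (star ∘ G ∘ star) (pi2' p) := by
    have := (hG.differentiableAt ((isOpen_Om lam).mem_nhds hp.2)).star_star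
    rwa [pi2, star_star] at this
  have h3 := h2.comp p (differentiable_pi2' p)
  refine DifferentiableAt.differentiableWithinAt ?_
  unfold ip
  refine DifferentiableAt.fun_sum fun j _ => DifferentiableAt.mul
    (differentiableAt_pi.1 h1 j) ?_
  exact differentiableAt_pi.1 h3 j

theorem rho_dil (σ : ℝ) (X : Xs d) : rho (dil σ X) = σ ^ 2 * rho X := by
  simp only [rho, dil, nsq_smul, ← ofReal_pow, im_ofReal_mul, norm_real, Real.norm_eq_abs, sq_abs]
  ring

theorem dil_tr (σ : ℝ) (y : Hs d) (X : Xs d) : dil σ (tr y X) = tr (dilH σ y) (dil σ X) := by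
  refine Prod.ext (by simp [dil, tr, dilH]) ?_
  simp only [dil, tr, dilH, nsq_smul, ip_smul_left, ip_smul_right, conj_ofReal, norm_real,
    Real.norm_eq_abs, sq_abs]
  push_cast
  ring

theorem dil_pt (σ : ℝ) (y : Hs d) : dil σ (pt y) = pt (dilH σ y) := by
  rw [← tr_zero_right, dil_tr, ← tr_zero_right]
  congr 1
  simp [dil]

theorem pi1_dilP (σ : ℝ) (p : Ps d) : pi1 (dilP σ p) = dil σ (pi1 p) := by
  refine Prod.ext rfl ?_
  simp only [pi1, dilP, dil, bil_smul]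
  ring

theorem pi2_dilP (σ : ℝ) (p : Ps d) : pi2 (dilP σ p) = dil σ (pi2 p) := by
  refine Prod.ext (by ext i; simp [pi2, pi2', dilP, dil]) ?_
  simp only [pi2, pi2', dilP, dil, bil_smul, Prod.snd_star]
  simp
  ring

theorem dilP_rp (σ : ℝ) (y : Hs d) : dilP σ (rp y) = rp (dilH σ y) := by
  refine Prod.ext rfl (Prod.ext (by ext i; simp [dilP, rp, dilH]) (by simp [dilP, rp, dilH]))

theorem dil_dil (σ σ' : ℝ) (X : Xs d) : dil σ (dil σ' X) = dil (σ * σ') X := by
  refine Prod.ext (by ext i; simp [dil, mul_assoc]) ?_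
  simp only [dil]
  push_cast
  ring

theorem dil_one (X : Xs d) : dil 1 X = X := by simp [dil]

theorem dilH_dilH (σ σ' : ℝ) (y : Hs d) : dilH σ (dilH σ' y) = dilH (σ * σ') y := by
  refine Prod.ext (by ext i; simp [dilH, mul_assoc]) ?_
  simp only [dilH]
  ring

theorem dilH_one (y : Hs d) : dilH 1 y = y := by simp [dilH]

theorem dil_mem_Om {σ lam : ℝ} (hσ : 0 < σ) {X : Xs d} (h : X ∈ Om d (lam / σ ^ 2)) :
    dil σ X ∈ Om d lam := by
  simp only [Om, mem_ofPred_eq, rho_dil] at *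
  rw [neg_lt, lt_div_iff₀ (by positivity)] at h
  linarith

theorem dilP_mem_Dm {σ lam : ℝ} (hσ : 0 < σ) {p : Ps d} (h : p ∈ Dm d (lam / σ ^ 2)) :
    dilP σ p ∈ Dm d lam :=
  ⟨by rw [pi1_dilP]; exact dil_mem_Om hσ h.1, by rw [pi2_dilP]; exact dil_mem_Om hσ h.2⟩

theorem qq_re (X : Xs d) : (qq X).re = 1 + rho X + nsq X.1 := by
  simp [qq, rho]
  ring

theorem qq_im (X : Xs d) : (qq X).im = -X.2.re := by simp [qq]

theorem half_add_le_norm_qq {X : Xs d} (h : X ∈ Om d (1 / 2)) : 1 / 2 + nsq X.1 ≤ ‖qq X‖ := by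
  have h1 := re_le_norm (qq X)
  rw [qq_re] at h1
  simp only [Om, mem_ofPred_eq] at h
  linarith

theorem half_le_norm_qq {X : Xs d} (h : X ∈ Om d (1 / 2)) : 1 / 2 ≤ ‖qq X‖ := by
  linarith [half_add_le_norm_qq h, nsq_nonneg X.1]

theorem qq_ne_zero {X : Xs d} (h : X ∈ Om d (1 / 2)) : qq X ≠ 0 := by
  intro h0
  have := half_le_norm_qq h
  rw [h0, norm_zero] at this
  linarith

theorem norm_fst_le_norm_qq {X : Xs d} (h : X ∈ Om d (1 / 2)) (i : Fin d) :
    ‖X.1 i‖ ≤ ‖qq X‖ := by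
  nlinarith [half_add_le_norm_qq h, sq_norm_apply_le X.1 i, sq_nonneg (‖X.1 i‖ - 1),
    sq_nonneg ‖X.1 i‖]

theorem abs_re_le_norm_qq (X : Xs d) : |X.2.re| ≤ ‖qq X‖ := by
  have := abs_im_le_norm (qq X)
  rwa [qq_im, abs_neg] at this

theorem norm_le_three_qq {X : Xs d} (h : X ∈ Om d (1 / 2)) : ‖X‖ ≤ 3 * ‖qq X‖ := by
  have h1 := half_le_norm_qq h
  rw [Prod.norm_def]
  refine max_le ((pi_norm_le_iff_of_nonneg (by positivity)).2 fun i => ?_) ?_
  · linarith [norm_fst_le_norm_qq h i]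
  · have e : X.2 = I * (qq X - 1) := by
      simp only [qq]
      linear_combination X.2 * I_mul_I
    rw [e, norm_mul, norm_I, one_mul]
    have := norm_sub_le (qq X) 1
    rw [norm_one] at this
    linarith

theorem ker_nonneg (a : ℕ) (X : Xs d) : 0 ≤ ker a X := by
  unfold ker
  positivity

theorem wd_length {ι : Type} : ∀ {M : ℕ} (a : Idx ι M),
    1 ≤ (wd a).length ∧ (wd a).length ≤ M
  | 0, a => Empty.elim a
  | _ + 1, (none, _) => by simp [wd]
  | _ + 1, (some a, _) => by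
    have := wd_length a
    simp only [wd, List.length_cons]
    omega

theorem sum_cx (X : Xs d) : ∑ a, cx a X • ex a = X := by
  rw [Fintype.sum_option]
  refine Prod.ext ?_ ?_
  · ext i
    simp [cx, ex, Prod.fst_sum, Finset.sum_apply, Pi.single_apply]
  · simp [cx, ex, Prod.snd_sum]

theorem norm_cx_le (a : Lt d) (X : Xs d) : ‖cx a X‖ ≤ ‖X‖ := by
  cases a with
  | none => exact norm_snd_le X
  | some i => exact (norm_le_pi_norm X.1 i).trans (norm_fst_le X)

theorem norm_ex_le (a : Lt d) : ‖(ex a : Xs d)‖ ≤ 1 := by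
  cases a with
  | none => simp [ex, Prod.norm_def]
  | some i => simp [ex, Prod.norm_def, Pi.norm_single]

theorem cx_smul (a : Lt d) (s : ℂ) (X : Xs d) : cx a (s • X) = s * cx a X := by
  cases a <;> simp [cx]

theorem sum_c2 (P : Xs d × Xs d) : ∑ a, c2 a P • e2 a = P := by
  rw [Fintype.sum_sum_type]
  refine Prod.ext ?_ ?_
  · simpa [c2, e2, Prod.fst_sum] using sum_cx P.1
  · simpa [c2, e2, Prod.snd_sum] using sum_cx P.2

theorem norm_c2_le (a : Lt d ⊕ Lt d) (P : Xs d × Xs d) : ‖c2 a P‖ ≤ ‖P‖ := by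
  cases a with
  | inl a => exact (norm_cx_le a P.1).trans (norm_fst_le P)
  | inr a => exact (norm_cx_le a P.2).trans (norm_snd_le P)

theorem norm_e2_le (a : Lt d ⊕ Lt d) : ‖(e2 a : Xs d × Xs d)‖ ≤ 1 := by
  cases a with
  | inl a => simpa [e2, Prod.norm_def (ex a, (0 : Xs d))] using norm_ex_le a
  | inr a => simpa [e2, Prod.norm_def ((0 : Xs d), ex a)] using norm_ex_le a

theorem c2_smul (a : Lt d ⊕ Lt d) (s : ℂ) (P : Xs d × Xs d) : c2 a (s • P) = s * c2 a P := by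
  cases a <;> simp [c2, cx_smul]

end

end Pool.Agent.Lib.MP_601e9e_an
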