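import Pool.Agent.Lib.MP_601e9e_an.Sums

/-!
Smoothness up to the boundary of a series of holomorphic maps on the ball.
-/

set_option autoImplicit false

open Complex Metric Set ComplexConjugate

namespace Pool.Agent.Lib.MP_601e9e_an

variable {d : ℕ}

section reg

open Filter Topology

variable {n : ℕ} {W : Type} [NormedAddCommGroup W] [NormedSpace ℂ W]

/-- the directional derivatives of order `m` exist and are bounded on the open unit ball -/
def regBd : ℕ → (EuclideanSpace ℂ (Fin n) → W) → Prop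
  | 0, g => ∃ C : ℝ, ∀ x ∈ ball (0 : EuclideanSpace ℂ (Fin n)) 1, ‖g x‖ ≤ C
  | m + 1, g => DifferentiableOn ℂ g (ball 0 1) ∧ ∀ v : EuclideanSpace ℂ (Fin n),
      ∃ h, regBd m h ∧ ∀ x ∈ ball (0 : EuclideanSpace ℂ (Fin n)) 1, fderiv ℂ g x v = h x

/-- the linear map with prescribed values on the coordinate vectors -/
noncomputable def regL (w : Fin n → W) : EuclideanSpace ℂ (Fin n) →L[ℂ] W :=
  ∑ i, (EuclideanSpace.proj i : EuclideanSpace ℂ (Fin n) →L[ℂ] ℂ).smulRight (w i)

theorem regL_apply (w : Fin n → W) (v : EuclideanSpace ℂ (Fin n)) :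
    regL w v = ∑ i, v i • w i := by
  simp [regL]

theorem regL_eq (A : EuclideanSpace ℂ (Fin n) →L[ℂ] W) :
    regL (fun i => A (EuclideanSpace.single i 1)) = A := by
  ext v
  rw [regL_apply]
  have hv : v = ∑ i, v i • EuclideanSpace.single i (1 : ℂ) := by
    ext j
    simp [Pi.single_apply]
  conv_rhs => rw [hv]
  simp only [map_sum, map_smul]

theorem regL_norm_le (w : Fin n → W) : ‖regL w‖ ≤ ∑ i, ‖w i‖ := by
  refine ContinuousLinearMap.opNorm_le_bound _ (Finset.sum_nonneg fun _ _ => norm_nonneg _)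
    fun v => ?_
  rw [regL_apply, Finset.sum_mul]
  refine (norm_sum_le _ _).trans (Finset.sum_le_sum fun i _ => ?_)
  rw [norm_smul, mul_comm]
  gcongr
  exact PiLp.norm_apply_le v i

/-- continuous extension to the closed ball -/
theorem reg_cont [CompleteSpace W] {g : EuclideanSpace ℂ (Fin n) → W}
    (hg : DifferentiableOn ℂ g (ball 0 1))
    (hb : ∀ i : Fin n, ∃ C : ℝ, ∀ x ∈ ball (0 : EuclideanSpace ℂ (Fin n)) 1,
      ‖fderiv ℂ g x (EuclideanSpace.single i 1)‖ ≤ C) :
    ∃ G : EuclideanSpace ℂ (Fin n) → W, EqOn G g (ball 0 1) ∧ ContinuousOn G (closedBall 0 1) := by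
  choose C hC using hb
  have hbd : ∀ x ∈ ball (0 : EuclideanSpace ℂ (Fin n)) 1,
      ‖fderiv ℂ g x‖₊ ≤ Real.toNNReal (∑ i, C i) := by
    intro x hx
    rw [← NNReal.coe_le_coe, coe_nnnorm]
    refine le_trans ?_ (Real.le_coe_toNNReal _)
    rw [← regL_eq (fderiv ℂ g x)]
    exact (regL_norm_le _).trans (Finset.sum_le_sum fun i _ => hC i x hx)
  have hlip := (convex_ball (0 : EuclideanSpace ℂ (Fin n)) 1).lipschitzOnWith_of_nnnorm_fderiv_le
    (𝕜 := ℂ) (fun x hx => hg.differentiableAt (isOpen_ball.mem_nhds hx)) hbd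
  refine ⟨extendFrom (ball 0 1) g, fun x hx => extendFrom_extends hg.continuousOn x hx, ?_⟩
  have hcl : closure (ball (0 : EuclideanSpace ℂ (Fin n)) 1) = closedBall 0 1 :=
    closure_ball 0 one_ne_zero
  refine continuousOn_extendFrom hcl.ge fun x hx => ?_
  have : (𝓝[ball (0 : EuclideanSpace ℂ (Fin n)) 1] x).NeBot :=
    mem_closure_iff_nhdsWithin_neBot.1 (hcl.ge hx)
  have hc : Cauchy (𝓝[ball (0 : EuclideanSpace ℂ (Fin n)) 1] x) :=
    cauchy_nhds.mono nhdsWithin_le_nhds
  exact CompleteSpace.complete (hc.map_of_le hlip.uniformContinuousOn inf_le_right)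

theorem reg_ext [CompleteSpace W] : ∀ (k : ℕ) (g : EuclideanSpace ℂ (Fin n) → W),
    regBd (k + 1) g → ∃ G : EuclideanSpace ℂ (Fin n) → W, EqOn G g (ball 0 1) ∧
      ContDiffOn ℝ k G (closedBall 0 1) := by
  intro k
  induction k with
  | zero =>
    rintro g ⟨hg, hd⟩
    obtain ⟨G, h1, h2⟩ := reg_cont hg fun i => by
      obtain ⟨h, ⟨C, hC⟩, hh⟩ := hd (EuclideanSpace.single i 1)
      exact ⟨C, fun x hx => by rw [hh x hx]; exact hC x hx⟩
    exact ⟨G, h1, by simpa using h2⟩
  | succ k ih =>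
    rintro g ⟨hg, hd⟩
    have hcl : closure (ball (0 : EuclideanSpace ℂ (Fin n)) 1) = closedBall 0 1 :=
      closure_ball 0 one_ne_zero
    have hex : ∀ i : Fin n, ∃ H : EuclideanSpace ℂ (Fin n) → W,
        (∀ x ∈ ball (0 : EuclideanSpace ℂ (Fin n)) 1,
          fderiv ℂ g x (EuclideanSpace.single i 1) = H x) ∧
        ContDiffOn ℝ k H (closedBall 0 1) := by
      intro i
      obtain ⟨h, h1, h2⟩ := hd (EuclideanSpace.single i 1)
      obtain ⟨H, h3, h4⟩ := ih h h1
      exact ⟨H, fun x hx => (h2 x hx).trans (h3 hx).symm, h4⟩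
    choose H hH1 hH2 using hex
    obtain ⟨G, h1, h2⟩ := reg_cont hg fun i => by
      obtain ⟨C, hC⟩ := (isCompact_closedBall (0 : EuclideanSpace ℂ (Fin n)) 1).exists_bound_of_continuousOn
        (hH2 i).continuousOn
      exact ⟨C, fun x hx => by rw [hH1 i x hx]; exact hC x (ball_subset_closedBall hx)⟩
    refine ⟨G, h1, ?_⟩
    let G' : EuclideanSpace ℂ (Fin n) → EuclideanSpace ℂ (Fin n) →L[ℝ] W := fun x =>
      (regL fun i => H i x).restrictScalars ℝ
    have hG' : ContDiffOn ℝ k G' (closedBall 0 1) := by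
      refine contDiffOn_clm_apply.2 fun v => ?_
      have : (fun x => G' x v) = fun x => ∑ i, v i • H i x := by
        funext x
        simp [G', regL_apply]
      rw [this]
      exact ContDiffOn.sum fun i _ => (hH2 i).const_smul (v i)
    have hin : ∀ x ∈ ball (0 : EuclideanSpace ℂ (Fin n)) 1, HasFDerivAt G (G' x) x := by
      intro x hx
      have e1 : (regL fun i => H i x) = fderiv ℂ g x := by
        rw [← regL_eq (fderiv ℂ g x)]
        congr 1
        funext i
        exact (hH1 i x hx).symm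
      have e2 : HasFDerivAt g (G' x) x := by
        simp only [G', e1]
        exact (hg.differentiableAt (isOpen_ball.mem_nhds hx)).hasFDerivAt.restrictScalars ℝ
      refine e2.congr_of_eventuallyEq ?_
      filter_upwards [isOpen_ball.mem_nhds hx] with y hy using h1 hy
    have hu : UniqueDiffOn ℝ (closedBall (0 : EuclideanSpace ℂ (Fin n)) 1) :=
      uniqueDiffOn_convex (convex_closedBall 0 1)
        ⟨0, interior_maximal ball_subset_closedBall isOpen_ball (mem_ball_self one_pos)⟩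
    rw [Nat.cast_succ, contDiffOn_succ_iff_hasFDerivWithinAt_of_uniqueDiffOn hu]
    refine ⟨by simp, G', hG', fun x hx => ?_⟩
    rw [← hcl]
    refine hasFDerivWithinAt_closure_of_tendsto_fderiv
      (fun y hy => (hin y hy).differentiableAt.differentiableWithinAt) (convex_ball 0 1)
      isOpen_ball (fun y hy => (h2 y (hcl.le hy)).mono ball_subset_closedBall) ?_
    have t1 : Tendsto G' (𝓝[ball 0 1] x) (𝓝 (G' x)) :=
      (hG'.continuousOn x hx).mono ball_subset_closedBall
    refine t1.congr' ?_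
    filter_upwards [self_mem_nhdsWithin] with y hy using (hin y hy).fderiv.symm

theorem reg_series [CompleteSpace W] : ∀ (m : ℕ) (f : ℕ → EuclideanSpace ℂ (Fin n) → W)
    (r Mb : ℕ → EuclideanSpace ℂ (Fin n) → ℝ) (b : ℕ → ℝ), Summable b →
    (∀ j, ∀ x ∈ ball (0 : EuclideanSpace ℂ (Fin n)) 1, 0 < r j x) →
    (∀ j, ∀ x ∈ ball (0 : EuclideanSpace ℂ (Fin n)) 1,
      DifferentiableOn ℂ (f j) (ball x (r j x))) →
    (∀ j, ∀ x ∈ ball (0 : EuclideanSpace ℂ (Fin n)) 1, ∀ y ∈ ball x (r j x), ‖f j y‖ ≤ Mb j x) →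
    (∀ j, ∀ x ∈ ball (0 : EuclideanSpace ℂ (Fin n)) 1, ∀ i ≤ m, Mb j x / r j x ^ i ≤ b j) →
    regBd m (fun x => ∑' j, f j x) := by
  intro m
  induction m with
  | zero =>
    intro f r Mb b hb hr hf hM hbd
    refine ⟨∑' j, b j, fun x hx => tsum_of_norm_bounded hb.hasSum fun j => ?_⟩
    have := hbd j x hx 0 le_rfl
    rw [pow_zero, div_one] at this
    exact (hM j x hx x (mem_ball_self (hr j x hx))).trans this
  | succ m ih =>
    intro f r Mb b hb hr hf hM hbd
    have h0 : ∀ j, ∀ x ∈ ball (0 : EuclideanSpace ℂ (Fin n)) 1, ‖f j x‖ ≤ b j := by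
      intro j x hx
      have := hbd j x hx 0 (Nat.zero_le _)
      rw [pow_zero, div_one] at this
      exact (hM j x hx x (mem_ball_self (hr j x hx))).trans this
    have h1 : ∀ j, ∀ x ∈ ball (0 : EuclideanSpace ℂ (Fin n)) 1, ‖fderiv ℂ (f j) x‖ ≤ 2 * b j := by
      intro j x hx
      have := hbd j x hx 1 (by omega)
      rw [pow_one] at this
      refine (MP_08f711_an.norm_fderiv_le_of_bound (hr j x hx) (hf j x hx) (hM j x hx)).trans ?_
      rw [mul_div_assoc]
      linarith
    have hder : ∀ x ∈ ball (0 : EuclideanSpace ℂ (Fin n)) 1,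
        HasFDerivAt (fun y => ∑' j, f j y) (∑' j, fderiv ℂ (f j) x) x := fun x hx =>
      hasFDerivAt_tsum_of_isPreconnected (hb.mul_left 2) isOpen_ball
        (convex_ball 0 1).isPreconnected
        (fun j y hy => ((hf j y hy).differentiableAt
          (ball_mem_nhds y (hr j y hy))).hasFDerivAt) h1 hx
        (Summable.of_norm_bounded hb fun j => h0 j x hx) hx
    refine ⟨fun x hx => (hder x hx).differentiableAt.differentiableWithinAt, fun v =>
      ⟨fun x => ∑' j, fderiv ℂ (f j) x v, ?_, fun x hx => ?_⟩⟩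
    · refine ih (fun j x => fderiv ℂ (f j) x v) (fun j x => r j x / 2)
        (fun j x => 4 * Mb j x / r j x * ‖v‖) (fun j => 4 * 2 ^ m * ‖v‖ * b j)
        (hb.mul_left _) (fun j x hx => half_pos (hr j x hx)) (fun j x hx => ?_)
        (fun j x hx y hy => ?_) (fun j x hx i hi => ?_)
      · exact (MP_08f711_an.differentiableOn_fderiv_apply isOpen_ball (hf j x hx) v).mono
          (ball_subset_ball (half_le_self (hr j x hx).le))
      · have hsub : ball y (r j x / 2) ⊆ ball x (r j x) := by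
          intro z hz
          rw [mem_ball] at *
          have := dist_triangle z y x
          linarith
        have := MP_08f711_an.norm_fderiv_le_of_bound (half_pos (hr j x hx))
          ((hf j x hx).mono hsub) (fun z hz => hM j x hx z (hsub hz))
        refine ((fderiv ℂ (f j) y).le_opNorm v).trans
          (mul_le_mul_of_nonneg_right (this.trans_eq ?_) (norm_nonneg v))
        have := (hr j x hx).ne'
        field_simp
        ring
      · have h2 := hbd j x hx (i + 1) (by omega)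
        have hr0 := hr j x hx
        have hM0 : 0 ≤ Mb j x := (norm_nonneg _).trans (hM j x hx x (mem_ball_self hr0))
        have e : 4 * Mb j x / r j x * ‖v‖ / (r j x / 2) ^ i =
            4 * 2 ^ i * ‖v‖ * (Mb j x / r j x ^ (i + 1)) := by
          rw [div_pow]
          field_simp
          ring
        rw [e]
        have h3 : (2 : ℝ) ^ i ≤ 2 ^ m := pow_le_pow_right₀ one_le_two hi
        gcongr
    · rw [(hder x hx).fderiv]
      exact ((Summable.of_norm_bounded (hb.mul_left 2) fun j => h1 j x hx).hasSum.mapL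
        (ContinuousLinearMap.apply ℂ W v)).tsum_eq.symm

end reg

theorem exists_contDiffOn_of_series {n k : ℕ} {W : Type} [NormedAddCommGroup W] [NormedSpace ℂ W]
    [CompleteSpace W] (f : ℕ → EuclideanSpace ℂ (Fin n) → W)
    (r Mb : ℕ → EuclideanSpace ℂ (Fin n) → ℝ) (b : ℕ → ℝ) (hb : Summable b)
    (hr : ∀ j, ∀ x ∈ ball (0 : EuclideanSpace ℂ (Fin n)) 1, 0 < r j x)
    (hf : ∀ j, ∀ x ∈ ball (0 : EuclideanSpace ℂ (Fin n)) 1, DifferentiableOn ℂ (f j) (ball x (r j x)))
    (hM : ∀ j, ∀ x ∈ ball (0 : EuclideanSpace ℂ (Fin n)) 1, ∀ y ∈ ball x (r j x), ‖f j y‖ ≤ Mb j x)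
    (hbd : ∀ j, ∀ x ∈ ball (0 : EuclideanSpace ℂ (Fin n)) 1, ∀ i ≤ k + 1, Mb j x / r j x ^ i ≤ b j) :
    ∃ G : EuclideanSpace ℂ (Fin n) → W, DifferentiableOn ℂ G (ball 0 1) ∧
      ContDiffOn ℝ k G (closedBall 0 1) ∧
      ∀ x ∈ ball (0 : EuclideanSpace ℂ (Fin n)) 1, HasSum (fun j => f j x) (G x) := by
  have h := reg_series (k + 1) f r Mb b hb hr hf hM hbd
  obtain ⟨G, h1, h2⟩ := reg_ext k _ h
  refine ⟨G, h.1.congr h1, h2, fun x hx => ?_⟩
  rw [h1 hx]
  refine (Summable.of_norm_bounded hb fun j => ?_).hasSum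
  have := hbd j x hx 0 (Nat.zero_le _)
  rw [pow_zero, div_one] at this
  exact (hM j x hx x (mem_ball_self (hr j x hx))).trans this

end Pool.Agent.Lib.MP_601e9e_an
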