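import Pool.Agent.Lib.MP_601e9e_an.Iter
import Pool.Agent.Lib.MP_601e9e_an.Reg

/-!
Transfer to the ball.
-/

set_option autoImplicit false

open Complex Metric Set ComplexConjugate Filter Topology

namespace Pool.Agent.Lib.MP_601e9e_an

variable {d : ℕ}

theorem cay_norm_sq (Z : Eb d) : ‖Z‖ ^ 2 = ‖Z 0‖ ^ 2 + ∑ i : Fin d, ‖Z i.succ‖ ^ 2 := by
  rw [EuclideanSpace.norm_sq_eq, Fin.sum_univ_succ]

theorem cay_rho {Z : Eb d} (h : 1 + Z 0 ≠ 0) :
    rho (cay Z) = (1 - ‖Z‖ ^ 2) / ‖1 + Z 0‖ ^ 2 := by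
  have hn : ‖1 + Z 0‖ ^ 2 ≠ 0 := pow_ne_zero _ (norm_ne_zero_iff.2 h)
  have h1 : (I * (1 - Z 0) / (1 + Z 0)).im = (1 - ‖Z 0‖ ^ 2) / ‖1 + Z 0‖ ^ 2 := by
    rw [Complex.div_im, Complex.normSq_eq_norm_sq, Complex.sq_norm (Z 0), Complex.normSq_apply,
      ← sub_div]
    congr 1
    simp
    ring
  have h2 : nsq (fun i : Fin d => Z i.succ / (1 + Z 0)) =
      (∑ i : Fin d, ‖Z i.succ‖ ^ 2) / ‖1 + Z 0‖ ^ 2 := by
    simp only [nsq, norm_div, div_pow, Finset.sum_div]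
  unfold rho cay
  simp only [h1, h2]
  rw [cay_norm_sq Z, ← sub_div]
  congr 1
  ring

theorem cay_psi {Z : Eb d} (h : 1 + Z 0 ≠ 0) : psi (cay Z) = cexp (Z 0) / 1000 := by
  have h1 : qq (cay Z) = 2 / (1 + Z 0) := by
    simp only [qq, cay]
    field_simp
    linear_combination (Z 0 - 1) * I_mul_I
  unfold psi
  rw [h1]
  congr 2
  field_simp
  ring

theorem cay_diff_coord (i : Fin (d + 1)) : Differentiable ℂ fun Z : Eb d => Z i :=
  (EuclideanSpace.proj (𝕜 := ℂ) i).differentiable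

theorem cay_differentiableAt {Z : Eb d} (h : 1 + Z 0 ≠ 0) : DifferentiableAt ℂ cay Z := by
  have h0 : DifferentiableAt ℂ (fun Z : Eb d => 1 + Z 0) Z :=
    (differentiableAt_const _).add (cay_diff_coord 0 Z)
  have h1 : DifferentiableAt ℂ (fun Z : Eb d => (1 + Z 0)⁻¹) Z := h0.fun_inv h
  unfold cay
  simp only [div_eq_mul_inv]
  refine DifferentiableAt.prodMk (differentiableAt_pi.2 fun i => ?_) ?_
  · exact (cay_diff_coord i.succ Z).fun_mul h1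
  · exact (((differentiableAt_const _).fun_sub (cay_diff_coord 0 Z)).const_mul I).fun_mul h1

theorem cay_diff_hh (D : ℕ) : Differentiable ℂ (hh D : Eb d → ℂ) := by
  unfold hh
  simp only [div_eq_mul_inv]
  exact (((differentiable_const _).fun_add (cay_diff_coord 0)).mul_const _).fun_pow D

theorem cay_coord_le (Z : Eb d) : ‖Z 0‖ ≤ ‖Z‖ := PiLp.norm_apply_le Z 0

theorem cay_ne_of_ball {x : Eb d} (hx : x ∈ ball (0 : Eb d) 1) : 1 + x 0 ≠ 0 := by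
  intro h
  have h1 : x 0 = -1 := by linear_combination h
  have h2 := cay_coord_le x
  rw [h1, norm_neg, norm_one] at h2
  rw [mem_ball_zero_iff] at hx
  linarith

theorem cay_le_two {x : Eb d} (hx : ‖x‖ ≤ 1) : ‖1 + x 0‖ ≤ 2 := by
  have h1 := norm_add_le (1 : ℂ) (x 0)
  rw [norm_one] at h1
  linarith [cay_coord_le x]

/-- the small balls stay in the domain of the dilated maps -/
theorem cay_small {x y : Eb d} {σ : ℝ} (hσ : 1 ≤ σ) (hx : x ∈ ball (0 : Eb d) 1)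
    (hy : y ∈ ball x (‖1 + x 0‖ ^ 2 / (100 * σ ^ 2))) :
    1 + y 0 ≠ 0 ∧ ‖1 + y 0‖ ≤ 2 * ‖1 + x 0‖ ∧ dil σ (cay y) ∈ Om d (1 / 2) := by
  have hx1 : ‖x‖ < 1 := mem_ball_zero_iff.1 hx
  have ha0 : 0 < ‖1 + x 0‖ := norm_pos_iff.2 (cay_ne_of_ball hx)
  have ha2 := cay_le_two hx1.le
  set a := ‖1 + x 0‖ with ha
  set r := a ^ 2 / (100 * σ ^ 2) with hr
  have hσ2 : 1 ≤ σ ^ 2 := one_le_pow₀ hσ
  have hr0 : 0 < r := by positivity
  have hrσ : r * σ ^ 2 = a ^ 2 / 100 := by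
    rw [hr]
    field_simp
  have hra : r ≤ a / 50 := by nlinarith
  have hyx : ‖y - x‖ < r := by rwa [mem_ball, dist_eq_norm] at hy
  have hc : ‖y 0 - x 0‖ < r := lt_of_le_of_lt (cay_coord_le (y - x)) hyx
  have e1 : 1 + y 0 = (1 + x 0) + (y 0 - x 0) := by ring
  have e2 : 1 + x 0 = (1 + y 0) - (y 0 - x 0) := by ring
  have hup : ‖1 + y 0‖ ≤ a + r := by
    rw [e1]
    linarith [norm_add_le (1 + x 0) (y 0 - x 0)]
  have hlo : a - r ≤ ‖1 + y 0‖ := by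
    have := norm_sub_le (1 + y 0) (y 0 - x 0)
    rw [← e2] at this
    linarith
  have hb0 : 0 < ‖1 + y 0‖ := by linarith
  have hne : 1 + y 0 ≠ 0 := norm_pos_iff.1 hb0
  refine ⟨hne, by linarith, ?_⟩
  have hy1 : ‖y‖ ≤ 1 + r := by
    have := norm_add_le (y - x) x
    rw [sub_add_cancel] at this
    linarith
  have hy2 : ‖y‖ ^ 2 ≤ (1 + r) ^ 2 := by gcongr
  have hb : (a / 2) ^ 2 ≤ ‖1 + y 0‖ ^ 2 := by
    gcongr
    linarith
  show -(1 / 2 : ℝ) < rho (dil σ (cay y))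
  rw [rho_dil, cay_rho hne, ← mul_div_assoc, lt_div_iff₀ (by positivity)]
  have h3 : -(3 * r) ≤ 1 - ‖y‖ ^ 2 := by nlinarith
  have h4 : σ ^ 2 * -(3 * r) ≤ σ ^ 2 * (1 - ‖y‖ ^ 2) := by gcongr
  nlinarith [sq_pos_of_pos ha0]

theorem cay_closed {x : Eb d} (σ : ℝ) (hx : ‖x‖ ≤ 1) (h : 1 + x 0 ≠ 0) :
    dil σ (cay x) ∈ Om d (1 / 2) := by
  show -(1 / 2 : ℝ) < rho (dil σ (cay x))
  rw [rho_dil, cay_rho h]
  have h1 : 0 ≤ 1 - ‖x‖ ^ 2 := by nlinarith [norm_nonneg x]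
  have : 0 ≤ σ ^ 2 * ((1 - ‖x‖ ^ 2) / ‖1 + x 0‖ ^ 2) := by positivity
  linarith

theorem cay_arith {a T B : ℝ} {k i j : ℕ} (ha0 : 0 < a) (ha : a ≤ 2) (hT : 2 ≤ T) (hB : 0 ≤ B)
    (hi : i ≤ k + 1) :
    a ^ (2 * (k + 1)) * (((T ^ (2 * (k + 2)))⁻¹) ^ j * B) /
        (a ^ 2 / (100 * (T ^ (j + 1)) ^ 2)) ^ i ≤
      2 ^ (2 * (k + 1)) * B * (100 * T ^ 2) ^ (k + 1) * ((T ^ 2)⁻¹) ^ j := by
  have hT0 : 0 < T := by linarith
  have hT1 : 1 ≤ T := by linarith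
  obtain ⟨c, hc⟩ := Nat.exists_eq_add_of_le hi
  have h1 : a ^ (2 * c) ≤ 2 ^ (2 * (k + 1)) :=
    (pow_le_pow_left₀ ha0.le ha _).trans (pow_le_pow_right₀ one_le_two (by omega))
  have hU : 1 ≤ 100 * (T ^ (j + 1)) ^ 2 := by
    have : 1 ≤ (T ^ (j + 1)) ^ 2 := one_le_pow₀ (one_le_pow₀ hT1)
    linarith
  have h2 : (100 * (T ^ (j + 1)) ^ 2) ^ i ≤ (100 * (T ^ (j + 1)) ^ 2) ^ (k + 1) :=
    pow_le_pow_right₀ hU hi
  have e1 : a ^ (2 * (k + 1)) * (((T ^ (2 * (k + 2)))⁻¹) ^ j * B) /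
        (a ^ 2 / (100 * (T ^ (j + 1)) ^ 2)) ^ i =
      a ^ (2 * c) * B * (100 * (T ^ (j + 1)) ^ 2) ^ i * ((T ^ (2 * (k + 2)))⁻¹) ^ j := by
    rw [hc, div_pow]
    field_simp
    ring
  have e2 : (100 * (T ^ (j + 1)) ^ 2) ^ (k + 1) * ((T ^ (2 * (k + 2)))⁻¹) ^ j =
      (100 * T ^ 2) ^ (k + 1) * ((T ^ 2)⁻¹) ^ j := by
    rw [inv_pow, inv_pow]
    field_simp
    ring
  rw [e1, mul_assoc (2 ^ (2 * (k + 1)) * B), ← e2, ← mul_assoc]
  gcongr

theorem ball_part (d k : ℕ) : ∃ (κ : Type) (_ : Fintype κ) (D : ℕ) (G : Eb d → κ → ℂ),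
    DifferentiableOn ℂ G (ball 0 1) ∧ ContDiffOn ℝ k G (closedBall 0 1) ∧
      ∀ Z ∈ sphere (0 : Eb d) 1, nsq (G Z) = ‖hh D Z‖ ^ 2 * (1 - ‖cexp (Z 0) / 1000‖ ^ 2) := by
  obtain ⟨κ, inst, T, B, g, hT, hB, hgd, hgb, hsum⟩ := iterate d (k + 2) (by omega)
  have hT0 : 0 < T := by linarith
  have hT1 : 1 < T := by linarith
  have hinv : ∀ m : ℕ, m ≠ 0 → 0 ≤ (T ^ m)⁻¹ ∧ (T ^ m)⁻¹ < 1 := fun m hm =>
    ⟨by positivity, inv_lt_one_of_one_lt₀ (one_lt_pow₀ hT1 hm)⟩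
  set τ : ℝ := (T ^ (2 * (k + 2)))⁻¹ with hτ
  obtain ⟨hτ0, hτ1⟩ : 0 ≤ τ ∧ τ < 1 := hinv _ (by omega)
  set D : ℕ := 2 * (k + 1) with hD
  set f : ℕ → Eb d → κ → ℂ := fun j Z =>
    hh D Z • ((τ ^ j : ℝ) : ℂ) • g j (dil (T ^ (j + 1)) (cay Z)) with hf
  have hfd : ∀ j (y : Eb d), 1 + y 0 ≠ 0 → dil (T ^ (j + 1)) (cay y) ∈ Om d (1 / 2) →
      DifferentiableAt ℂ (f j) y := by
    intro j y h1 h2
    have h3 : DifferentiableAt ℂ (fun Z : Eb d => g j (dil (T ^ (j + 1)) (cay Z))) y :=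
      ((hgd j).differentiableAt ((isOpen_Om _).mem_nhds h2)).comp y
        ((differentiable_dil _ _).comp y (cay_differentiableAt h1))
    exact (cay_diff_hh D y).fun_smul (h3.fun_const_smul _)
  have hfb : ∀ j (y : Eb d), dil (T ^ (j + 1)) (cay y) ∈ Om d (1 / 2) →
      ‖f j y‖ ≤ ‖hh D y‖ * (τ ^ j * B) := by
    intro j y h2
    simp only [hf, norm_smul, norm_real, Real.norm_eq_abs, abs_of_nonneg (pow_nonneg hτ0 j)]
    gcongr
    exact hgb j _ h2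
  have hσ : ∀ j : ℕ, 1 ≤ T ^ (j + 1) := fun j => one_le_pow₀ hT1.le
  obtain ⟨G, hG1, hG2, hG3⟩ := exists_contDiffOn_of_series (k := k) f
    (fun j x => ‖1 + x 0‖ ^ 2 / (100 * (T ^ (j + 1)) ^ 2))
    (fun j x => ‖1 + x 0‖ ^ D * (τ ^ j * B))
    (fun j => 2 ^ D * B * (100 * T ^ 2) ^ (k + 1) * ((T ^ 2)⁻¹) ^ j)
    ((summable_geometric_of_lt_one (hinv 2 two_ne_zero).1 (hinv 2 two_ne_zero).2).mul_left _)
    (fun j x hx => by
      have := norm_pos_iff.2 (cay_ne_of_ball hx)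
      positivity)
    (fun j x hx y hy => by
      obtain ⟨h1, -, h3⟩ := cay_small (hσ j) hx hy
      exact (hfd j y h1 h3).differentiableWithinAt)
    (fun j x hx y hy => by
      obtain ⟨-, h2, h3⟩ := cay_small (hσ j) hx hy
      refine (hfb j y h3).trans ?_
      have h4 : ‖hh D y‖ ≤ ‖1 + x 0‖ ^ D := by
        unfold hh
        rw [norm_pow, norm_div, Complex.norm_two]
        gcongr
        linarith
      gcongr)
    (fun j x hx i hi => cay_arith (norm_pos_iff.2 (cay_ne_of_ball hx))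
      (cay_le_two (mem_ball_zero_iff.1 hx).le) hT hB hi)
  refine ⟨κ, inst, D, G, hG1, hG2, fun Z hZ => ?_⟩
  have hZ1 : ‖Z‖ = 1 := mem_sphere_zero_iff_norm.1 hZ
  have hcl : closure (ball (0 : Eb d) 1) = closedBall 0 1 := closure_ball 0 one_ne_zero
  have hu : Summable fun j : ℕ => τ ^ j * B := (summable_geometric_of_lt_one hτ0 hτ1).mul_right B
  by_cases h0 : 1 + Z 0 = 0
  · have hh0 : hh D Z = 0 := by
      unfold hh
      rw [h0, zero_div, zero_pow (by omega)]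
    have hle : ‖G Z‖ ≤ ‖hh D Z‖ * ∑' j : ℕ, τ ^ j * B := by
      refine ContinuousWithinAt.closure_le (s := ball (0 : Eb d) 1) (f := fun x => ‖G x‖)
        (g := fun x => ‖hh D x‖ * ∑' j : ℕ, τ ^ j * B) ?_ ?_ ?_ fun x hx => ?_
      · rw [hcl]
        exact sphere_subset_closedBall hZ
      · exact ((hG2.continuousOn Z (sphere_subset_closedBall hZ)).mono ball_subset_closedBall).norm
      · exact (((cay_diff_hh D).continuous.norm.mul continuous_const).continuousAt).continuousWithinAt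
      · exact (hG3 x hx).norm_le_of_bounded (hu.hasSum.mul_left _) fun j =>
          hfb j x (cay_closed _ (mem_ball_zero_iff.1 hx).le (cay_ne_of_ball hx))
    rw [hh0, norm_zero, zero_mul] at hle
    rw [norm_le_zero_iff.1 hle, hh0, nsq_zero]
    simp
  · set S : Set (Eb d) := {x | ‖x‖ ≤ 1 ∧ 1 + x 0 ≠ 0} with hS
    have hbS : ∀ j, ∀ x ∈ S, ‖f j x‖ ≤ τ ^ j * B := by
      intro j x hx
      refine (hfb j x (cay_closed _ hx.1 hx.2)).trans ?_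
      have h4 : ‖hh D x‖ ≤ 1 := by
        unfold hh
        rw [norm_pow, norm_div, Complex.norm_two]
        exact pow_le_one₀ (by positivity) (by linarith [cay_le_two hx.1])
      exact mul_le_of_le_one_left (by positivity) h4
    have hSc : S ⊆ closedBall 0 1 := fun x hx => mem_closedBall_zero_iff.2 hx.1
    have hcont : ContinuousOn (fun x => ∑' j, f j x) S :=
      continuousOn_tsum (fun j x hx =>
        (hfd j x hx.2 (cay_closed _ hx.1 hx.2)).continuousAt.continuousWithinAt) hu hbS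
    have heq : EqOn (fun x => ∑' j, f j x) G S :=
      EqOn.of_subset_closure (s := ball (0 : Eb d) 1) (fun x hx => (hG3 x hx).tsum_eq) hcont
        (hG2.continuousOn.mono hSc)
        (fun x hx => ⟨(mem_ball_zero_iff.1 hx).le, cay_ne_of_ball hx⟩) (by rwa [hcl])
    have hZS : Z ∈ S := ⟨hZ1.le, h0⟩
    have hs : HasSum (fun j => f j Z) (G Z) := by
      rw [← heq hZS]
      exact (Summable.of_norm_bounded hu fun j => hbS j Z hZS).hasSum
    obtain ⟨y, hy⟩ : ∃ y : Hs d, cay Z = pt y := exists_pt (by rw [cay_rho h0, hZ1]; simp)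
    have t1 : Tendsto (fun m => nsq (∑ j ∈ Finset.range m, f j Z)) atTop (𝓝 (nsq (G Z))) :=
      (continuous_nsq.tendsto _).comp hs.tendsto_sum_nat
    have t2 : Tendsto (fun m => nsq (∑ j ∈ Finset.range m,
        ((τ ^ j : ℝ) : ℂ) • g j (dil (T ^ (j + 1)) (pt y)))) atTop (𝓝 (1 - ‖psi (pt y)‖ ^ 2)) := by
      rw [tendsto_iff_dist_tendsto_zero]
      have t3 : Tendsto (fun m : ℕ => 2 * ((T ^ (4 * (k + 2)))⁻¹) ^ m) atTop (𝓝 0) := by
        simpa using (tendsto_pow_atTop_nhds_zero_of_lt_one (hinv (4 * (k + 2)) (by omega)).1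
          (hinv (4 * (k + 2)) (by omega)).2).const_mul 2
      refine squeeze_zero (fun _ => dist_nonneg) (fun m => ?_) t3
      rw [dist_comm, Real.dist_eq]
      exact hsum y m
    have t4 := t2.const_mul (‖hh D Z‖ ^ 2)
    rw [← cay_psi h0, hy]
    refine tendsto_nhds_unique t1 (t4.congr fun m => ?_)
    rw [← nsq_smul, Finset.smul_sum]
    simp only [hf, hy]

end Pool.Agent.Lib.MP_601e9e_an
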