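import Pool.Agent.Lib.MP_601e9e_an.Peaks

/-!
The cross terms between the old map and the new peaks.
-/

set_option autoImplicit false

open Complex Metric Set ComplexConjugate

namespace Pool.Agent.Lib.MP_601e9e_an

variable {d : ℕ}

theorem cross_ip_pk {M : ℕ} {B : Type} [Fintype B] (A l L : ℕ)
    (n : Lat d → (Fin M → Bs d) → B → ℂ) (γ : Lat d) (X : Xs d) (u : Col d L × B → ℂ) :
    ip u (pk A l L n γ X) = ip (fun b => u (col L γ, b))
      ((qq (tr (lat l γ) X) ^ A)⁻¹ • ∑ ω, num ω (tr (lat l γ) X) • n γ ω) := by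
  unfold ip
  rw [Fintype.sum_prod_type, Finset.sum_eq_single (col L γ)]
  · refine Finset.sum_congr rfl fun b _ => ?_
    simp only [pk, if_true, Pi.smul_apply, smul_eq_mul]
  · intro c _ hc
    refine Finset.sum_eq_zero fun b _ => ?_
    simp only [pk, if_neg hc, map_zero, mul_zero]
  · intro h
    exact absurd (Finset.mem_univ _) h

theorem cross_ip_sum_right {κ ι : Type} [Fintype κ] (s : Finset ι) (u : κ → ℂ) (g : ι → κ → ℂ) :
    ip u (∑ i ∈ s, g i) = ∑ i ∈ s, ip u (g i) := by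
  classical
  induction s using Finset.induction_on with
  | empty => simp [ip_zero_right]
  | insert a s ha ih => rw [Finset.sum_insert ha, Finset.sum_insert ha, ip_add_right, ih]

theorem cross_ip_sum_left {κ ι : Type} [Fintype κ] (s : Finset ι) (g : ι → κ → ℂ) (u : κ → ℂ) :
    ip (∑ i ∈ s, g i) u = ∑ i ∈ s, ip (g i) u := by
  classical
  induction s using Finset.induction_on with
  | empty => simp [ip_zero_left]
  | insert a s ha ih => rw [Finset.sum_insert ha, Finset.sum_insert ha, ip_add_left, ih]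

theorem cross_nsq_block {M : ℕ} {B : Type} [Fintype B] (A l L : ℕ)
    (n : Lat d → (Fin M → Bs d) → B → ℂ) (γ : Lat d) (X : Xs d) :
    nsq ((qq (tr (lat l γ) X) ^ A)⁻¹ • ∑ ω, num ω (tr (lat l γ) X) • n γ ω) =
      nsq (pk A l L n γ X) := by
  have h := cross_ip_pk A l L n γ X (pk A l L n γ X)
  have e : (fun b => pk A l L n γ X (col L γ, b)) =
      (qq (tr (lat l γ) X) ^ A)⁻¹ • ∑ ω, num ω (tr (lat l γ) X) • n γ ω := by
    funext b
    simp only [pk, if_true, Pi.smul_apply, smul_eq_mul]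
  rw [e, ip_self, ip_self] at h
  exact_mod_cast h.symm

theorem cross (d M m A' : ℕ) (hA : m + 1 + (2 * d + 2) ≤ A') : ∃ C : ℝ, 0 < C ∧
    ∀ (B : Type) [Fintype B] (l L : ℕ) (μ β : ℝ) (n : Lat d → (Fin M → Bs d) → B → ℂ)
      (F : Xs d → Col d L × B → ℂ) (v : Lat d → Option (Idx (Lt d) m) → Col d L × B → ℂ),
      1 ≤ l → 0 ≤ μ → 0 ≤ β →
      (∀ γ (x : (Fin M → Bs d) → ℂ), nsq (∑ ω, x ω • n γ ω) ≤ μ ^ 2 * nsq x) →
      (∀ γ, ∀ X ∈ Om d (1 / 2), ‖F (tr (-lat l γ) X) - v γ none -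
        ∑ a, mon cx (wd a) X • v γ (some a)‖ ≤ β * ‖X‖ ^ (m + 1)) →
      (∀ γ a ω, ip (fun b => v γ a (col L γ, b)) (n γ ω) = 0) →
      ∀ X ∈ Om d (1 / 2), ∀ Ξ ∈ Om d (1 / 2),
        (∀ y : Hs d, ‖qq (tr y X)‖ ≤ 10 * ‖qq (tr y Ξ)‖) →
        ‖ip (F X) (∑' γ, pk (M + A') l L n γ Ξ)‖ ≤
          C * Fintype.card B * β * μ * (l : ℝ) ^ (2 * d + 2) := by
  obtain ⟨a, rfl⟩ : ∃ a, A' = m + 1 + a := ⟨A' - (m + 1), by omega⟩
  obtain ⟨C0, hC0, hup⟩ := lat_upper d a (by omega)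
  obtain ⟨C1, -, hpk⟩ := peaks d M (m + 1 + a) (by omega)
  refine ⟨30 ^ (m + 1) * 3 ^ M * C0, by positivity, ?_⟩
  intro B _ l L μ β n F v hl hμ hβ hn hjet horth X hX Ξ hΞ hcmp
  have hsum := ((hpk B l L μ n hl hμ hn).2 Ξ hΞ).1
  have hK : 0 ≤ (30 : ℝ) ^ (m + 1) * 3 ^ M * Fintype.card B * β * μ := by positivity
  refine norm_ip_tsum_le (F X) _
    (fun γ => (30 : ℝ) ^ (m + 1) * 3 ^ M * Fintype.card B * β * μ * ker a (tr (lat l γ) Ξ)) _
    hsum (fun γ => ?_) (fun s => ?_)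
  · have hX' : tr (lat l γ) X ∈ Om d (1 / 2) := (tr_mem_Om _).2 hX
    have hΞ' : tr (lat l γ) Ξ ∈ Om d (1 / 2) := (tr_mem_Om _).2 hΞ
    have hR := hjet γ _ hX'
    rw [tr_neg_tr] at hR
    set R := F X - v γ none - ∑ a, mon cx (wd a) (tr (lat l γ) X) • v γ (some a) with hRdef
    have h0 : ∀ o, ip (v γ o) (pk (M + (m + 1 + a)) l L n γ Ξ) = 0 := fun o => by
      rw [cross_ip_pk, ip_smul_right, cross_ip_sum_right]
      simp only [ip_smul_right, horth, mul_zero, Finset.sum_const_zero]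
    have e : ip (F X) (pk (M + (m + 1 + a)) l L n γ Ξ) =
        ip R (pk (M + (m + 1 + a)) l L n γ Ξ) := by
      rw [hRdef, ip_sub_left, ip_sub_left, cross_ip_sum_left]
      simp only [ip_smul_left, h0, mul_zero, Finset.sum_const_zero, sub_zero]
    rw [e, cross_ip_pk]
    have hq : 0 < ‖qq (tr (lat l γ) Ξ)‖ := by linarith [half_le_norm_qq hΞ']
    have hXn : ‖tr (lat l γ) X‖ ≤ 30 * ‖qq (tr (lat l γ) Ξ)‖ := by
      linarith [norm_le_three_qq hX', hcmp (lat l γ)]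
    have hR2 : ‖R‖ ≤ β * (30 * ‖qq (tr (lat l γ) Ξ)‖) ^ (m + 1) :=
      hR.trans (by gcongr)
    have hR3 : ‖fun b => R (col L γ, b)‖ ≤ β * (30 * ‖qq (tr (lat l γ) Ξ)‖) ^ (m + 1) :=
      (pi_norm_le_iff_of_nonneg (by positivity)).2 fun b =>
        (norm_le_pi_norm R (col L γ, b)).trans hR2
    have hc : (Fintype.card B : ℝ) ≤ (Fintype.card B : ℝ) ^ 2 := by
      exact_mod_cast Nat.le_self_pow two_ne_zero _
    have hu : nsq (fun b => R (col L γ, b)) ≤
        (Fintype.card B * (β * (30 * ‖qq (tr (lat l γ) Ξ)‖) ^ (m + 1))) ^ 2 := by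
      refine (nsq_le_card _).trans ?_
      rw [mul_pow (Fintype.card B : ℝ)]
      gcongr
    have hv := nsq_pk_le (m + 1 + a) l L hn γ hΞ
    rw [← cross_nsq_block] at hv
    have hk := ker_nonneg (m + 1 + a) (tr (lat l γ) Ξ)
    refine (norm_ip_le_mul (by positivity) (by positivity) hu hv).trans (le_of_eq ?_)
    unfold ker
    rw [mul_pow, pow_add _ (m + 1) a]
    field_simp
  · rw [← Finset.mul_sum]
    refine (mul_le_mul_of_nonneg_left (hup l hl Ξ hΞ s) hK).trans (le_of_eq ?_)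
    ring

end Pool.Agent.Lib.MP_601e9e_an
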