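import Pool.Agent.Lib.MP_601e9e_an.Basic

/-!
The transcendental component and the polynomial part.
-/

set_option autoImplicit false

open Complex Metric Set ComplexConjugate

namespace Pool.Agent.Lib.MP_601e9e_an

variable {d : ℕ}

open Filter Topology in
theorem trans_line {f : ℂ → ℂ} (hf : Differentiable ℂ f) (h : ∀ᶠ t : ℝ in 𝓝 0, f t = 0) (u : ℂ) :
    f u = 0 := by
  have ha : AnalyticOnNhd ℂ f univ := analyticOnNhd_univ_iff_differentiable.2 hf
  have ht : Tendsto (fun t : ℝ => (t : ℂ)) (𝓝[≠] 0) (𝓝[≠] 0) := by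
    refine tendsto_nhdsWithin_iff.2 ⟨?_, ?_⟩
    · have := (continuous_ofReal.tendsto 0).mono_left (nhdsWithin_le_nhds (s := {0}ᶜ))
      simpa using this
    · filter_upwards [self_mem_nhdsWithin] with t ht
      simpa using ht
  exact ha.eqOn_zero_of_preconnected_of_frequently_eq_zero isPreconnected_univ (mem_univ 0)
    (ht.frequently (h.filter_mono nhdsWithin_le_nhds).frequently) (mem_univ u)

theorem trans_apply (i : Fin (d + 1)) : ContDiff ℂ ⊤ fun Z : Eb d => Z i :=
  contDiff_piLp_apply 2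

theorem trans_hh (D : ℕ) : ContDiff ℂ ⊤ (hh D : Eb d → ℂ) :=
  ((contDiff_const.add (trans_apply 0)).div_const 2).pow D

theorem trans_diff {σ E : Type} [NormedAddCommGroup E] [NormedSpace ℂ E] (g : σ → E → ℂ)
    (hg : ∀ o, Differentiable ℂ (g o)) (P : MvPolynomial σ ℂ) :
    Differentiable ℂ fun Z => MvPolynomial.eval (fun o => g o Z) P := by
  induction P using MvPolynomial.induction_on with
  | C a => simp
  | add p q hp hq =>
    simp only [map_add]
    exact hp.add hq
  | mul_X p o hp =>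
    simp only [map_mul, MvPolynomial.eval_X]
    exact hp.mul (hg o)

theorem trans_eval {σ : Type} (g : σ → Polynomial ℂ) (P : MvPolynomial σ ℂ) (W : ℂ) :
    (MvPolynomial.aeval g P).eval W = MvPolynomial.eval (fun o => (g o).eval W) P := by
  induction P using MvPolynomial.induction_on with
  | C a => simp
  | add p q hp hq => simp [hp, hq]
  | mul_X p o hp => simp [hp]

open Filter Topology in
theorem trans_entire {Φ : Eb d → ℂ} (hΦ : Differentiable ℂ Φ) {U : Set (Eb d)} (hU : IsOpen U)
    (hne : (U ∩ sphere 0 1).Nonempty) (h : ∀ Z ∈ U ∩ sphere (0 : Eb d) 1, Φ Z = 0) (Z : Eb d) :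
    Φ Z = 0 := by
  obtain ⟨Z₀, hZU, hZS⟩ := hne
  rw [mem_sphere_zero_iff_norm] at hZS
  have h1 : ∀ Y ∈ U ∩ sphere (0 : Eb d) 1, ∀ u : ℂ, u ≠ 0 → Φ (u • Y) = 0 := by
    intro Y hY u hu
    have hd : Differentiable ℂ fun θ : ℂ => Φ (cexp (θ * I) • Y) := hΦ.comp (by fun_prop)
    have hc : Continuous fun t : ℝ => cexp ((t : ℂ) * I) • Y := by fun_prop
    have he : ∀ᶠ t : ℝ in 𝓝 0, cexp ((t : ℂ) * I) • Y ∈ U :=
      hc.continuousAt.eventually_mem (hU.mem_nhds (by simpa using hY.1))
    have := trans_line hd (by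
      filter_upwards [he] with t ht
      refine h _ ⟨ht, ?_⟩
      rw [mem_sphere_zero_iff_norm, norm_smul, norm_exp_ofReal_mul_I, one_mul]
      exact mem_sphere_zero_iff_norm.1 hY.2) (-I * log u)
    rwa [show -I * log u * I = log u by linear_combination (-log u) * I_mul_I, exp_log hu] at this
  have h2 : ∀ᶠ Y in 𝓝 Z₀, Φ Y = 0 := by
    have hc : ContinuousAt (fun Y : Eb d => ((‖Y‖⁻¹ : ℝ) : ℂ) • Y) Z₀ :=
      (continuous_ofReal.continuousAt.comp
        (continuous_norm.continuousAt.inv₀ (by rw [hZS]; exact one_ne_zero))).smul continuousAt_id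
    have he := hc.eventually_mem (hU.mem_nhds (by simpa [hZS] using hZU))
    have hn : ∀ᶠ Y : Eb d in 𝓝 Z₀, ‖Y‖ ≠ 0 :=
      continuous_norm.continuousAt.eventually_ne (by rw [hZS]; exact one_ne_zero)
    filter_upwards [he, hn] with Y hY hY0
    have := h1 _ ⟨hY, by
      rw [mem_sphere_zero_iff_norm, norm_smul, norm_real, norm_inv, norm_norm,
        inv_mul_cancel₀ hY0]⟩ ((‖Y‖ : ℝ) : ℂ) (ofReal_ne_zero.2 hY0)
    rwa [smul_smul, ← ofReal_mul, mul_inv_cancel₀ hY0, ofReal_one, one_smul] at this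
  have hd : Differentiable ℂ fun u : ℂ => Φ (Z₀ + u • (Z - Z₀)) := hΦ.comp (by fun_prop)
  have hc : Continuous fun t : ℝ => Z₀ + (t : ℂ) • (Z - Z₀) := by fun_prop
  have ht : Tendsto (fun t : ℝ => Z₀ + (t : ℂ) • (Z - Z₀)) (𝓝 0) (𝓝 Z₀) := by
    simpa using hc.tendsto 0
  simpa using trans_line hd (ht.eventually h2) 1

theorem transcendental (d D : ℕ) {U : Set (Eb d)} (hU : IsOpen U)
    (hne : (U ∩ sphere 0 1).Nonempty) (P : MvPolynomial (Option (Fin (d + 1))) ℂ)
    (h : ∀ Z ∈ U ∩ sphere (0 : Eb d) 1,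
      MvPolynomial.eval (fun o => o.elim (hh D Z * (cexp (Z 0) / 1000)) fun i => Z i) P = 0) :
    P = 0 := by
  have hΦ := trans_entire (trans_diff
    (fun (o : Option (Fin (d + 1))) (Z : Eb d) =>
      o.elim (hh D Z * (cexp (Z 0) / 1000)) fun i => Z i) (by
      rintro (_ | i)
      · exact ((trans_hh D).mul ((trans_apply 0).cexp.div_const 1000)).differentiable (by simp)
      · exact (trans_apply i).differentiable (by simp)) P) hU hne h
  refine MvPolynomial.funext_set (fun _ => ({0, -1} : Set ℂ)ᶜ)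
    (fun _ => (Set.toFinite _).infinite_compl) fun x hx => ?_
  have hx0 : x none ≠ 0 := fun e => hx none (mem_univ _) (Or.inl e)
  have hx1 : x (some 0) ≠ -1 := fun e => hx (some 0) (mem_univ _) (Or.inr e)
  have hp : ((1 + x (some 0)) / 2) ^ D ≠ 0 :=
    pow_ne_zero _ (div_ne_zero (fun e => hx1 (by linear_combination e)) two_ne_zero)
  set c := x none / ((1 + x (some 0)) / 2) ^ D with hc
  have hc0 : 1000 * c ≠ 0 := mul_ne_zero (by norm_num) (div_ne_zero hx0 hp)
  let g : Option (Fin (d + 1)) → Polynomial ℂ := fun o =>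
    o.elim ((Polynomial.C (1 / 2) * (1 + Polynomial.X)) ^ D * Polynomial.C c) fun i =>
      if i = 0 then Polynomial.X else Polynomial.C (x (some i))
  have hR : MvPolynomial.aeval g P = 0 := by
    refine Polynomial.eq_zero_of_infinite_isRoot _ (Set.infinite_of_injective_forall_mem
      (f := fun m : ℕ => log (1000 * c) + m * (2 * Real.pi * I)) (fun m m' e => ?_) fun m => ?_)
    · exact_mod_cast mul_right_cancel₀ two_pi_I_ne_zero (add_left_cancel e)
    · have := hΦ (WithLp.toLp 2 fun i =>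
        if i = 0 then log (1000 * c) + m * (2 * Real.pi * I) else x (some i))
      rw [mem_ofPred_eq, Polynomial.IsRoot.def, trans_eval, ← this]
      congr 2
      funext o
      rcases o with _ | i
      · simp only [g, Option.elim, hh, if_true, exp_add, exp_log hc0, exp_nat_mul_two_pi_mul_I]
        simp only [Polynomial.eval_mul, Polynomial.eval_pow, Polynomial.eval_C, Polynomial.eval_add,
          Polynomial.eval_one, Polynomial.eval_X]
        ring
      · simp only [g, Option.elim]
        split_ifs <;> simp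
  have := trans_eval g P (x (some 0))
  rw [hR, Polynomial.eval_zero] at this
  rw [map_zero, this]
  congr 2
  funext o
  rcases o with _ | i
  · simp only [g, Option.elim, Polynomial.eval_mul, Polynomial.eval_pow, Polynomial.eval_C,
      Polynomial.eval_add, Polynomial.eval_one, Polynomial.eval_X]
    rw [hc, show 1 / 2 * (1 + x (some 0)) = (1 + x (some 0)) / 2 by ring, mul_div_cancel₀ _ hp]
  · simp only [g, Option.elim]
    split_ifs with hi
    · simp [hi]
    · simp

/-- the letters of the polynomial part -/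
noncomputable def trans_let : Option (Option (Fin d ⊕ Fin d)) → Eb d → ℂ
  | none, Z => (1 + Z 0) / 2
  | some none, Z => (1 - Z 0) / 2
  | some (some (Sum.inl i)), Z => Z i.succ / 2
  | some (some (Sum.inr i)), Z => Z i.succ / 2

theorem trans_let_diff (a : Option (Option (Fin d ⊕ Fin d))) : ContDiff ℂ ⊤ (trans_let a) := by
  rcases a with _ | _ | i | i
  · exact (contDiff_const.add (trans_apply 0)).div_const 2
  · exact (contDiff_const.sub (trans_apply 0)).div_const 2
  · exact (trans_apply i.succ).div_const 2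
  · exact (trans_apply i.succ).div_const 2

theorem trans_let_sum {Z : Eb d} (hZ : Z ∈ sphere (0 : Eb d) 1) :
    ∑ a, ‖trans_let a Z‖ ^ 2 = 1 := by
  have h1 := EuclideanSpace.norm_sq_eq Z
  rw [mem_sphere_zero_iff_norm.1 hZ, Fin.sum_univ_succ] at h1
  have h2 := parallelogram_law_with_norm ℝ (1 : ℂ) (Z 0)
  rw [norm_one] at h2
  simp only [Fintype.sum_option, Fintype.sum_sum_type, trans_let, norm_div, div_pow,
    Complex.norm_ofNat, ← Finset.sum_div]
  linarith

theorem poly_part (d D : ℕ) : ∃ (κ : Type) (_ : Fintype κ) (F : Eb d → κ → ℂ),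
    Differentiable ℂ F ∧ (∀ k : ℕ, ContDiff ℝ k F) ∧
      ∀ Z ∈ sphere (0 : Eb d) 1, nsq (F Z) + ‖hh D Z‖ ^ 2 = 1 := by
  classical
  let F : Eb d → (Fin D → Option (Option (Fin d ⊕ Fin d))) → ℂ := fun Z ω =>
    if ω = fun _ => none then 0 else ∏ j, trans_let (ω j) Z
  have hF : ContDiff ℂ ⊤ F := by
    refine contDiff_pi.2 fun ω => ?_
    simp only [F]
    split_ifs
    · exact contDiff_const
    · exact contDiff_prod fun j _ => trans_let_diff (ω j)
  refine ⟨_, inferInstance, F, hF.differentiable (by simp),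
    fun k => (hF.of_le le_top).restrict_scalars ℝ, fun Z hZ => ?_⟩
  have h1 := Fintype.sum_pow (fun a => ‖trans_let a Z‖ ^ 2) D
  rw [trans_let_sum hZ, one_pow,
    ← Finset.add_sum_erase _ _ (Finset.mem_univ fun _ : Fin D => none)] at h1
  rw [nsq, ← Finset.add_sum_erase _ _ (Finset.mem_univ fun _ : Fin D => none), h1]
  have e1 : ‖F Z fun _ => none‖ ^ 2 = 0 := by simp [F]
  have e2 : ‖hh D Z‖ ^ 2 = ∏ _i : Fin D, ‖trans_let none Z‖ ^ 2 := by
    rw [Finset.prod_const, Finset.card_univ, Fintype.card_fin, hh, norm_pow, ← pow_mul, ← pow_mul,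
      mul_comm]
    rfl
  rw [e1, e2, zero_add, add_comm]
  congr 1
  refine Finset.sum_congr rfl fun ω hω => ?_
  simp only [F, if_neg (Finset.ne_of_mem_erase hω), norm_prod, Finset.prod_pow]

end Pool.Agent.Lib.MP_601e9e_an
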