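import Pool.Agent.Lib.MP_601e9e_an.Basic

/-!
Comparison of the denominators, and the basic sum of squares identity.
-/

set_option autoImplicit false

open Complex Metric Set ComplexConjugate

namespace Pool.Agent.Lib.MP_601e9e_an

variable {d : ℕ}

theorem dn_norm_ip_le_card (u v : Vs d) : ‖ip u v‖ ≤ d * (‖u‖ * ‖v‖) := by
  unfold ip
  refine (norm_sum_le _ _).trans ?_
  calc ∑ j, ‖u j * conj (v j)‖ ≤ ∑ _j : Fin d, ‖u‖ * ‖v‖ := by
        refine Finset.sum_le_sum fun j _ => ?_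
        rw [norm_mul, RCLike.norm_conj]
        exact mul_le_mul (norm_le_pi_norm u j) (norm_le_pi_norm v j) (norm_nonneg _)
          (norm_nonneg _)
    _ = _ := by simp

theorem qq_perturb {X : Xs d} (hX : X ∈ Om d (1 / 2)) (X' : Xs d) (y : Hs d) :
    ‖qq (tr y X') - qq (tr y X)‖ ≤ ‖X' - X‖ * (2 + 2 * d * (1 + 2 * ‖X‖)) * ‖qq (tr y X)‖ := by
  have hm : tr y X ∈ Om d (1 / 2) := (tr_mem_Om y).2 hX
  have hq := half_le_norm_qq hm
  set q := ‖qq (tr y X)‖ with hqdef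
  have e : qq (tr y X') - qq (tr y X) =
      -I * ((X' - X).2 + 2 * I * ip (X' - X).1 y.1) := by
    simp only [qq, tr, Prod.snd_sub, Prod.fst_sub, ip_sub_left]
    ring
  have hy : ‖y.1‖ ≤ q + ‖X‖ := by
    refine (pi_norm_le_iff_of_nonneg (by positivity)).2 fun i => ?_
    have h1 := norm_fst_le_norm_qq hm i
    have h2 : y.1 i = (tr y X).1 i - X.1 i := by simp [tr]
    have h3 : ‖X.1 i‖ ≤ ‖X‖ := (norm_le_pi_norm X.1 i).trans (norm_fst_le X)
    rw [h2]
    exact (norm_sub_le _ _).trans (by linarith)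
  have hy2 : ‖y.1‖ ≤ (1 + 2 * ‖X‖) * q := by nlinarith [norm_nonneg X]
  have h1 : ‖(X' - X).2‖ ≤ ‖X' - X‖ := norm_snd_le _
  have h2 : ‖(X' - X).1‖ ≤ ‖X' - X‖ := norm_fst_le _
  have h3 := dn_norm_ip_le_card (X' - X).1 y.1
  have h4 : ‖(X' - X).1‖ * ‖y.1‖ ≤ ‖X' - X‖ * ((1 + 2 * ‖X‖) * q) :=
    mul_le_mul h2 hy2 (norm_nonneg _) (norm_nonneg _)
  have h5 : (d : ℝ) * (‖(X' - X).1‖ * ‖y.1‖) ≤ d * (‖X' - X‖ * ((1 + 2 * ‖X‖) * q)) :=
    mul_le_mul_of_nonneg_left h4 (Nat.cast_nonneg d)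
  rw [e, norm_mul, norm_neg, norm_I, one_mul]
  refine (norm_add_le _ _).trans ?_
  rw [norm_mul, norm_mul, norm_I, Complex.norm_two]
  have h6 : ‖X' - X‖ ≤ ‖X' - X‖ * (2 * q) := by nlinarith [norm_nonneg (X' - X)]
  nlinarith

theorem dn_compare {X Y : Xs d} (hX : X ∈ Om d (1 / 2)) (hY : Y ∈ Om d (1 / 2))
    (hs : rho X + rho Y = -nsq (X.1 - Y.1))
    (hr : X.2.re - Y.2.re = -2 * (ip (X.1 - Y.1) Y.1).im) : ‖qq X‖ ≤ 10 * ‖qq Y‖ := by
  have h1 := half_le_norm_qq hY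
  have h2 := half_add_le_norm_qq hY
  have h3 := abs_re_le_norm_qq Y
  have hX' : -(1 / 2 : ℝ) < rho X := hX
  have hY' : -(1 / 2 : ℝ) < rho Y := hY
  have h0 := nsq_nonneg (X.1 - Y.1)
  have h0' := nsq_nonneg Y.1
  have h0'' := nsq_nonneg X.1
  have hi := norm_ip_le_one (X.1 - Y.1) Y.1
  have hre := (abs_le.1 ((abs_re_le_norm (ip (X.1 - Y.1) Y.1)).trans hi)).2
  have him := abs_le.1 ((abs_im_le_norm (ip (X.1 - Y.1) Y.1)).trans hi)
  have hn := nsq_add (X.1 - Y.1) Y.1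
  rw [sub_add_cancel] at hn
  have h4 := norm_le_abs_re_add_abs_im (qq X)
  rw [qq_re, qq_im, abs_neg, abs_of_pos (by linarith)] at h4
  have h5 : |X.2.re| ≤ ‖qq Y‖ + (nsq (X.1 - Y.1) + nsq Y.1) := by
    rw [abs_le] at h3 ⊢
    constructor <;> linarith [h3.1, h3.2, him.1, him.2]
  linarith

theorem qq_compare {p : Ps d} (hp : p ∈ Dm d (1 / 2)) :
    ‖qq (pi1 p)‖ ≤ 10 * ‖qq (pi2 p)‖ ∧ ‖qq (pi2 p)‖ ≤ 10 * ‖qq (pi1 p)‖ := by
  have hb : ip p.1 (star p.2.1) = bil p.1 p.2.1 := by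
    rw [← bil_star, star_star]
  have hb' : ip (star p.2.1) p.1 = conj (bil p.1 p.2.1) := by
    rw [ip_star_left, bil_comm]
  have e1 : (pi1 p).1 = p.1 := rfl
  have e2 : (pi2 p).1 = star p.2.1 := rfl
  have r1 : (pi1 p).2.re = p.2.2.re - (bil p.1 p.2.1).im := by
    simp [pi1]
    ring
  have r2 : (pi2 p).2.re = p.2.2.re + (bil p.1 p.2.1).im := by
    simp [pi2, pi2']
  have n1 : nsq (p.1 - star p.2.1) = nsq p.1 + nsq p.2.1 - 2 * (bil p.1 p.2.1).re := by
    rw [sub_eq_add_neg, nsq_add, nsq_neg, nsq_star, ip_neg_right, hb]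
    simp
    ring
  have n2 : nsq (star p.2.1 - p.1) = nsq p.1 + nsq p.2.1 - 2 * (bil p.1 p.2.1).re := by
    rw [← nsq_neg, neg_sub, n1]
  refine ⟨dn_compare hp.1 hp.2 ?_ ?_, dn_compare hp.2 hp.1 ?_ ?_⟩
  · rw [rho_pi1, rho_pi2, e1, e2, n1]
    ring
  · rw [r1, r2, e1, e2, ip_sub_left, hb, ip_self]
    simp
    ring
  · rw [rho_pi1, rho_pi2, e1, e2, n2]
    ring
  · rw [r1, r2, e1, e2, ip_sub_left, hb', ip_self]
    simp
    ring

theorem dn_sum_bas (X : Xs d) : ∑ b : Bs d, ‖bas b X‖ ^ 2 = ‖qq X‖ ^ 2 - 2 * rho X := by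
  rw [Fintype.sum_sum_type, Fintype.sum_option, Fintype.sum_option]
  simp only [bas, cx, norm_one]
  have h1 : ‖qq X‖ ^ 2 = (1 + X.2.im) ^ 2 + X.2.re ^ 2 := by
    rw [Complex.sq_norm, Complex.normSq_apply, qq_re, qq_im, rho]
    ring
  have h2 : ‖X.2‖ ^ 2 = X.2.re ^ 2 + X.2.im ^ 2 := by
    rw [Complex.sq_norm, Complex.normSq_apply]
    ring
  rw [h1, h2, rho, nsq]
  ring

theorem nsq_num (M : ℕ) (X : Xs d) :
    nsq (fun ω : Fin M → Bs d => num ω X) = (‖qq X‖ ^ 2 - 2 * rho X) ^ M := by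
  classical
  rw [← dn_sum_bas]
  have h := Finset.prod_univ_sum (fun _ : Fin M => (Finset.univ : Finset (Bs d)))
    (fun _ b => ‖bas b X‖ ^ 2)
  rw [Finset.prod_const, Finset.card_univ, Fintype.card_fin, Fintype.piFinset_univ] at h
  rw [h]
  unfold nsq num
  refine Finset.sum_congr rfl fun ω _ => ?_
  rw [norm_prod, Finset.prod_pow]

theorem nsq_num_le (M : ℕ) {X : Xs d} (hX : X ∈ Om d (1 / 2)) :
    nsq (fun ω : Fin M → Bs d => num ω X) ≤ (3 ^ M * ‖qq X‖ ^ M) ^ 2 := by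
  have h1 := half_le_norm_qq hX
  have hX' : -(1 / 2 : ℝ) < rho X := hX
  have h0 : 0 ≤ ‖qq X‖ ^ 2 - 2 * rho X := by
    rw [← dn_sum_bas]
    positivity
  rw [nsq_num, ← mul_pow, ← pow_mul, mul_comm M 2, pow_mul]
  exact pow_le_pow_left₀ h0 (by nlinarith) M

theorem num_const (M : ℕ) (X : Xs d) : num (fun _ : Fin M => (Sum.inl none : Bs d)) X = 1 := by
  simp [num, bas]

theorem dn_num_cons {M : ℕ} (b : Bs d) (ω : Fin M → Bs d) (X : Xs d) :
    num (Fin.cons b ω : Fin (M + 1) → Bs d) X = bas b X * num ω X := by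
  simp [num, Fin.prod_univ_succ]

theorem dn_cx_star (a : Lt d) (X : Xs d) : cx a (star X) = conj (cx a X) := by
  cases a <;> simp [cx]

theorem exists_words {M : ℕ} (l : List (Lt d ⊕ Lt d)) (hl : l.length ≤ M) :
    ∃ ω₁ ω₂ : Fin M → Bs d, ∀ X : Xs d, mon c2 l (X, star X) = num ω₁ X * conj (num ω₂ X) := by
  induction M generalizing l with
  | zero =>
    obtain rfl : l = [] := List.length_eq_zero_iff.1 (Nat.le_zero.1 hl)
    exact ⟨fun _ => Sum.inl none, fun _ => Sum.inl none, fun X => by simp [mon, num]⟩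
  | succ M ih =>
    cases l with
    | nil =>
      exact ⟨fun _ => Sum.inl none, fun _ => Sum.inl none, fun X => by simp [mon, num_const]⟩
    | cons a l =>
      obtain ⟨ω₁, ω₂, h⟩ := ih l (by simpa using hl)
      have hm : ∀ X : Xs d, mon c2 (a :: l) (X, star X) =
          c2 a (X, star X) * mon c2 l (X, star X) := fun X => by simp [mon]
      cases a with
      | inl a =>
        refine ⟨Fin.cons (Sum.inl (some a)) ω₁, Fin.cons (Sum.inl none) ω₂, fun X => ?_⟩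
        rw [hm, h, dn_num_cons, dn_num_cons]
        simp [c2, bas, mul_assoc]
      | inr a =>
        refine ⟨Fin.cons (Sum.inl none) ω₁, Fin.cons (Sum.inl (some a)) ω₂, fun X => ?_⟩
        rw [hm, h, dn_num_cons, dn_num_cons]
        simp only [c2, bas, dn_cx_star, map_mul, one_mul]
        ring

theorem differentiable_num {M : ℕ} (ω : Fin M → Bs d) : Differentiable ℂ (num ω) := by
  have hb : ∀ b : Bs d, Differentiable ℂ (bas b : Xs d → ℂ) := by
    rintro ((_ | (_ | i)) | i)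
    · exact differentiable_const _
    · exact differentiable_snd
    · change Differentiable ℂ fun X : Xs d => X.1 i
      fun_prop
    · change Differentiable ℂ fun X : Xs d => X.1 i
      fun_prop
  have key : ∀ s : Finset (Fin M), Differentiable ℂ fun X : Xs d => ∏ j ∈ s, bas (ω j) X := by
    intro s
    induction s using Finset.induction_on with
    | empty => simp
    | insert a s ha ih =>
      simp only [Finset.prod_insert ha]
      exact (hb (ω a)).mul ih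
  exact key Finset.univ

end Pool.Agent.Lib.MP_601e9e_an
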