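import Pool.Agent.Lib.MP_601e9e_an.Step

/-!
Choice of the parameters: a step that reproduces its hypotheses.
-/

set_option autoImplicit false

open Complex Metric Set ComplexConjugate

namespace Pool.Agent.Lib.MP_601e9e_an

variable {d : ℕ}

theorem fs_upd_diff {κ : Type} [Fintype κ] {ε : Ps d → ℂ} {F g : Xs d → κ → ℂ} {lam : ℝ}
    (hε : DifferentiableOn ℂ ε (Dm d lam)) (hF : DifferentiableOn ℂ F (Om d lam))
    (hg : DifferentiableOn ℂ g (Om d lam)) : DifferentiableOn ℂ (upd ε F g) (Dm d lam) :=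
  ((hε.sub (differentiableOn_ip hg hF)).sub (differentiableOn_ip hF hg)).sub
    (differentiableOn_ip hg hg)

theorem fs_upd_real {κ : Type} [Fintype κ] {ε : Ps d → ℂ} (F g : Xs d → κ → ℂ) (y : Hs d)
    (hε : (ε (rp y)).im = 0) : (upd ε F g (rp y)).im = 0 := by
  unfold upd
  rw [pi1_rp, pi2_rp, ip_self, ← conj_ip (g (pt y)) (F (pt y))]
  simp [hε]

/-- the new error function is close to `τ ^ 2` -/
theorem fs_close {κ : Type} [Fintype κ] {ε : Ps d → ℂ} {F g : Xs d → κ → ℂ} {t u v C a b : ℝ}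
    (hε : Err ε (1 / 2)) (hF : DifferentiableOn ℂ F (Om d (1 / 2)))
    (hg : DifferentiableOn ℂ g (Om d (1 / 2))) (ht0 : 0 ≤ t) (ht : t ≤ 1 / 8)
    (h1 : ∀ X ∈ Om d (1 / 2), nsq (g X) ≤ C)
    (h2 : ∀ p ∈ Dm d (1 / 2), ‖ip (F (pi1 p)) (g (pi2 p))‖ ≤ u ∧
      ‖ip (g (pi1 p)) (F (pi2 p))‖ ≤ u)
    (h3 : ∀ y : Hs d, |(ε (rp y)).re - nsq (g (pt y)) - t| ≤ v)
    (ha : 0 ≤ a) (hb : 0 ≤ b) (ha2 : v + 2 * u ≤ a ^ 2) (hb2 : 2 + 2 * u + C ≤ b ^ 2) :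
    ∀ p ∈ Dm d (1 / 8), ‖upd ε F g p - (t : ℂ)‖ ≤ a * b := by
  refine three_lines (f := fun p => upd ε F g p - (t : ℂ)) ha hb
    ((fs_upd_diff hε.diff hF hg).sub (differentiableOn_const _)) (fun y => ?_) (fun p hp => ?_)
  · obtain ⟨k1, k2⟩ := h2 (rp y) (rp_mem_Dm (by norm_num) y)
    have k3 := h3 y
    have e : ε (rp y) = ((ε (rp y)).re : ℂ) := by
      apply Complex.ext <;> simp [hε.real y]
    have e2 : upd ε F g (rp y) - (t : ℂ) =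
        (((ε (rp y)).re - nsq (g (pt y)) - t : ℝ) : ℂ) - ip (g (pi1 (rp y))) (F (pi2 (rp y))) -
          ip (F (pi1 (rp y))) (g (pi2 (rp y))) := by
      unfold upd
      rw [pi1_rp, pi2_rp, ip_self]
      push_cast
      rw [← e]
      ring
    rw [e2]
    refine (norm_sub_le _ _).trans ?_
    have k4 := norm_sub_le ((((ε (rp y)).re - nsq (g (pt y)) - t : ℝ) : ℂ))
      (ip (g (pi1 (rp y))) (F (pi2 (rp y))))
    rw [norm_real, Real.norm_eq_abs] at k4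
    linarith
  · obtain ⟨k1, k2⟩ := h2 p hp
    have k3 := hε.bd p hp
    have k4 := norm_ip_le_one (g (pi1 p)) (g (pi2 p))
    have k5 := h1 _ hp.1
    have k6 := h1 _ hp.2
    have e2 : upd ε F g p - (t : ℂ) = (ε p - 1) + ((1 - t : ℝ) : ℂ) -
        ip (g (pi1 p)) (F (pi2 p)) - ip (F (pi1 p)) (g (pi2 p)) - ip (g (pi1 p)) (g (pi2 p)) := by
      unfold upd
      push_cast
      ring
    rw [e2]
    have k7 := norm_add_le (ε p - 1) ((1 - t : ℝ) : ℂ)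
    rw [norm_real, Real.norm_eq_abs, abs_of_nonneg (by linarith : 0 ≤ 1 - t)] at k7
    have k8 := norm_sub_le ((ε p - 1) + ((1 - t : ℝ) : ℂ)) (ip (g (pi1 p)) (F (pi2 p)))
    have k9 := norm_sub_le ((ε p - 1) + ((1 - t : ℝ) : ℂ) - ip (g (pi1 p)) (F (pi2 p)))
      (ip (F (pi1 p)) (g (pi2 p)))
    have k10 := norm_sub_le ((ε p - 1) + ((1 - t : ℝ) : ℂ) - ip (g (pi1 p)) (F (pi2 p)) -
      ip (F (pi1 p)) (g (pi2 p))) (ip (g (pi1 p)) (g (pi2 p)))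
    linarith

theorem fs_ratio (n : ℕ) {x : ℝ} (hx : 0 < x) : x ^ n / (x ^ (n + 1) + 1) ≤ 1 / x := by
  rw [div_le_div_iff₀ (by positivity) hx, ← pow_succ]
  linarith

theorem full_step (d s : ℕ) (hs : 1 ≤ s) : ∃ (κ : Type) (_ : Fintype κ) (m : ℕ) (T β B : ℝ),
    2 ≤ T ∧ 0 ≤ β ∧ 0 ≤ B ∧ ∀ (F : Xs d → κ → ℂ) (ε : Ps d → ℂ),
      DifferentiableOn ℂ F (Om d (1 / 8)) → Err ε (1 / 8) → Jet m F β (1 / 8) →
      ∃ g : Xs d → κ → ℂ, DifferentiableOn ℂ g (Om d (1 / 2)) ∧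
        (∀ X ∈ Om d (1 / 2), ‖g X‖ ≤ B) ∧
        DifferentiableOn ℂ (fun X => ((T ^ (2 * s) : ℝ) : ℂ) • (F (dil T⁻¹ X) + g X))
          (Om d (1 / 8)) ∧
        Err (fun p => ((T ^ (4 * s) : ℝ) : ℂ) *
          upd (fun p => ε (dilP T⁻¹ p)) (fun X => F (dil T⁻¹ X)) g p) (1 / 8) ∧
        Jet m (fun X => ((T ^ (2 * s) : ℝ) : ℂ) • (F (dil T⁻¹ X) + g X)) β (1 / 8) := by
  obtain ⟨a0, ha0⟩ : ∃ a0 : ℕ, a0 = 8 * s + 1 := ⟨_, rfl⟩
  obtain ⟨m, hm⟩ : ∃ m : ℕ, m = a0 * (d + 2) + 2 * s := ⟨_, rfl⟩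
  obtain ⟨C, hC, hstep⟩ := step d a0 m
  obtain ⟨CJ, hCJ, hjet⟩ := jet_of_bound d m
  obtain ⟨U, hU⟩ : ∃ U : ℝ, U = C * (2 * (CJ * (2 * C))) := ⟨_, rfl⟩
  obtain ⟨R, hR⟩ : ∃ R : ℝ, R = 4 * (d : ℝ) + 4 := ⟨_, rfl⟩
  obtain ⟨C1, hC1⟩ : ∃ C1 : ℝ, C1 = C * (R ^ (a0 + 1) + 2) + 2 * U := ⟨_, rfl⟩
  obtain ⟨C2, hC2⟩ : ∃ C2 : ℝ, C2 = 2 + 2 * U + 2 * C := ⟨_, rfl⟩
  have hd0 : (0 : ℝ) ≤ d := Nat.cast_nonneg d
  have hR1 : 1 ≤ R := by rw [hR]; linarith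
  have hU0 : 0 ≤ U := by rw [hU]; positivity
  have hC10 : 0 ≤ C1 := by rw [hC1]; positivity
  have hC21 : 1 ≤ C2 := by rw [hC2]; linarith
  obtain ⟨N, hN⟩ := exists_nat_ge (2 + C * R + 4 * C1 * C2 ^ 2)
  obtain ⟨T, hT⟩ : ∃ T : ℝ, T = N := ⟨_, rfl⟩
  rw [← hT] at hN
  have hCR : C ≤ C * R := le_mul_of_one_le_right (by linarith) hR1
  have hq : 0 ≤ 4 * C1 * C2 ^ 2 := by positivity
  have hT2 : 2 ≤ T := by linarith
  have hT1 : 1 ≤ T := by linarith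
  have hT0 : 0 < T := by linarith
  have hTi : 0 < T⁻¹ := inv_pos.2 hT0
  have hTi1 : T⁻¹ ≤ 1 := inv_le_one_of_one_le₀ hT1
  have hl : ((N ^ a0 : ℕ) : ℝ) = T ^ a0 := by rw [hT]; push_cast; rfl
  have hL : (((N ^ a0) ^ (2 * d + 5) : ℕ) : ℝ) = (T ^ a0) ^ (2 * d + 4 + 1) := by
    rw [hT]; push_cast; rfl
  have hTa : T ≤ T ^ a0 := le_self_pow₀ hT1 (by omega)
  have hTa0 : 0 < T ^ a0 := by positivity
  have hlam : 1 / 8 / T⁻¹ ^ 2 = T ^ 2 / 8 := by field_simp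
  have hlam2 : 1 / 2 ≤ 1 / 8 / T⁻¹ ^ 2 := by rw [hlam]; nlinarith
  have hβ : 0 ≤ 2 * (T ^ (2 * s) * (CJ * (2 * C))) := by positivity
  refine ⟨Col d ((N ^ a0) ^ (2 * d + 5)) × Bl d a0 m, inferInstance, m, T,
    2 * (T ^ (2 * s) * (CJ * (2 * C))), 2 * C, hT2, hβ, by linarith, fun F ε hF hε hJ => ?_⟩
  have hF' : DifferentiableOn ℂ (fun X => F (dil T⁻¹ X)) (Om d (1 / 2)) :=
    (hF.comp (differentiable_dil T⁻¹).differentiableOn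
      (fun X hX => dil_mem_Om hTi hX)).mono (Om_mono hlam2)
  have hε' : Err (fun p => ε (dilP T⁻¹ p)) (1 / 8 / T⁻¹ ^ 2) :=
    ⟨hε.diff.comp (differentiable_dilP T⁻¹).differentiableOn (fun p hp => dilP_mem_Dm hTi hp),
      fun p hp => hε.bd _ (dilP_mem_Dm hTi hp), fun y => by
        simp only [dilP_rp]; exact hε.real _⟩
  have hε2 : Err (fun p => ε (dilP T⁻¹ p)) (1 / 2) :=
    ⟨hε'.diff.mono (Dm_mono hlam2), fun p hp => hε'.bd p (Dm_mono hlam2 hp), hε'.real⟩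
  have hJ' := (hJ.dil hβ hTi hTi1).mono le_rfl hlam2
  have hτ : ((T ^ (2 * s))⁻¹) ^ 2 = (T ^ (4 * s))⁻¹ := by
    rw [inv_pow, ← pow_mul]; congr 2; ring
  have h16 : 16 ≤ T ^ (4 * s) := by
    calc (16 : ℝ) = 2 ^ 4 := by norm_num
      _ ≤ T ^ 4 := pow_le_pow_left₀ (by norm_num) hT2 4
      _ ≤ T ^ (4 * s) := pow_le_pow_right₀ hT1 (by omega)
  have hT4 : 0 < T ^ (4 * s) := by positivity
  have hτ8 : (T ^ (4 * s))⁻¹ ≤ 1 / 8 := by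
    rw [inv_le_comm₀ hT4 (by norm_num)]; linarith
  obtain ⟨g, hg, hg1, hg2, hg3⟩ := hstep (N ^ a0) ((N ^ a0) ^ (2 * d + 5)) (T / R)
    (1 / 8 / T⁻¹ ^ 2) (T ^ (2 * s))⁻¹ _ (fun X => F (dil T⁻¹ X)) (fun p => ε (dilP T⁻¹ p))
    (by rw [hl]; linarith) (by rw [le_div_iff₀ (by linarith)]; linarith)
    (by
      rw [hlam, div_pow, ← mul_div_assoc, div_le_div_iff₀ (by positivity) (by norm_num), hR]
      have : (2 * (d : ℝ) + 1) * 8 ≤ (4 * d + 4) ^ 2 := by nlinarith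
      nlinarith [mul_le_mul_of_nonneg_left this (sq_nonneg T)])
    (by positivity) (by rw [hτ]; exact hτ8) hε' hJ'
  rw [hl, hL] at hg1 hg3
  rw [hl] at hg2
  rw [hτ] at hg3
  have hrat := fs_ratio (2 * d + 4) hTa0
  have hia : 1 / T ^ a0 ≤ 1 := by rw [div_le_one hTa0]; linarith
  have hia0 : 0 ≤ 1 / T ^ a0 := by positivity
  have hn : ∀ X ∈ Om d (1 / 2), nsq (g X) ≤ 2 * C := fun X hX =>
    (hg1 X hX).trans (by nlinarith)
  have hB : ∀ X ∈ Om d (1 / 2), ‖g X‖ ≤ 2 * C := fun X hX =>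
    norm_le_of_nsq_le (by linarith) ((hn X hX).trans (by nlinarith))
  -- the cross terms
  have hu : C * (2 * (T ^ (2 * s) * (CJ * (2 * C))) * T⁻¹ ^ (m + 1)) * (T ^ a0) ^ (d + 1) ≤
      U * (1 / T ^ a0) := by
    have e : T ^ (m + 1) = T ^ (2 * s) * (T ^ a0) ^ (d + 1) * T ^ a0 * T := by
      rw [hm, ← pow_mul, ← pow_add, ← pow_add, ← pow_succ]; congr 1; ring
    have e2 : C * (2 * (T ^ (2 * s) * (CJ * (2 * C))) * T⁻¹ ^ (m + 1)) * (T ^ a0) ^ (d + 1) =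
        U * (1 / T ^ a0) * T⁻¹ := by
      rw [inv_pow, e, hU]; field_simp
    rw [e2]
    exact mul_le_of_le_one_right (by positivity) hTi1
  have hv : C * (1 / (T / R) ^ (a0 + 1) + 1 / T ^ a0 +
      (T ^ a0) ^ (2 * d + 4) / ((T ^ a0) ^ (2 * d + 4 + 1) + 1)) ≤
      C * (R ^ (a0 + 1) + 2) * (1 / T ^ a0) := by
    have e : 1 / (T / R) ^ (a0 + 1) = R ^ (a0 + 1) * (1 / T ^ a0) * T⁻¹ := by
      rw [div_pow, pow_succ T]; field_simp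
    have e2 : R ^ (a0 + 1) * (1 / T ^ a0) * T⁻¹ ≤ R ^ (a0 + 1) * (1 / T ^ a0) :=
      mul_le_of_le_one_right (by positivity) hTi1
    rw [e, mul_assoc C]
    refine mul_le_mul_of_nonneg_left ?_ (by linarith)
    linarith
  have hclose := fs_close (t := (T ^ (4 * s))⁻¹) (u := U * (1 / T ^ a0))
    (v := C * (R ^ (a0 + 1) + 2) * (1 / T ^ a0)) (C := 2 * C)
    (a := (T ^ (4 * s))⁻¹ / (2 * C2)) (b := C2) hε2 hF' hg (by positivity) hτ8 hn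
    (fun p hp => ⟨(hg2 p hp).1.trans hu, (hg2 p hp).2.trans hu⟩)
    (fun y => (hg3 y).trans hv) (by positivity) (by linarith)
    (by
      have e : T ^ a0 = (T ^ (4 * s)) ^ 2 * T := by
        rw [ha0, ← pow_mul, ← pow_succ]; congr 1; ring
      have e1 : C * (R ^ (a0 + 1) + 2) * (1 / T ^ a0) + 2 * (U * (1 / T ^ a0)) =
          C1 / T ^ a0 := by rw [hC1]; ring
      have e2 : ((T ^ (4 * s))⁻¹ / (2 * C2)) ^ 2 = 1 / ((T ^ (4 * s)) ^ 2 * (4 * C2 ^ 2)) := by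
        field_simp; norm_num
      rw [e1, e2, e, div_le_div_iff₀ (by positivity) (by positivity)]
      have : 4 * C1 * C2 ^ 2 ≤ T := by nlinarith
      nlinarith [mul_le_mul_of_nonneg_left this (sq_nonneg (T ^ (4 * s)))])
    (by
      have : U * (1 / T ^ a0) ≤ U := mul_le_of_le_one_right hU0 hia
      nlinarith)
  have h82 : (1 : ℝ) / 8 ≤ 1 / 2 := by norm_num
  refine ⟨g, hg, hB, ?_, ⟨?_, fun p hp => ?_, fun y => ?_⟩, ?_⟩
  · exact ((hF'.add hg).const_smul ((T ^ (2 * s) : ℝ) : ℂ)).mono (Om_mono h82)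
  · exact ((fs_upd_diff hε2.diff hF' hg).const_mul _).mono (Dm_mono h82)
  · have k := hclose p hp
    have e : ((T ^ (4 * s) : ℝ) : ℂ) *
        upd (fun p => ε (dilP T⁻¹ p)) (fun X => F (dil T⁻¹ X)) g p - 1 =
        ((T ^ (4 * s) : ℝ) : ℂ) * (upd (fun p => ε (dilP T⁻¹ p)) (fun X => F (dil T⁻¹ X)) g p -
          (((T ^ (4 * s))⁻¹ : ℝ) : ℂ)) := by
      rw [mul_sub, ← ofReal_mul, mul_inv_cancel₀ hT4.ne', ofReal_one]
    rw [e, norm_mul, norm_real, Real.norm_eq_abs, abs_of_pos hT4]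
    refine (mul_le_mul_of_nonneg_left k hT4.le).trans (le_of_eq ?_)
    field_simp
  · rw [im_ofReal_mul, fs_upd_real _ _ y (hε2.real y), mul_zero]
  · refine ((hJ'.add (hjet _ g _ hg hB)).smul (c := T ^ (2 * s)) (by positivity)).mono ?_ h82
    have e : T ^ (2 * s) * T⁻¹ ^ (m + 1) ≤ 1 / 2 := by
      rw [inv_pow, ← div_eq_mul_inv, div_le_div_iff₀ (by positivity) (by norm_num), pow_succ]
      have k1 : T ^ (2 * s) ≤ T ^ m := pow_le_pow_right₀ hT1 (by omega)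
      have k2 : 0 < T ^ m := by positivity
      nlinarith
    nlinarith [mul_le_mul_of_nonneg_left e hβ]

end Pool.Agent.Lib.MP_601e9e_an
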