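import Pool.Agent.Lib.MP_601e9e_an.Basic

/-!
Vectors with a prescribed Gram form, orthogonal to given vectors.
-/

set_option autoImplicit false

open Complex Metric Set ComplexConjugate

namespace Pool.Agent.Lib.MP_601e9e_an

variable {d : ℕ}

theorem gram_dot {κ : Type} [Fintype κ] (y : κ → ℂ) : star y ⬝ᵥ y = (nsq y : ℂ) := by
  rw [← ip_self]
  simp [ip, dotProduct, mul_comm]

theorem gram_iso {Ω J : Type} [Fintype Ω] [Fintype J] (j : J → J ⊕ Ω → ℂ) :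
    ∃ ν : Ω → J ⊕ Ω → ℂ, (∀ y : Ω → ℂ, nsq (∑ i, y i • ν i) = nsq y) ∧
      ∀ a i, ip (j a) (ν i) = 0 := by
  classical
  let j' : J → EuclideanSpace ℂ (J ⊕ Ω) := fun a => WithLp.toLp 2 (j a)
  let K : Submodule ℂ (EuclideanSpace ℂ (J ⊕ Ω)) := Submodule.span ℂ (Set.range j')
  have h1 : Module.finrank ℂ K ≤ Fintype.card J := finrank_range_le_card j'
  have h2 := Submodule.finrank_add_finrank_orthogonal K
  rw [finrank_euclideanSpace, Fintype.card_sum] at h2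
  have h3 : Fintype.card Ω ≤ Fintype.card (Fin (Module.finrank ℂ Kᗮ)) := by
    rw [Fintype.card_fin]; omega
  obtain ⟨e⟩ := Function.Embedding.nonempty_of_card_le h3
  let b := stdOrthonormalBasis ℂ Kᗮ
  have h4 : Orthonormal ℂ fun i : Ω => ((b (e i) : Kᗮ) : EuclideanSpace ℂ (J ⊕ Ω)) :=
    (b.orthonormal.comp e e.injective).comp_linearIsometry Kᗮ.subtypeₗᵢ
  refine ⟨fun i => ((b (e i) : Kᗮ) : EuclideanSpace ℂ (J ⊕ Ω)).ofLp, fun y => ?_, fun a i => ?_⟩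
  · have h5 := h4.inner_sum y y Finset.univ
    have h6 : (∑ i, y i • ((b (e i) : Kᗮ) : EuclideanSpace ℂ (J ⊕ Ω)).ofLp) =
        (∑ i, y i • ((b (e i) : Kᗮ) : EuclideanSpace ℂ (J ⊕ Ω))).ofLp := by
      simp
    rw [EuclideanSpace.inner_eq_star_dotProduct, dotProduct_comm, gram_dot, ← h6] at h5
    have h7 : ∑ i, conj (y i) * y i = (nsq y : ℂ) := by
      rw [← gram_dot]; simp [dotProduct]
    rw [h7] at h5
    exact_mod_cast h5
  · have h5 : inner ℂ ((b (e i) : Kᗮ) : EuclideanSpace ℂ (J ⊕ Ω)) (j' a) = 0 :=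
      Submodule.inner_left_of_mem_orthogonal (K := K)
        (Submodule.subset_span (Set.mem_range_self a)) (b (e i)).2
    rw [EuclideanSpace.inner_eq_star_dotProduct] at h5
    rw [← h5]
    simp [ip, dotProduct, j']

theorem gram_bound {Ω A : Type} [Fintype Ω] [Fintype A] (ω₁ ω₂ : A → Ω) (v : A → ℂ) (θ : ℝ)
    (hθ : ∑ a, ‖v a‖ ≤ θ) (x : Ω → ℂ) :
    |(∑ a, x (ω₁ a) * conj (x (ω₂ a)) * v a).re| ≤ θ * nsq x := by
  refine (abs_re_le_norm _).trans ((norm_sum_le _ _).trans ?_)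
  have h1 : ∀ a, ‖x (ω₁ a) * conj (x (ω₂ a)) * v a‖ ≤ ‖v a‖ * nsq x := by
    intro a
    rw [norm_mul, norm_mul, RCLike.norm_conj, mul_comm]
    refine mul_le_mul_of_nonneg_left ?_ (norm_nonneg _)
    nlinarith [sq_norm_apply_le x (ω₁ a), sq_norm_apply_le x (ω₂ a),
      sq_nonneg (‖x (ω₁ a)‖ - ‖x (ω₂ a)‖)]
  refine (Finset.sum_le_sum fun a _ => h1 a).trans ?_
  rw [← Finset.sum_mul]
  exact mul_le_mul_of_nonneg_right hθ (nsq_nonneg x)

open scoped MatrixOrder ComplexOrder Matrix in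
theorem gram_root {Ω A : Type} [Fintype Ω] [Fintype A] (ω₀ : Ω) (ω₁ ω₂ : A → Ω)
    (v : A → ℂ) (θ b : ℝ) (hθ : ∑ a, ‖v a‖ ≤ θ) (hb : 0 ≤ b) :
    ∃ B : Matrix Ω Ω ℂ, ∀ x : Ω → ℂ, nsq (B *ᵥ x) =
      θ * nsq x + b * ‖x ω₀‖ ^ 2 + (∑ a, x (ω₁ a) * conj (x (ω₂ a)) * v a).re := by
  classical
  let M : Matrix Ω Ω ℂ := ((θ / 2 : ℝ) : ℂ) • (1 : Matrix Ω Ω ℂ) +
    Matrix.single ω₀ ω₀ ((b / 2 : ℝ) : ℂ) + ∑ a, Matrix.single (ω₂ a) (ω₁ a) (v a / 2)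
  have hs : ∀ (x : Ω → ℂ) (p q : Ω) (c : ℂ),
      star x ⬝ᵥ (Matrix.single p q c *ᵥ x) = x q * conj (x p) * c := by
    intro x p q c
    rw [Matrix.single_mulVec_eq, dotProduct_smul, dotProduct_single]
    simp only [Pi.star_apply, RCLike.star_def, smul_eq_mul]
    ring
  have hM : ∀ x : Ω → ℂ, star x ⬝ᵥ (M *ᵥ x) = ((θ / 2 * nsq x + b / 2 * ‖x ω₀‖ ^ 2 : ℝ) : ℂ) +
      (∑ a, x (ω₁ a) * conj (x (ω₂ a)) * v a) / 2 := by
    intro x
    simp only [M, Matrix.add_mulVec, Matrix.sum_mulVec, Matrix.smul_mulVec, Matrix.one_mulVec,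
      dotProduct_add, dotProduct_sum, dotProduct_smul, hs, gram_dot, smul_eq_mul,
      Complex.mul_conj', Finset.sum_div]
    push_cast
    congr 1
    · ring
    · exact Finset.sum_congr rfl fun a _ => by ring
  have hG : ∀ x : Ω → ℂ, star x ⬝ᵥ ((M + Mᴴ) *ᵥ x) = ((θ * nsq x + b * ‖x ω₀‖ ^ 2 +
      (∑ a, x (ω₁ a) * conj (x (ω₂ a)) * v a).re : ℝ) : ℂ) := by
    intro x
    have h1 : star x ⬝ᵥ (Mᴴ *ᵥ x) = conj (star x ⬝ᵥ (M *ᵥ x)) := by
      rw [Matrix.dotProduct_mulVec, ← Matrix.star_mulVec, Matrix.star_dotProduct,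
        RCLike.star_def]
    rw [Matrix.add_mulVec, dotProduct_add, h1, Complex.add_conj, hM]
    simp only [Complex.add_re, Complex.ofReal_re, Complex.div_ofNat_re]
    push_cast
    ring
  have hP : (M + Mᴴ).PosSemidef := by
    refine .of_dotProduct_mulVec_nonneg (Matrix.isHermitian_add_transpose_self M) fun x => ?_
    rw [hG]
    have h1 := (abs_le.mp (gram_bound ω₁ ω₂ v θ hθ x)).1
    have h2 : 0 ≤ b * ‖x ω₀‖ ^ 2 := by positivity
    exact Complex.zero_le_real.mpr (by linarith)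
  obtain ⟨B, hB⟩ := CStarAlgebra.nonneg_iff_eq_star_mul_self.mp hP.nonneg
  refine ⟨B, fun x => ?_⟩
  have h1 := hG x
  rw [hB, Matrix.star_eq_conjTranspose, ← Matrix.mulVec_mulVec, Matrix.dotProduct_mulVec,
    ← Matrix.star_mulVec, gram_dot] at h1
  exact_mod_cast h1

theorem gram {Ω A J : Type} [Fintype Ω] [Fintype A] [Fintype J] (ω₀ : Ω) (ω₁ ω₂ : A → Ω)
    (v : A → ℂ) (θ b : ℝ) (hθ : ∑ a, ‖v a‖ ≤ θ) (hb : 0 ≤ b) (j : J → J ⊕ Ω → ℂ) :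
    ∃ n : Ω → J ⊕ Ω → ℂ,
      (∀ x : Ω → ℂ, nsq (∑ ω, x ω • n ω) =
        θ * nsq x + b * ‖x ω₀‖ ^ 2 + (∑ a, x (ω₁ a) * conj (x (ω₂ a)) * v a).re) ∧
      (∀ x : Ω → ℂ, nsq (∑ ω, x ω • n ω) ≤ (2 * θ + b) * nsq x) ∧
      ∀ a ω, ip (j a) (n ω) = 0 := by
  obtain ⟨ν, hν, hj⟩ := gram_iso j
  obtain ⟨B, hB⟩ := gram_root ω₀ ω₁ ω₂ v θ b hθ hb
  have h1 : ∀ x : Ω → ℂ, nsq (∑ ω, x ω • ∑ i, B i ω • ν i) =
      θ * nsq x + b * ‖x ω₀‖ ^ 2 + (∑ a, x (ω₁ a) * conj (x (ω₂ a)) * v a).re := by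
    intro x
    rw [← hB, ← hν]
    congr 1
    simp only [Finset.smul_sum, smul_smul, Matrix.mulVec, dotProduct, Finset.sum_smul]
    rw [Finset.sum_comm]
    exact Finset.sum_congr rfl fun i _ => Finset.sum_congr rfl fun ω _ => by rw [mul_comm]
  refine ⟨fun ω => ∑ i, B i ω • ν i, h1, fun x => ?_, fun a ω => ?_⟩
  · rw [h1]
    have h2 := (abs_le.mp (gram_bound ω₁ ω₂ v θ hθ x)).2
    have h3 := mul_le_mul_of_nonneg_left (sq_norm_apply_le x ω₀) hb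
    linarith
  · have h2 : ∀ s : Finset Ω, ip (j a) (∑ i ∈ s, B i ω • ν i) = 0 := by
      classical
      intro s
      induction s using Finset.induction_on with
      | empty => simp [ip_zero_right]
      | insert i s hi ih => rw [Finset.sum_insert hi, ip_add_right, ih, ip_smul_right, hj]; simp
    exact h2 _

end Pool.Agent.Lib.MP_601e9e_an
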