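import Pool.Agent.Lib.MP_601e9e_an.FullStep

/-!
The iteration on the Heisenberg group.
-/

set_option autoImplicit false

open Complex Metric Set ComplexConjugate

namespace Pool.Agent.Lib.MP_601e9e_an

variable {d : ℕ}

theorem Iter_psi_le {X : Xs d} (h : X ∈ Om d (1 / 2)) : ‖psi X‖ ≤ 1 / 2 := by
  have h1 := half_le_norm_qq h
  have h2 : ‖2 / qq X‖ ≤ 4 := by
    rw [norm_div, div_le_iff₀ (by linarith), Complex.norm_ofNat]
    linarith
  have h3 : (2 / qq X - 1).re ≤ 3 := by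
    have := re_le_norm (2 / qq X)
    rw [sub_re, one_re]
    linarith
  have h4 : Real.exp 3 ≤ 500 := by
    have e : Real.exp 3 = Real.exp 1 ^ 3 := by rw [← Real.exp_nat_mul]; norm_num
    have := pow_le_pow_left₀ (Real.exp_pos 1).le (Real.exp_one_lt_d9.le.trans
      (show (2.7182818286 : ℝ) ≤ 3 by norm_num)) 3
    rw [e]
    linarith
  rw [psi, norm_div, Complex.norm_exp, Complex.norm_ofNat, div_le_iff₀ (by norm_num)]
  linarith [Real.exp_le_exp.2 h3]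

theorem Iter_psi_diff : DifferentiableOn ℂ (psi : Xs d → ℂ) (Om d (1 / 2)) :=
  have h : DifferentiableOn ℂ (fun X : Xs d => 2 * (qq X)⁻¹) (Om d (1 / 2)) :=
    (differentiable_qq.differentiableOn.inv fun _ h => qq_ne_zero h).const_mul 2
  ((h.sub_const 1).cexp.mul_const (1000 : ℂ)⁻¹).congr fun _ _ => by
    simp only [psi, div_eq_mul_inv]

theorem Iter_err : Err (fun p : Ps d =>
    1 - ip (fun _ : Unit => psi (pi1 p)) (fun _ : Unit => psi (pi2 p))) (1 / 8) := by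
  have hd : DifferentiableOn ℂ (fun (X : Xs d) (_ : Unit) => psi X) (Om d (1 / 8)) :=
    differentiableOn_pi.2 fun _ => Iter_psi_diff.mono (Om_mono (by norm_num))
  refine ⟨(differentiableOn_ip hd hd).const_sub 1, fun p hp => ?_, fun y => ?_⟩
  · have h1 := Iter_psi_le (Om_mono (by norm_num) hp.1)
    have h2 := Iter_psi_le (Om_mono (by norm_num) hp.2)
    have h3 := mul_le_mul h1 h2 (norm_nonneg _) (by norm_num)
    simp only [ip, sub_sub_cancel_left, norm_neg, Finset.univ_unique, Finset.sum_singleton,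
      norm_mul, RCLike.norm_conj]
    linarith
  · simp only [pi1_rp, pi2_rp, ip_self, sub_im, one_im, ofReal_im, sub_zero]

theorem Iter_upd {κ : Type} [Fintype κ] (ε : Ps d → ℂ) (F g : Xs d → κ → ℂ) (y : Hs d) :
    (upd ε F g (rp y)).re + nsq (F (pt y) + g (pt y)) = (ε (rp y)).re + nsq (F (pt y)) := by
  have h : (ip (g (pt y)) (F (pt y))).re = (ip (F (pt y)) (g (pt y))).re := by
    rw [← conj_ip, conj_re]
  simp only [upd, pi1_rp, pi2_rp, ip_self, sub_re, ofReal_re, nsq_add, h]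
  ring

theorem iterate (d s : ℕ) (hs : 1 ≤ s) : ∃ (κ : Type) (_ : Fintype κ) (T B : ℝ)
    (g : ℕ → Xs d → κ → ℂ), 2 ≤ T ∧ 0 ≤ B ∧ (∀ j, DifferentiableOn ℂ (g j) (Om d (1 / 2))) ∧
      (∀ j, ∀ X ∈ Om d (1 / 2), ‖g j X‖ ≤ B) ∧
      ∀ (y : Hs d) (k : ℕ), |1 - ‖psi (pt y)‖ ^ 2 - nsq (∑ j ∈ Finset.range k,
        ((((T ^ (2 * s))⁻¹) ^ j : ℝ) : ℂ) • g j (dil (T ^ (j + 1)) (pt y)))| ≤
          2 * ((T ^ (4 * s))⁻¹) ^ k := by
  obtain ⟨κ, hκ, m, T, β, B, hT, hβ, hB, H⟩ := full_step d s hs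
  have hT0 : 0 < T := by linarith
  let St := {x : (Xs d → κ → ℂ) × (Ps d → ℂ) //
    DifferentiableOn ℂ x.1 (Om d (1 / 8)) ∧ Err x.2 (1 / 8) ∧ Jet m x.1 β (1 / 8)}
  choose G hG1 hG2 hG3 hG4 hG5 using fun x : St => H x.1.1 x.1.2 x.2.1 x.2.2.1 x.2.2.2
  let nx : St → St := fun x =>
    ⟨(fun X => ((T ^ (2 * s) : ℝ) : ℂ) • (x.1.1 (dil T⁻¹ X) + G x X),
      fun p => ((T ^ (4 * s) : ℝ) : ℂ) *
        upd (fun p => x.1.2 (dilP T⁻¹ p)) (fun X => x.1.1 (dil T⁻¹ X)) (G x) p),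
      hG3 x, hG4 x, hG5 x⟩
  let x0 : St := ⟨(fun _ => 0, fun p =>
      1 - ip (fun _ : Unit => psi (pi1 p)) (fun _ : Unit => psi (pi2 p))),
    differentiableOn_const 0, Iter_err, (jet_zero m _).mono hβ le_rfl⟩
  let x : ℕ → St := fun k => Nat.rec x0 (fun _ z => nx z) k
  have hx : ∀ k, x (k + 1) = nx (x k) := fun _ => rfl
  have hp : ∀ k : ℕ, T⁻¹ * T ^ (k + 1) = T ^ k := fun k => by
    rw [pow_succ']
    exact inv_mul_cancel_left₀ hT0.ne' _
  have h2 : (T ^ (2 * s)) ^ 2 = T ^ (4 * s) := by rw [← pow_mul]; congr 1; ring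
  have hS : ∀ (k : ℕ) (X : Xs d), ∑ j ∈ Finset.range k,
      ((((T ^ (2 * s))⁻¹) ^ j : ℝ) : ℂ) • G (x j) (dil (T ^ (j + 1)) X) =
        ((((T ^ (2 * s))⁻¹) ^ k : ℝ) : ℂ) • (x k).1.1 (dil (T ^ k) X) := by
    intro k X
    induction k with
    | zero => exact (smul_zero _).symm
    | succ k ih =>
      rw [Finset.sum_range_succ, ih, hx]
      simp only [nx, dil_dil, hp, smul_smul, ← ofReal_mul]
      rw [pow_succ (T ^ (2 * s))⁻¹, inv_mul_cancel_right₀ (pow_pos hT0 _).ne', smul_add]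
  have hQ : ∀ (k : ℕ) (y : Hs d), ((T ^ (4 * s))⁻¹) ^ k *
      (((x k).1.2 (rp (dilH (T ^ k) y))).re + nsq ((x k).1.1 (pt (dilH (T ^ k) y)))) =
        1 - ‖psi (pt y)‖ ^ 2 := by
    intro k y
    induction k with
    | zero =>
      change _ * ((1 - ip _ _).re + nsq 0) = _
      simp [pi1_rp, pi2_rp, ip_self, dilH_one, nsq, ← ofReal_pow]
    | succ k ih =>
      have e := Iter_upd (fun p => (x k).1.2 (dilP T⁻¹ p)) (fun X => (x k).1.1 (dil T⁻¹ X))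
        (G (x k)) (dilH (T ^ (k + 1)) y)
      simp only [dilP_rp, dil_pt, dilH_dilH, hp] at e
      rw [hx]
      simp only [nx, re_ofReal_mul, nsq_smul, norm_real, Real.norm_eq_abs, sq_abs, h2, dil_pt,
        dilH_dilH, hp]
      rw [← mul_add, e, pow_succ (T ^ (4 * s))⁻¹, mul_assoc,
        inv_mul_cancel_left₀ (pow_pos hT0 _).ne', ih]
  refine ⟨κ, hκ, T, B, fun j => G (x j), hT, hB, fun j => hG1 _, fun j => hG2 _, fun y k => ?_⟩
  have h3 : (((T ^ (2 * s))⁻¹) ^ k) ^ 2 = ((T ^ (4 * s))⁻¹) ^ k := by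
    rw [← h2, ← inv_pow (T ^ (2 * s)) 2, ← pow_mul, ← pow_mul, mul_comm k 2]
  have h4 : 0 ≤ ((T ^ (4 * s))⁻¹) ^ k := by positivity
  have h5 := (x k).2.2.1.bd _ (rp_mem_Dm (by norm_num) (dilH (T ^ k) y))
  have h6 := (abs_re_le_norm _).trans h5
  rw [sub_re, one_re, abs_le] at h6
  rw [hS, nsq_smul, norm_real, Real.norm_eq_abs, sq_abs, h3, dil_pt, ← hQ k y, mul_add,
    add_sub_cancel_right, abs_mul, abs_of_nonneg h4, mul_comm]
  exact mul_le_mul_of_nonneg_right (abs_le.2 ⟨by linarith [h6.1], by linarith [h6.2]⟩) h4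

end Pool.Agent.Lib.MP_601e9e_an
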