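import Pool.Agent.Lib.MP_601e9e_an.Taylor

/-!
Calculus of the jet condition, and the local expansion of an error function.
-/

set_option autoImplicit false

open Complex Metric Set ComplexConjugate

namespace Pool.Agent.Lib.MP_601e9e_an

variable {d : ℕ}

variable {κ : Type} [Fintype κ] {m : ℕ} {F G : Xs d → κ → ℂ} {β β' lam lam' : ℝ}

theorem jet_zero (m : ℕ) (lam : ℝ) : Jet m (fun _ : Xs d => (0 : κ → ℂ)) 0 lam := by
  intro y
  refine ⟨fun _ => 0, fun X _ => ?_⟩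
  simp

theorem Jet.add (hF : Jet m F β lam) (hG : Jet m G β' lam) :
    Jet m (fun X => F X + G X) (β + β') lam := by
  intro y
  obtain ⟨v, hv⟩ := hF y
  obtain ⟨w, hw⟩ := hG y
  refine ⟨fun a => v a + w a, fun X hX => ?_⟩
  have e : F (tr y X) + G (tr y X) - (v none + w none) -
      ∑ a, mon cx (wd a) X • (v (some a) + w (some a)) =
      (F (tr y X) - v none - ∑ a, mon cx (wd a) X • v (some a)) +
        (G (tr y X) - w none - ∑ a, mon cx (wd a) X • w (some a)) := by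
    simp only [smul_add, Finset.sum_add_distrib]
    abel
  rw [e, add_mul]
  exact (norm_add_le _ _).trans (add_le_add (hv X hX) (hw X hX))

theorem Jet.smul (hF : Jet m F β lam) {c : ℝ} (hc : 0 ≤ c) :
    Jet m (fun X => (c : ℂ) • F X) (c * β) lam := by
  intro y
  obtain ⟨v, hv⟩ := hF y
  refine ⟨fun a => (c : ℂ) • v a, fun X hX => ?_⟩
  have e : (c : ℂ) • F (tr y X) - (c : ℂ) • v none -
      ∑ a, mon cx (wd a) X • ((c : ℂ) • v (some a)) =
      (c : ℂ) • (F (tr y X) - v none - ∑ a, mon cx (wd a) X • v (some a)) := by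
    rw [smul_sub, smul_sub, Finset.smul_sum]
    congr 1
    exact Finset.sum_congr rfl fun a _ => smul_comm _ _ _
  rw [e, norm_smul, norm_real, Real.norm_eq_abs, abs_of_nonneg hc, mul_assoc]
  exact mul_le_mul_of_nonneg_left (hv X hX) hc

theorem Jet.mono (hF : Jet m F β lam) (hβ : β ≤ β') (hl : lam' ≤ lam) : Jet m F β' lam' := by
  intro y
  obtain ⟨v, hv⟩ := hF y
  refine ⟨v, fun X hX => (hv X (Om_mono hl hX)).trans ?_⟩
  exact mul_le_mul_of_nonneg_right hβ (by positivity)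

/-- weight of a letter under the dilation -/
noncomputable def jetWt (σ : ℝ) : Lt d → ℂ
  | none => (σ : ℂ) ^ 2
  | some _ => (σ : ℂ)

theorem jet_cx_dil (σ : ℝ) (a : Lt d) (X : Xs d) : cx a (dil σ X) = jetWt σ a * cx a X := by
  cases a <;> simp [cx, dil, jetWt]

theorem jet_mon_dil (σ : ℝ) (l : List (Lt d)) (X : Xs d) :
    mon cx l (dil σ X) = mon cx l X * (l.map (jetWt σ)).prod := by
  induction l with
  | nil => simp [mon]
  | cons a l ih =>
    simp only [mon, List.map_cons, List.prod_cons] at ih ⊢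
    rw [ih, jet_cx_dil]
    ring

theorem jet_norm_dil {σ : ℝ} (hσ : 0 < σ) (hσ1 : σ ≤ 1) (X : Xs d) : ‖dil σ X‖ ≤ σ * ‖X‖ := by
  rw [Prod.norm_def]
  refine max_le ?_ ?_
  · simp only [dil, norm_smul, norm_real, Real.norm_eq_abs, abs_of_pos hσ]
    exact mul_le_mul_of_nonneg_left (norm_fst_le X) hσ.le
  · simp only [dil, norm_mul, norm_pow, norm_real, Real.norm_eq_abs, abs_of_pos hσ]
    exact mul_le_mul (by nlinarith) (norm_snd_le X) (norm_nonneg _) hσ.le

theorem Jet.dil (hF : Jet m F β lam) (hβ : 0 ≤ β) {σ : ℝ} (hσ : 0 < σ) (hσ1 : σ ≤ 1) :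
    Jet m (fun X => F (dil σ X)) (β * σ ^ (m + 1)) (lam / σ ^ 2) := by
  intro y
  obtain ⟨v, hv⟩ := hF (dilH σ y)
  refine ⟨fun a => a.elim (v none) fun b => ((wd b).map (jetWt σ)).prod • v (some b),
    fun X hX => ?_⟩
  have h := hv _ (dil_mem_Om hσ hX)
  simp only [jet_mon_dil, mul_smul] at h
  simp only [Option.elim_none, Option.elim_some, dil_tr]
  refine h.trans ?_
  rw [mul_assoc, ← mul_pow]
  exact mul_le_mul_of_nonneg_left
    (pow_le_pow_left₀ (norm_nonneg _) (jet_norm_dil hσ hσ1 X) _) hβ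

theorem jet_ball_subset (d : ℕ) : ball (0 : Xs d) (1 / (2 * d + 2)) ⊆ Om d (1 / 2) := by
  intro X hX
  rw [mem_ball_zero_iff, lt_div_iff₀ (by positivity)] at hX
  have hd : (0 : ℝ) ≤ d := Nat.cast_nonneg d
  have h0 := norm_nonneg X
  have h1 : ‖X‖ ≤ 1 := by nlinarith
  have h2 : nsq X.1 ≤ d * ‖X‖ := by
    have := nsq_le_card X.1
    rw [Fintype.card_fin] at this
    refine this.trans (mul_le_mul_of_nonneg_left ?_ hd)
    nlinarith [norm_fst_le X, norm_nonneg X.1]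
  have h3 : |X.2.im| ≤ ‖X‖ := (abs_im_le_norm _).trans (norm_snd_le X)
  simp only [Om, mem_ofPred_eq, rho]
  nlinarith [neg_abs_le X.2.im]

theorem jet_of_bound (d m : ℕ) : ∃ C : ℝ, 0 ≤ C ∧ ∀ (κ : Type) [Fintype κ] (g : Xs d → κ → ℂ)
    (B : ℝ), DifferentiableOn ℂ g (Om d (1 / 2)) → (∀ X ∈ Om d (1 / 2), ‖g X‖ ≤ B) →
    Jet m g (C * B) (1 / 2) := by
  obtain ⟨C, hC1, hC⟩ := taylor (Lt d) m
  refine ⟨C * (2 * d + 2) ^ (m + 1), by positivity, fun κ _ g B hg hB y => ?_⟩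
  have hsub : ∀ X ∈ ball (0 : Xs d) (1 / (2 * d + 2)), tr y X ∈ Om d (1 / 2) := fun X hX =>
    (tr_mem_Om y).2 (jet_ball_subset d hX)
  obtain ⟨v, -, hv⟩ := hC (Xs d) (κ → ℂ) ex cx sum_cx norm_cx_le norm_ex_le cx_smul
    (fun X => g (tr y X)) (1 / (2 * d + 2)) B (by positivity)
    (hg.comp (differentiable_tr y).differentiableOn hsub) (fun X hX => hB _ (hsub X hX))
  refine ⟨fun a => a.elim (g (tr y 0)) v, fun X hX => ?_⟩
  simp only [Option.elim_none, Option.elim_some]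
  refine (hv X (hB _ ((tr_mem_Om y).2 hX))).trans (le_of_eq ?_)
  rw [div_div_eq_mul_div, div_one, mul_pow]
  ring

/-- the linear map used for the local expansion -/
noncomputable def jetLin (P : Xs d × Xs d) : Ps d := (P.1.1, P.2.1, (P.1.2 + P.2.2) / 2)

theorem jetLin_diff : Differentiable ℂ (jetLin : Xs d × Xs d → Ps d) := by
  unfold jetLin
  fun_prop

theorem jetLin_zero : jetLin (0 : Xs d × Xs d) = 0 := by simp [jetLin]

theorem jetLin_pt (y : Hs d) : jetLin (pt y, star (pt y)) = rp y := by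
  refine Prod.ext rfl (Prod.ext rfl ?_)
  simp [jetLin, pt, rp]
  ring

theorem jetLin_mem {r lam : ℝ} (hr : 1 ≤ r) (hl : (2 * d + 1) * r ^ 2 ≤ lam)
    {P : Xs d × Xs d} (hP : P ∈ ball (0 : Xs d × Xs d) r) : jetLin P ∈ Dm d lam := by
  rw [mem_ball_zero_iff] at hP
  have hd : (0 : ℝ) ≤ d := Nat.cast_nonneg d
  have hn : ∀ u : Vs d, ‖u‖ ≤ r → nsq u ≤ d * r ^ 2 := fun u hu => by
    have := nsq_le_card u
    rw [Fintype.card_fin] at this
    exact this.trans (mul_le_mul_of_nonneg_left (pow_le_pow_left₀ (norm_nonneg _) hu 2) hd)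
  have h1 := hn P.1.1 (((norm_fst_le P.1).trans (norm_fst_le P)).trans hP.le)
  have h2 := hn P.2.1 (((norm_fst_le P.2).trans (norm_snd_le P)).trans hP.le)
  have h3 : ‖bil P.1.1 P.2.1‖ ≤ d * r ^ 2 := by
    have := norm_ip_le_one P.1.1 (star P.2.1)
    rw [← bil_star, star_star, nsq_star] at this
    linarith
  have h4 : ‖(P.1.2 + P.2.2) / 2‖ < r ^ 2 := by
    have a1 : ‖P.1.2‖ ≤ ‖P‖ := (norm_snd_le P.1).trans (norm_fst_le P)
    have a2 : ‖P.2.2‖ ≤ ‖P‖ := (norm_snd_le P.2).trans (norm_snd_le P)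
    have a3 := norm_add_le P.1.2 P.2.2
    rw [norm_div, Complex.norm_two]
    nlinarith
  have h5 := (abs_re_le_norm (bil P.1.1 P.2.1)).trans h3
  have h6 := (abs_im_le_norm ((P.1.2 + P.2.2) / 2)).trans_lt h4
  rw [abs_le] at h5
  rw [abs_lt] at h6
  constructor
  · simp only [Om, mem_ofPred_eq, rho_pi1, jetLin]
    linarith [h5.1, h6.1]
  · simp only [Om, mem_ofPred_eq, rho_pi2, jetLin]
    linarith [h5.1, h6.2]

theorem local_taylor (d M : ℕ) : ∃ C : ℝ, 0 < C ∧ ∀ (r lam : ℝ) (ε : Ps d → ℂ), 1 ≤ r →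
    (2 * d + 1) * r ^ 2 ≤ lam → DifferentiableOn ℂ ε (Dm d lam) →
    (∀ p ∈ Dm d lam, ‖ε p - 1‖ ≤ 1 / 2) → ∀ y : Hs d,
    ∃ v : Idx (Lt d ⊕ Lt d) M → ℂ, ∑ a, ‖v a‖ ≤ C / r ∧ ∀ y' : Hs d,
      ‖ε (rp (hmul y y')) - ε (rp y) - ∑ a, mon c2 (wd a) (pt y', star (pt y')) * v a‖ ≤
        C * (‖qq (pt y')‖ / r) ^ (M + 1) := by
  obtain ⟨C, hC1, hC⟩ := taylor (Lt d ⊕ Lt d) M
  have hC0 : 0 < C := by linarith
  refine ⟨C * (3 / 2) * (3 ^ (M + 1) + Fintype.card (Idx (Lt d ⊕ Lt d) M)), by positivity,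
    fun r lam ε hr hl hε hb y => ?_⟩
  have hr0 : 0 < r := by linarith
  have hlam : 0 < lam := lt_of_lt_of_le (by positivity) hl
  have hb' : ∀ p ∈ Dm d lam, ‖ε p‖ ≤ 3 / 2 := fun p hp => by
    have := norm_add_le (ε p - 1) 1
    rw [sub_add_cancel, norm_one] at this
    linarith [hb p hp]
  have hsub : ∀ P ∈ ball (0 : Xs d × Xs d) r, act y (jetLin P) ∈ Dm d lam := fun P hP =>
    (act_mem_Dm y).2 (jetLin_mem hr hl hP)
  obtain ⟨v, hv1, hv⟩ := hC (Xs d × Xs d) ℂ e2 c2 sum_c2 norm_c2_le norm_e2_le c2_smul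
    (fun P => ε (act y (jetLin P))) r (3 / 2) hr0
    (hε.comp ((differentiable_act y).comp jetLin_diff).differentiableOn hsub)
    (fun P hP => hb' _ (hsub P hP))
  refine ⟨v, ?_, fun y' => ?_⟩
  · have h1 : ∀ a, ‖v a‖ ≤ C * (3 / 2) / r := fun a => by
      refine (hv1 a).trans (div_le_div_of_nonneg_left (by positivity) hr0 ?_)
      exact le_self_pow₀ hr (by have := (wd_length a).1; omega)
    calc ∑ a, ‖v a‖ ≤ ∑ _a : Idx (Lt d ⊕ Lt d) M, C * (3 / 2) / r :=
          Finset.sum_le_sum fun a _ => h1 a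
      _ = C * (3 / 2) * (Fintype.card (Idx (Lt d ⊕ Lt d) M)) / r := by
          rw [Finset.sum_const, Finset.card_univ, nsmul_eq_mul]
          ring
      _ ≤ _ := by
          gcongr
          exact le_add_of_nonneg_left (by positivity)
  · have h := hv (pt y', star (pt y')) (by
      simp only [jetLin_pt, act_rp]
      exact hb' _ (rp_mem_Dm hlam _))
    simp only [jetLin_pt, act_rp, jetLin_zero, act_zero_right, smul_eq_mul] at h
    refine h.trans ?_
    have hn : ‖(pt y', star (pt y'))‖ ≤ 3 * ‖qq (pt y')‖ := by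
      have := norm_le_three_qq (pt_mem_Om (d := d) (lam := 1 / 2) (by norm_num) y')
      have hs : ‖star (pt y')‖ = ‖pt y'‖ := by
        simp [Prod.norm_def]
      rw [Prod.norm_def]
      exact max_le this (hs.trans_le this)
    calc C * (3 / 2) * (‖(pt y', star (pt y'))‖ / r) ^ (M + 1)
        ≤ C * (3 / 2) * (3 * (‖qq (pt y')‖ / r)) ^ (M + 1) := by
          gcongr
          rw [← mul_div_assoc]
          gcongr
      _ = C * (3 / 2) * 3 ^ (M + 1) * (‖qq (pt y')‖ / r) ^ (M + 1) := by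
          rw [mul_pow]
          ring
      _ ≤ _ := by
          gcongr
          exact le_add_of_nonneg_right (by positivity)

end Pool.Agent.Lib.MP_601e9e_an
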