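import Pool.Agent.Lib.MP_601e9e_an.LatUp
import Pool.Agent.Lib.MP_601e9e_an.Denom

/-!
Lattice sums are almost constant; points of one colour are far apart.
-/

set_option autoImplicit false

open Complex Metric Set ComplexConjugate

namespace Pool.Agent.Lib.MP_601e9e_an

variable {d : ℕ}

/-- right multiplication in the lattice -/
def LC_mul (δ : Lat d) : Lat d ≃ Lat d where
  toFun γ := (γ.1 + δ.1, γ.2.1 + δ.2.1,
    γ.2.2 + δ.2.2 - 2 * ∑ i, (δ.2.1 i * γ.1 i - δ.1 i * γ.2.1 i))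
  invFun γ := (γ.1 - δ.1, γ.2.1 - δ.2.1,
    γ.2.2 - δ.2.2 + 2 * ∑ i, (δ.2.1 i * (γ.1 - δ.1) i - δ.1 i * (γ.2.1 - δ.2.1) i))
  left_inv γ := by
    refine Prod.ext (by simp) (Prod.ext (by simp) ?_)
    simp only [add_sub_cancel_right]
    ring
  right_inv γ := by
    refine Prod.ext (by simp) (Prod.ext (by simp) ?_)
    simp only
    ring

theorem LC_lat_mul (l : ℕ) (γ δ : Lat d) : lat l (LC_mul δ γ) = hmul (lat l γ) (lat l δ) := by
  refine Prod.ext ?_ ?_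
  · ext i
    simp only [lat, LC_mul, hmul, Equiv.coe_fn_mk, Pi.add_apply]
    push_cast
    ring
  · have h : (ip (lat l δ).1 (lat l γ).1).im =
        (∑ i, ((δ.2.1 i : ℝ) * γ.1 i - δ.1 i * γ.2.1 i)) / (l : ℝ) ^ 2 := by
      rw [ip, im_sum, Finset.sum_div]
      refine Finset.sum_congr rfl fun i _ => ?_
      have e : (lat l δ).1 i * conj ((lat l γ).1 i) =
          ((((l : ℝ) ^ 2)⁻¹ : ℝ) : ℂ) *
            (((δ.1 i : ℂ) + (δ.2.1 i : ℂ) * I) * ((γ.1 i : ℂ) - (γ.2.1 i : ℂ) * I)) := by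
        simp only [lat, map_div₀, map_add, map_mul, map_intCast, map_natCast, conj_I]
        push_cast
        ring
      rw [e, im_ofReal_mul]
      simp
      ring
    simp only [hmul, h]
    simp only [lat, LC_mul, Equiv.coe_fn_mk]
    push_cast
    ring

theorem LC_SS_tr (a l : ℕ) (δ : Lat d) (X : Xs d) : SS a l (tr (lat l δ) X) = SS a l X := by
  unfold SS
  rw [← (LC_mul δ).tsum_eq fun γ => ker a (tr (lat l γ) X)]
  exact tsum_congr fun γ => by rw [tr_tr, LC_lat_mul]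

theorem LC_floor {x c : ℝ} (hc : 0 < c) : |x - (⌊c * x⌋ : ℝ) / c| ≤ 1 / c := by
  have h1 := Int.floor_le (c * x)
  have h2 := Int.lt_floor_add_one (c * x)
  have e : x - (⌊c * x⌋ : ℝ) / c = (c * x - ⌊c * x⌋) / c := by field_simp
  rw [e, abs_div, abs_of_pos hc]
  refine div_le_div_of_nonneg_right ?_ hc.le
  rw [abs_le]
  constructor <;> linarith

theorem LC_reduce {l : ℕ} (hl : 1 ≤ l) (y : Hs d) :
    ∃ (δ : Lat d) (v : Hs d), pt y = tr (lat l δ) (pt v) ∧ ‖pt v‖ ≤ (4 * d + 2) / l := by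
  have hl1 : (1 : ℝ) ≤ l := by exact_mod_cast hl
  have hl0 : (0 : ℝ) < l := by linarith
  let p : Fin d → ℤ := fun i => ⌊(l : ℝ) * (y.1 i).re⌋
  let q : Fin d → ℤ := fun i => ⌊(l : ℝ) * (y.1 i).im⌋
  let g : Vs d := fun i => ((p i : ℂ) + (q i : ℂ) * I) / (l : ℂ)
  let s : ℝ := y.2 - 2 * (ip y.1 (-g)).im
  let δ : Lat d := (p, q, ⌊(l : ℝ) ^ 2 * s⌋)
  refine ⟨δ, hmul (-lat l δ) y, ?_, ?_⟩
  · have h := hmul_neg_hmul (-lat l δ) y
    rw [neg_neg] at h
    rw [tr_pt, h]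
  · set v := hmul (-lat l δ) y with hv
    have h1 : ∀ i, ‖v.1 i‖ ≤ 2 / l := by
      intro i
      have e : v.1 i = (((y.1 i).re - (p i : ℝ) / l : ℝ) : ℂ) +
          (((y.1 i).im - (q i : ℝ) / l : ℝ) : ℂ) * I := by
        have e2 := (re_add_im (y.1 i)).symm
        simp only [hv, hmul, lat, δ, Prod.fst_neg, Pi.add_apply, Pi.neg_apply]
        push_cast
        linear_combination e2
      rw [e]
      refine (norm_add_le _ _).trans ?_
      rw [norm_mul, norm_I, mul_one, norm_real, norm_real, Real.norm_eq_abs, Real.norm_eq_abs]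
      have a1 := LC_floor (x := (y.1 i).re) hl0
      have a2 := LC_floor (x := (y.1 i).im) hl0
      have e3 : (2 : ℝ) / l = 1 / l + 1 / l := by ring
      rw [e3]
      exact add_le_add a1 a2
    have h2 : |v.2| ≤ 1 / (l : ℝ) ^ 2 := by
      have e : v.2 = s - (⌊(l : ℝ) ^ 2 * s⌋ : ℝ) / (l : ℝ) ^ 2 := by
        have e1 : v.2 = -((⌊(l : ℝ) ^ 2 * s⌋ : ℝ) / (l : ℝ) ^ 2) + y.2 -
          2 * (ip y.1 (-g)).im := rfl
        rw [e1]
        simp only [s]
        ring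
      rw [e]
      exact LC_floor (by positivity)
    have h3 : ‖v.1‖ ≤ 2 / l := (pi_norm_le_iff_of_nonneg (by positivity)).2 h1
    have h4 : nsq v.1 ≤ d * (2 / l) ^ 2 := by
      have := nsq_le_card v.1
      rw [Fintype.card_fin] at this
      refine this.trans ?_
      gcongr
    have hd : (0 : ℝ) ≤ d := Nat.cast_nonneg d
    rw [Prod.norm_def]
    refine max_le (h3.trans ?_) ?_
    · exact div_le_div_of_nonneg_right (by linarith) hl0.le
    · have h5 : ‖(pt v).2‖ ≤ |v.2| + nsq v.1 := by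
        refine (norm_add_le _ _).trans ?_
        rw [norm_mul, norm_I, one_mul, norm_real, norm_real, Real.norm_eq_abs, Real.norm_eq_abs,
          abs_of_nonneg (nsq_nonneg _)]
      have h6 : 1 / (l : ℝ) ^ 2 + d * (2 / l) ^ 2 = (4 * d + 1) / (l : ℝ) ^ 2 := by
        field_simp
        ring
      have h7 : (4 * d + 1) / (l : ℝ) ^ 2 ≤ (4 * d + 2) / l :=
        div_le_div₀ (by positivity) (by linarith) hl0 (by nlinarith)
      linarith

theorem LC_pow (a : ℕ) {x x' η : ℝ} (hx : 0 < x) (hη : η ≤ 1 / 2) (h : |x' - x| ≤ η * x) :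
    |(x' ^ a)⁻¹ - (x ^ a)⁻¹| ≤ (2 * a * 2 ^ (a - 1) + 2) * η * (x ^ a)⁻¹ := by
  obtain ⟨h1, h2⟩ := abs_le.1 h
  have hη0 : 0 ≤ η := by
    by_contra hn
    have : η * x < 0 := mul_neg_of_neg_of_pos (not_le.1 hn) hx
    linarith [abs_nonneg (x' - x)]
  have h3 : x / 2 ≤ x' := by nlinarith
  have hx' : 0 < x' := by linarith
  have h4 : |x / x' - 1| ≤ 2 * η := by
    have e : x / x' - 1 = -(x' - x) / x' := by field_simp; ring
    rw [e, abs_div, abs_neg, abs_of_pos hx', div_le_iff₀ hx']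
    nlinarith
  have h5 : max |x / x'| |(1 : ℝ)| ≤ 2 := by
    refine max_le ?_ (by norm_num)
    rw [abs_of_pos (div_pos hx hx'), div_le_iff₀ hx']
    linarith
  have h6 := abs_pow_sub_pow_le (x / x') 1 a
  have h7 : |(x / x') ^ a - 1 ^ a| ≤ 2 * η * a * 2 ^ (a - 1) := by
    refine h6.trans ?_
    gcongr
  have e : (x' ^ a)⁻¹ - (x ^ a)⁻¹ = ((x / x') ^ a - 1 ^ a) * (x ^ a)⁻¹ := by
    rw [div_pow, one_pow]
    field_simp
  have hp : 0 < (x ^ a)⁻¹ := by positivity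
  rw [e, abs_mul, abs_of_pos hp]
  refine mul_le_mul_of_nonneg_right (h7.trans ?_) hp.le
  nlinarith

theorem lat_const (d a : ℕ) (ha : 2 * d + 2 ≤ a) : ∃ C : ℝ, 1 ≤ C ∧ ∀ l : ℕ, C ≤ l →
    ∀ y : Hs d, |SS a l (pt y) - SS a l (0 : Xs d)| ≤ C / l * SS a l (0 : Xs d) := by
  have hd : (0 : ℝ) ≤ d := Nat.cast_nonneg d
  set K : ℝ := 2 * a * 2 ^ (a - 1) + 2 with hK
  set E : ℝ := (4 * d + 2) * (2 * d + 2) with hE
  have hK2 : 2 ≤ K := by
    have : (0 : ℝ) ≤ 2 * a * 2 ^ (a - 1) := by positivity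
    linarith
  have hE1 : 1 ≤ E := by nlinarith
  have hC : 1 ≤ K * E := by nlinarith
  refine ⟨K * E, hC, fun l hl y => ?_⟩
  have hl1 : (1 : ℝ) ≤ l := hC.trans hl
  have hl0 : (0 : ℝ) < l := by linarith
  have hl' : 1 ≤ l := by exact_mod_cast hl1
  obtain ⟨δ, v, hy, hv⟩ := LC_reduce hl' y
  have h0 : (0 : Xs d) ∈ Om d (1 / 2) := by
    simp [Om, rho, nsq_zero]
  have hη : E / l ≤ 1 / 2 := by
    rw [div_le_iff₀ hl0]
    nlinarith
  have key : ∀ γ : Lat d, |ker a (tr (lat l γ) (pt v)) - ker a (tr (lat l γ) 0)| ≤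
      K * E / l * ker a (tr (lat l γ) 0) := by
    intro γ
    have h1 := qq_perturb h0 (pt v) (lat l γ)
    rw [sub_zero, norm_zero] at h1
    have h2 : 0 < ‖qq (tr (lat l γ) (0 : Xs d))‖ :=
      norm_pos_iff.2 (qq_ne_zero ((tr_mem_Om _).2 h0))
    have h3 : ‖pt v‖ * (2 + 2 * d * (1 + 2 * 0)) ≤ E / l := by
      have e : E / l = (4 * d + 2) / l * (2 + 2 * d * (1 + 2 * 0)) := by
        rw [hE]
        ring
      rw [e]
      exact mul_le_mul_of_nonneg_right hv (by positivity)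
    have h4 := LC_pow a h2 hη ((abs_norm_sub_norm_le _ _).trans
      (h1.trans (mul_le_mul_of_nonneg_right h3 h2.le)))
    rw [mul_div_assoc]
    exact h4
  have s1 := summable_ker (l := l) ha hl' (pt_mem_Om (by norm_num : (0 : ℝ) < 1 / 2) v)
  have s0 := summable_ker (l := l) ha hl' h0
  rw [hy, LC_SS_tr]
  have u1 : SS a l (pt v) ≤ (1 + K * E / l) * SS a l (0 : Xs d) := by
    unfold SS
    rw [← tsum_mul_left]
    refine s1.tsum_le_tsum (fun γ => ?_) (s0.mul_left _)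
    have := (abs_le.1 (key γ)).2
    linarith
  have u2 : (1 - K * E / l) * SS a l (0 : Xs d) ≤ SS a l (pt v) := by
    unfold SS
    rw [← tsum_mul_left]
    refine (s0.mul_left _).tsum_le_tsum (fun γ => ?_) s1
    have := (abs_le.1 (key γ)).1
    linarith
  rw [abs_le]
  constructor <;> linarith

theorem LC_far {L : ℕ} {m n : ℤ} (h : (m : ZMod (L + 1)) = (n : ZMod (L + 1))) (hne : m ≠ n) :
    (L : ℝ) + 1 ≤ |(m : ℝ) - n| := by
  have h1 := (ZMod.intCast_eq_intCast_iff_dvd_sub m n (L + 1)).1 h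
  have h2 := Int.le_of_dvd (abs_pos.2 (sub_ne_zero.2 hne.symm)) ((dvd_abs _ _).2 h1)
  rw [abs_sub_comm]
  exact_mod_cast h2

theorem lat_sep {l L : ℕ} (hl : 1 ≤ l) {γ γ' : Lat d} (hc : col L γ = col L γ') (hne : γ ≠ γ')
    {X : Xs d} (hX : X ∈ Om d (1 / 2)) :
    ((L : ℝ) + 1) / (2 * (l : ℝ) ^ 2) ≤ ‖qq (tr (lat l γ) X)‖ ∨
      ((L : ℝ) + 1) / (2 * (l : ℝ) ^ 2) ≤ ‖qq (tr (lat l γ') X)‖ := by
  have hl1 : (1 : ℝ) ≤ l := by exact_mod_cast hl
  have hl0 : (0 : ℝ) < l := by linarith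
  suffices h : ((L : ℝ) + 1) / (l : ℝ) ^ 2 ≤
      ‖qq (tr (lat l γ) X)‖ + ‖qq (tr (lat l γ') X)‖ by
    have e : ((L : ℝ) + 1) / (l : ℝ) ^ 2 = 2 * (((L : ℝ) + 1) / (2 * (l : ℝ) ^ 2)) := by
      field_simp
    by_contra hn
    push Not at hn
    linarith [hn.1, hn.2]
  have hz : ∀ i, ‖((γ.1 i : ℂ) - γ'.1 i) + ((γ.2.1 i : ℂ) - γ'.2.1 i) * I‖ / l ≤
      ‖qq (tr (lat l γ) X)‖ + ‖qq (tr (lat l γ') X)‖ := by
    intro i
    have a1 := norm_fst_le_norm_qq ((tr_mem_Om (lat l γ)).2 hX) i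
    have a2 := norm_fst_le_norm_qq ((tr_mem_Om (lat l γ')).2 hX) i
    have a3 := norm_sub_le ((tr (lat l γ) X).1 i) ((tr (lat l γ') X).1 i)
    have e : (tr (lat l γ) X).1 i - (tr (lat l γ') X).1 i =
        (((γ.1 i : ℂ) - γ'.1 i) + ((γ.2.1 i : ℂ) - γ'.2.1 i) * I) / (l : ℂ) := by
      simp only [tr, lat, Pi.add_apply]
      ring
    rw [e, norm_div, norm_natCast] at a3
    linarith
  have hdiv : ∀ x : ℝ, (L : ℝ) + 1 ≤ x → ((L : ℝ) + 1) / (l : ℝ) ^ 2 ≤ x / l := fun x hx =>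
    div_le_div₀ (le_trans (by positivity) hx) hx hl0 (by nlinarith)
  by_cases h1 : γ.1 = γ'.1
  · by_cases h2 : γ.2.1 = γ'.2.1
    · have h3 : γ.2.2 ≠ γ'.2.2 := fun h3 => hne (Prod.ext h1 (Prod.ext h2 h3))
      have h4 := LC_far (congrArg (fun c : Col d L => c.2.2) hc) h3
      have a1 := abs_re_le_norm_qq (tr (lat l γ) X)
      have a2 := abs_re_le_norm_qq (tr (lat l γ') X)
      have a3 := abs_sub ((tr (lat l γ) X).2.re) ((tr (lat l γ') X).2.re)
      have e1 : (lat l γ).1 = (lat l γ').1 := by simp only [lat, h1, h2]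
      have e : (tr (lat l γ) X).2.re - (tr (lat l γ') X).2.re =
          ((γ.2.2 : ℝ) - γ'.2.2) / (l : ℝ) ^ 2 := by
        simp only [tr, e1, add_re, ofReal_re]
        simp only [lat]
        ring
      rw [e, abs_div, abs_of_pos (by positivity : (0 : ℝ) < (l : ℝ) ^ 2)] at a3
      have a4 := div_le_div_of_nonneg_right h4 (by positivity : (0 : ℝ) ≤ (l : ℝ) ^ 2)
      linarith
    · obtain ⟨i, hi⟩ := Function.ne_iff.1 h2
      have h4 := LC_far (congrFun (congrArg (fun c : Col d L => c.2.1) hc) i) hi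
      refine (hdiv _ (h4.trans ?_)).trans (hz i)
      refine le_trans (le_of_eq ?_) (abs_im_le_norm _)
      simp
  · obtain ⟨i, hi⟩ := Function.ne_iff.1 h1
    have h4 := LC_far (congrFun (congrArg (fun c : Col d L => c.1) hc) i) hi
    refine (hdiv _ (h4.trans ?_)).trans (hz i)
    refine le_trans (le_of_eq ?_) (abs_re_le_norm _)
    simp

end Pool.Agent.Lib.MP_601e9e_an
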