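import Pool.Agent.Lib.MP_601e9e_an.Basic

/-!
Upper and lower bounds for lattice sums.
-/

set_option autoImplicit false

open Complex Metric Set ComplexConjugate

namespace Pool.Agent.Lib.MP_601e9e_an

variable {d : ℕ}

theorem latup_step (x h : ℝ) (h0 : 0 < h) (h1 : h ≤ 1) :
    h / (4 * (1 + x ^ 2)) ≤ (x + h) / (1 + |x + h|) - x / (1 + |x|) := by
  rcases le_or_gt 0 x with hx | hx
  · rw [abs_of_nonneg hx, abs_of_nonneg (by linarith : 0 ≤ x + h)]
    have e : (x + h) / (1 + (x + h)) - x / (1 + x) = h / ((1 + x) * (1 + (x + h))) := by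
      field_simp
      ring
    rw [e]
    apply div_le_div_of_nonneg_left h0.le (by positivity)
    nlinarith [sq_nonneg (x - 1)]
  · rw [abs_of_neg hx]
    rcases le_or_gt 0 (x + h) with hy | hy
    · rw [abs_of_nonneg hy]
      have a1 : (x + h) / 2 ≤ (x + h) / (1 + (x + h)) :=
        div_le_div_of_nonneg_left hy (by linarith) (by linarith)
      have a2 : (-x) / 2 ≤ (-x) / (1 + -x) :=
        div_le_div_of_nonneg_left (by linarith) (by linarith) (by linarith)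
      have a3 : h / (4 * (1 + x ^ 2)) ≤ h / 2 :=
        div_le_div_of_nonneg_left h0.le (by norm_num) (by nlinarith [sq_nonneg x])
      have a4 : (-x) / (1 + -x) = -(x / (1 + -x)) := neg_div _ _
      linarith
    · rw [abs_of_neg hy]
      have p1 : 0 < 1 + -x := by linarith
      have p2 : 0 < 1 + -(x + h) := by linarith
      have e : (x + h) / (1 + -(x + h)) - x / (1 + -x) = h / ((1 + -x) * (1 + -(x + h))) := by
        field_simp
        ring
      rw [e]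
      apply div_le_div_of_nonneg_left h0.le (by positivity)
      nlinarith [sq_nonneg (x + 1)]

theorem latup_abs_lt (x : ℝ) : |x / (1 + |x|)| ≤ 1 := by
  rw [abs_div, abs_of_pos (by positivity : 0 < 1 + |x|), div_le_one (by positivity)]
  linarith

theorem latup_one (L : ℝ) (hL : 1 ≤ L) (s : ℝ) (S : Finset ℤ) :
    ∑ c ∈ S, 1 / (1 + (s + (c : ℝ) / L) ^ 2) ≤ 8 * L := by
  classical
  obtain ⟨N, hN⟩ : ∃ N : ℕ, ∀ c ∈ S, c.natAbs < N :=
    ⟨S.sup Int.natAbs + 1, fun c hc => Nat.lt_succ_of_le (Finset.le_sup hc)⟩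
  have hsub : S ⊆ (Finset.range (2 * N)).image fun i : ℕ => (i : ℤ) - N := by
    intro c hc
    have := hN c hc
    refine Finset.mem_image.2 ⟨(c + N).toNat, Finset.mem_range.2 (by omega), by omega⟩
  have hL0 : 0 < L := by linarith
  refine (Finset.sum_le_sum_of_subset_of_nonneg hsub fun _ _ _ => by positivity).trans ?_
  rw [Finset.sum_image fun a _ b _ h => by omega]
  set φ : ℕ → ℝ := fun i => (s + ((i : ℝ) - N) / L) / (1 + |s + ((i : ℝ) - N) / L|) with hφ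
  have key : ∀ i ∈ Finset.range (2 * N),
      1 / (1 + (s + (((i : ℤ) - N : ℤ) : ℝ) / L) ^ 2) ≤ 4 * L * (φ (i + 1) - φ i) := by
    intro i _
    have h := latup_step (s + ((i : ℝ) - N) / L) (1 / L) (by positivity)
      (by rw [div_le_one hL0]; exact hL)
    have e : s + ((i : ℝ) - N) / L + 1 / L = s + (((i + 1 : ℕ) : ℝ) - N) / L := by
      push_cast
      ring
    rw [e] at h
    have h2 := mul_le_mul_of_nonneg_left h (show 0 ≤ 4 * L by positivity)
    refine le_trans (le_of_eq ?_) h2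
    push_cast
    field_simp
  refine (Finset.sum_le_sum key).trans ?_
  rw [← Finset.mul_sum, Finset.sum_range_sub]
  have a1 := abs_le.1 (latup_abs_lt (s + (((2 * N : ℕ) : ℝ) - N) / L))
  have a2 := abs_le.1 (latup_abs_lt (s + (((0 : ℕ) : ℝ) - N) / L))
  have a3 : φ (2 * N) - φ 0 ≤ 2 := by
    simp only [hφ]
    linarith [a1.2, a2.1]
  nlinarith

theorem latup_ker {a : ℕ} (ha : 2 * d + 2 ≤ a) {Y : Xs d} (hY : Y ∈ Om d (1 / 2)) :
    ker a Y ≤ 2 ^ a * ((∏ i, 1 / (1 + (Y.1 i).re ^ 2)) * ((∏ i, 1 / (1 + (Y.1 i).im ^ 2)) *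
      (1 / (1 + Y.2.re ^ 2)))) := by
  have h0 := half_le_norm_qq hY
  have h1 := half_add_le_norm_qq hY
  set Q := 2 * ‖qq Y‖ with hQ
  have hQ1 : 1 ≤ Q := by linarith
  have hx : ∀ i, 1 + (Y.1 i).re ^ 2 ≤ Q ∧ 1 + (Y.1 i).im ^ 2 ≤ Q := by
    intro i
    have a := sq_norm_apply_le Y.1 i
    rw [Complex.sq_norm, Complex.normSq_apply] at a
    constructor <;> nlinarith [sq_nonneg (Y.1 i).re, sq_nonneg (Y.1 i).im]
  have ht : 1 + Y.2.re ^ 2 ≤ Q ^ 2 := by
    have a : ‖qq Y‖ ^ 2 = (qq Y).re ^ 2 + Y.2.re ^ 2 := by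
      rw [Complex.sq_norm, Complex.normSq_apply, qq_im]; ring
    have b : 1 / 2 ≤ (qq Y).re := by
      rw [qq_re]
      have : -(1 / 2) < rho Y := hY
      linarith [nsq_nonneg Y.1]
    rw [hQ, mul_pow, a]
    nlinarith [sq_nonneg Y.2.re]
  have p1 : (1 / Q) ^ d ≤ ∏ i, 1 / (1 + (Y.1 i).re ^ 2) := by
    have := Finset.prod_le_prod (s := Finset.univ) (f := fun _ : Fin d => 1 / Q)
      (g := fun i => 1 / (1 + (Y.1 i).re ^ 2)) (fun _ _ => by positivity)
      (fun i _ => one_div_le_one_div_of_le (by positivity) (hx i).1)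
    simpa using this
  have p2 : (1 / Q) ^ d ≤ ∏ i, 1 / (1 + (Y.1 i).im ^ 2) := by
    have := Finset.prod_le_prod (s := Finset.univ) (f := fun _ : Fin d => 1 / Q)
      (g := fun i => 1 / (1 + (Y.1 i).im ^ 2)) (fun _ _ => by positivity)
      (fun i _ => one_div_le_one_div_of_le (by positivity) (hx i).2)
    simpa using this
  have p3 : (1 / Q) ^ 2 ≤ 1 / (1 + Y.2.re ^ 2) := by
    rw [one_div_pow]
    exact one_div_le_one_div_of_le (by positivity) ht
  have e : ker a Y = 2 ^ a * (1 / Q) ^ a := by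
    unfold ker
    rw [hQ, ← mul_pow, ← inv_pow]
    congr 1
    have : ‖qq Y‖ ≠ 0 := by linarith
    field_simp
  rw [e]
  apply mul_le_mul_of_nonneg_left _ (by positivity)
  have p4 : (1 / Q) ^ a ≤ (1 / Q) ^ (d + (d + 2)) :=
    pow_le_pow_of_le_one (by positivity) (by rw [div_le_one (by linarith)]; exact hQ1) (by omega)
  refine p4.trans ?_
  rw [pow_add, pow_add]
  gcongr

theorem latup_pi (l : ℝ) (hl : 1 ≤ l) (x : Fin d → ℝ) (t : Fin d → Finset ℤ) :
    ∑ p ∈ Fintype.piFinset t, ∏ i, 1 / (1 + (x i + (p i : ℝ) / l) ^ 2) ≤ (8 * l) ^ d := by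
  rw [← Finset.prod_univ_sum t fun i (c : ℤ) => 1 / (1 + (x i + (c : ℝ) / l) ^ 2)]
  have := Finset.prod_le_prod (s := Finset.univ)
    (f := fun i => ∑ c ∈ t i, 1 / (1 + (x i + (c : ℝ) / l) ^ 2)) (g := fun _ : Fin d => 8 * l)
    (fun _ _ => Finset.sum_nonneg fun _ _ => by positivity)
    (fun i _ => latup_one l hl (x i) (t i))
  simpa using this

theorem lat_upper (d a : ℕ) (ha : 2 * d + 2 ≤ a) : ∃ C : ℝ, 0 < C ∧ ∀ l : ℕ, 1 ≤ l →
    ∀ X ∈ Om d (1 / 2), ∀ s : Finset (Lat d),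
      ∑ γ ∈ s, ker a (tr (lat l γ) X) ≤ C * (l : ℝ) ^ (2 * d + 2) := by
  classical
  refine ⟨2 ^ a * 8 ^ (2 * d + 1), by positivity, fun l hl X hX s => ?_⟩
  have hl' : (1 : ℝ) ≤ l := by exact_mod_cast hl
  have hl0 : (0 : ℝ) < l := by linarith
  set t1 : Fin d → Finset ℤ := fun i => s.image fun γ => γ.1 i with ht1
  set t2 : Fin d → Finset ℤ := fun i => s.image fun γ => γ.2.1 i with ht2
  set t3 : Finset ℤ := s.image fun γ => γ.2.2 with ht3
  have hsub : s ⊆ Fintype.piFinset t1 ×ˢ (Fintype.piFinset t2 ×ˢ t3) := by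
    intro γ hγ
    refine Finset.mem_product.2 ⟨Fintype.mem_piFinset.2 fun i => ?_,
      Finset.mem_product.2 ⟨Fintype.mem_piFinset.2 fun i => ?_, ?_⟩⟩
    · exact Finset.mem_image_of_mem _ hγ
    · exact Finset.mem_image_of_mem _ hγ
    · exact Finset.mem_image_of_mem _ hγ
  set F : (Fin d → ℤ) → ℝ := fun p => ∏ i, 1 / (1 + ((X.1 i).re + (p i : ℝ) / l) ^ 2) with hF
  set G : (Fin d → ℤ) → ℝ := fun p => ∏ i, 1 / (1 + ((X.1 i).im + (p i : ℝ) / l) ^ 2) with hG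
  set sh : (Fin d → ℤ) → (Fin d → ℤ) → ℝ := fun p q => (tr (lat l (p, q, 0)) X).2.re with hsh
  have hF0 : ∀ p, 0 ≤ F p := fun p => Finset.prod_nonneg fun _ _ => by positivity
  have hG0 : ∀ p, 0 ≤ G p := fun p => Finset.prod_nonneg fun _ _ => by positivity
  have hk : ∀ γ : Lat d, ker a (tr (lat l γ) X) ≤ 2 ^ a * (F γ.1 * (G γ.2.1 *
      (1 / (1 + (sh γ.1 γ.2.1 + (γ.2.2 : ℝ) / (l : ℝ) ^ 2) ^ 2)))) := by
    intro γ
    refine (latup_ker ha ((tr_mem_Om _).2 hX)).trans (le_of_eq ?_)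
    have e1 : ∀ i, ((tr (lat l γ) X).1 i).re = (X.1 i).re + (γ.1 i : ℝ) / l := by
      intro i
      simp [tr, lat, Complex.div_natCast_re]
    have e2 : ∀ i, ((tr (lat l γ) X).1 i).im = (X.1 i).im + (γ.2.1 i : ℝ) / l := by
      intro i
      simp [tr, lat, Complex.div_natCast_im]
    have e3 : (tr (lat l γ) X).2.re = sh γ.1 γ.2.1 + (γ.2.2 : ℝ) / (l : ℝ) ^ 2 := by
      simp only [hsh, tr, lat, Complex.add_re, Complex.ofReal_re]
      simp
      ring
    simp only [e1, e2, e3, hF, hG]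
  refine (Finset.sum_le_sum fun γ _ => hk γ).trans ?_
  refine (Finset.sum_le_sum_of_subset_of_nonneg hsub fun γ _ _ => by
    have := hF0 γ.1
    have := hG0 γ.2.1
    positivity).trans ?_
  rw [← Finset.mul_sum, mul_assoc]
  apply mul_le_mul_of_nonneg_left _ (by positivity)
  rw [Finset.sum_product]
  have inner : ∀ p ∈ Fintype.piFinset t1,
      ∑ y ∈ Fintype.piFinset t2 ×ˢ t3, F p * (G y.1 *
        (1 / (1 + (sh p y.1 + (y.2 : ℝ) / (l : ℝ) ^ 2) ^ 2))) ≤
        F p * ((8 * l) ^ d * (8 * (l : ℝ) ^ 2)) := by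
    intro p _
    rw [← Finset.mul_sum]
    apply mul_le_mul_of_nonneg_left _ (hF0 p)
    rw [Finset.sum_product]
    have in2 : ∀ q ∈ Fintype.piFinset t2, ∑ c ∈ t3, G q *
        (1 / (1 + (sh p q + (c : ℝ) / (l : ℝ) ^ 2) ^ 2)) ≤ G q * (8 * (l : ℝ) ^ 2) := by
      intro q _
      rw [← Finset.mul_sum]
      exact mul_le_mul_of_nonneg_left (latup_one _ (one_le_pow₀ hl') _ _) (hG0 q)
    refine (Finset.sum_le_sum in2).trans ?_
    rw [← Finset.sum_mul]
    exact mul_le_mul_of_nonneg_right (latup_pi l hl' _ t2) (by positivity)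
  refine (Finset.sum_le_sum inner).trans ?_
  rw [← Finset.sum_mul]
  refine (mul_le_mul_of_nonneg_right (latup_pi l hl' _ t1) (by positivity)).trans (le_of_eq ?_)
  rw [mul_pow]
  ring

theorem summable_ker {a l : ℕ} (ha : 2 * d + 2 ≤ a) (hl : 1 ≤ l) {X : Xs d}
    (hX : X ∈ Om d (1 / 2)) : Summable fun γ : Lat d => ker a (tr (lat l γ) X) := by
  obtain ⟨C, _, hC⟩ := lat_upper d a ha
  exact summable_of_sum_le (fun _ => ker_nonneg _ _) (hC l hl X hX)

theorem SS_upper (d a : ℕ) (ha : 2 * d + 2 ≤ a) : ∃ C : ℝ, 0 < C ∧ ∀ l : ℕ, 1 ≤ l →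
    ∀ X ∈ Om d (1 / 2), SS a l X ≤ C * (l : ℝ) ^ (2 * d + 2) := by
  obtain ⟨C, h0, hC⟩ := lat_upper d a ha
  exact ⟨C, h0, fun l hl X hX => (summable_ker ha hl hX).tsum_le_of_sum_le (hC l hl X hX)⟩

theorem lat_lower (d a : ℕ) (ha : 2 * d + 2 ≤ a) : ∃ c : ℝ, 0 < c ∧ ∀ l : ℕ, 1 ≤ l →
    c * (l : ℝ) ^ (2 * d + 2) ≤ SS a l (0 : Xs d) := by
  classical
  refine ⟨((2 * d + 2 : ℝ) ^ a)⁻¹, by positivity, fun l hl => ?_⟩
  have hl' : (1 : ℝ) ≤ l := by exact_mod_cast hl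
  have hl0 : (0 : ℝ) < l := by linarith
  have h0 : (0 : Xs d) ∈ Om d (1 / 2) := by
    show -(1 / 2 : ℝ) < rho 0
    simp [rho, nsq_zero]
  set box : Finset (Lat d) := Fintype.piFinset (fun _ => Finset.Ico (0 : ℤ) l) ×ˢ
    (Fintype.piFinset (fun _ => Finset.Ico (0 : ℤ) l) ×ˢ Finset.Ico (0 : ℤ) (l ^ 2 : ℕ)) with hbox
  have hcard : box.card = l ^ (2 * d + 2) := by
    simp only [hbox, Finset.card_product, Fintype.card_piFinset, Int.card_Ico, sub_zero,
      Int.toNat_natCast, Finset.prod_const, Finset.card_univ, Fintype.card_fin]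
    ring
  have hk : ∀ γ ∈ box, ((2 * d + 2 : ℝ) ^ a)⁻¹ ≤ ker a (tr (lat l γ) 0) := by
    intro γ hγ
    obtain ⟨g1, g2⟩ := Finset.mem_product.1 hγ
    obtain ⟨g2, g3⟩ := Finset.mem_product.1 g2
    have frac : ∀ (c : ℤ) (m : ℕ), 1 ≤ m → c ∈ Finset.Ico (0 : ℤ) m →
        0 ≤ (c : ℝ) / m ∧ (c : ℝ) / m ≤ 1 := by
      intro c m hm hc
      obtain ⟨c0, c1⟩ := Finset.mem_Ico.1 hc
      have m0 : (0 : ℝ) < m := by exact_mod_cast hm
      have c0' : (0 : ℝ) ≤ c := by exact_mod_cast c0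
      have c1' : (c : ℝ) ≤ m := by exact_mod_cast c1.le
      exact ⟨by positivity, (div_le_one m0).2 c1'⟩
    have hz : nsq (lat l γ).1 ≤ 2 * d := by
      have : ∀ i ∈ (Finset.univ : Finset (Fin d)), ‖(lat l γ).1 i‖ ^ 2 ≤ 2 := by
        intro i _
        obtain ⟨a1, a2⟩ := frac _ l hl (Fintype.mem_piFinset.1 g1 i)
        obtain ⟨b1, b2⟩ := frac _ l hl (Fintype.mem_piFinset.1 g2 i)
        have e1 : ((lat l γ).1 i).re = (γ.1 i : ℝ) / l := by
          simp [lat, Complex.div_natCast_re]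
        have e2 : ((lat l γ).1 i).im = (γ.2.1 i : ℝ) / l := by
          simp [lat, Complex.div_natCast_im]
        rw [Complex.sq_norm, Complex.normSq_apply, e1, e2]
        nlinarith
      have := Finset.sum_le_card_nsmul _ _ _ this
      simpa [nsq, mul_comm] using this
    have ht : |(lat l γ).2| ≤ 1 := by
      obtain ⟨a1, a2⟩ := frac _ (l ^ 2) (Nat.one_le_pow _ _ hl) g3
      push_cast at a1 a2
      exact abs_le.2 ⟨by show -1 ≤ (γ.2.2 : ℝ) / (l : ℝ) ^ 2; linarith, a2⟩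
    have hm : tr (lat l γ) 0 ∈ Om d (1 / 2) := (tr_mem_Om _).2 h0
    have hq : ‖qq (tr (lat l γ) 0)‖ ≤ 2 * d + 2 := by
      refine (Complex.norm_le_abs_re_add_abs_im _).trans ?_
      rw [qq_re, qq_im, tr_zero_right, rho_pt, abs_neg]
      have e1 : (pt (lat l γ)).1 = (lat l γ).1 := rfl
      have e2 : (pt (lat l γ)).2.re = (lat l γ).2 := by simp [pt]
      rw [e1, e2, abs_of_nonneg (by linarith [nsq_nonneg (lat l γ).1])]
      linarith
    unfold ker
    have hq0 := half_le_norm_qq hm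
    exact inv_anti₀ (by positivity) (pow_le_pow_left₀ (norm_nonneg _) hq a)
  have h1 := Finset.card_nsmul_le_sum box _ _ hk
  rw [hcard, nsmul_eq_mul] at h1
  have h2 := (summable_ker ha hl h0).sum_le_tsum box fun _ _ => ker_nonneg _ _
  push_cast at h1
  unfold SS
  linarith

end Pool.Agent.Lib.MP_601e9e_an
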