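import Pool.Agent.Lib.MP_601e9e_an.Basic

/-!
Infinite sums of vectors, and the three lines theorem on the complexification.
-/

set_option autoImplicit false

open Complex Metric Set ComplexConjugate

namespace Pool.Agent.Lib.MP_601e9e_an

variable {d : ℕ}

theorem sums_ip_sum {ι κ : Type} [Fintype κ] (u : κ → ℂ) (G : ι → κ → ℂ) (s : Finset ι) :
    ‖ip u (∑ i ∈ s, G i)‖ ≤ ∑ i ∈ s, ‖ip u (G i)‖ := by
  classical
  induction s using Finset.induction_on with
  | empty => simp [ip_zero_right]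
  | insert i s hi ih =>
    rw [Finset.sum_insert hi, Finset.sum_insert hi, ip_add_right]
    exact (norm_add_le _ _).trans (by linarith)

theorem sums_offdiag_fin {ι κ : Type} [Fintype κ] (G : ι → κ → ℂ) (a : ι → ℝ) (w : ℝ)
    (hw : 0 ≤ w) (h : ∀ i j, i ≠ j → ‖ip (G i) (G j)‖ ≤ w * (a i * a j)) (s : Finset ι) :
    |nsq (∑ i ∈ s, G i) - ∑ i ∈ s, nsq (G i)| ≤ w * (∑ i ∈ s, a i) ^ 2 := by
  classical
  induction s using Finset.induction_on with
  | empty => simp [nsq_zero]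
  | insert i s hi ih =>
    rw [Finset.sum_insert hi, Finset.sum_insert hi, Finset.sum_insert hi, nsq_add]
    have h1 : ‖ip (G i) (∑ j ∈ s, G j)‖ ≤ w * (a i * ∑ j ∈ s, a j) := by
      refine (sums_ip_sum _ _ _).trans ?_
      rw [Finset.mul_sum, Finset.mul_sum]
      exact Finset.sum_le_sum fun j hj => h i j fun e => hi (e ▸ hj)
    have h2 := (abs_re_le_norm _).trans h1
    have h3 := mul_nonneg hw (sq_nonneg (a i))
    rw [abs_le] at ih h2 ⊢
    constructor <;> nlinarith [ih.1, ih.2, h2.1, h2.2]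

theorem offdiag {ι κ : Type} [Fintype κ] (G : ι → κ → ℂ) (a : ι → ℝ) (w S : ℝ)
    (hG : Summable G) (hn : Summable fun i => nsq (G i)) (ha0 : ∀ i, 0 ≤ a i)
    (ha : ∀ s : Finset ι, ∑ i ∈ s, a i ≤ S) (hw : 0 ≤ w)
    (h : ∀ i j, i ≠ j → ‖ip (G i) (G j)‖ ≤ w * (a i * a j)) :
    |nsq (∑' i, G i) - ∑' i, nsq (G i)| ≤ w * S ^ 2 := by
  have t1 : Filter.Tendsto (fun s : Finset ι => nsq (∑ i ∈ s, G i)) Filter.atTop
      (nhds (nsq (∑' i, G i))) := (continuous_nsq.tendsto _).comp hG.hasSum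
  have t2 : Filter.Tendsto (fun s : Finset ι => ∑ i ∈ s, nsq (G i)) Filter.atTop
      (nhds (∑' i, nsq (G i))) := hn.hasSum
  refine le_of_tendsto' (t1.sub t2).abs fun s => (sums_offdiag_fin G a w hw h s).trans ?_
  have h0 : 0 ≤ ∑ i ∈ s, a i := Finset.sum_nonneg fun i _ => ha0 i
  have := ha s
  gcongr

theorem differentiableAt_tsum {ι E W : Type} [NormedAddCommGroup E] [NormedSpace ℂ E]
    [NormedAddCommGroup W] [NormedSpace ℂ W] [CompleteSpace W] (f : ι → E → W) (u : ι → ℝ)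
    (hu : Summable u) {c : E} {R : ℝ} (hR : 0 < R)
    (hf : ∀ i, DifferentiableOn ℂ (f i) (ball c R)) (hb : ∀ i, ∀ y ∈ ball c R, ‖f i y‖ ≤ u i) :
    DifferentiableAt ℂ (fun y => ∑' i, f i y) c := by
  refine MP_08f711_an.differentiableAt_of_approx (M := ∑' i, u i) hR
    (fun y hy => tsum_of_norm_bounded hu.hasSum fun i => hb i y hy) fun ε hε => ?_
  have h := tendstoUniformlyOn_iff.1 (tendstoUniformlyOn_tsum hu (s := ball c R) hb) ε hε
  obtain ⟨t, ht⟩ := h.exists
  refine ⟨fun y => ∑ i ∈ t, f i y, DifferentiableOn.fun_sum fun i _ => hf i, fun y hy => ?_⟩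
  have := ht y hy
  rw [dist_comm, dist_eq_norm] at this
  exact this.le

theorem norm_ip_tsum_le {ι κ : Type} [Fintype κ] (u : κ → ℂ) (G : ι → κ → ℂ) (b : ι → ℝ) (S : ℝ)
    (hG : Summable G) (h : ∀ i, ‖ip u (G i)‖ ≤ b i) (hb : ∀ s : Finset ι, ∑ i ∈ s, b i ≤ S) :
    ‖ip u (∑' i, G i)‖ ≤ S := by
  have hc : Continuous fun v : κ → ℂ => ‖ip u v‖ :=
    (continuous_ip.comp (Continuous.prodMk continuous_const continuous_id)).norm
  have t1 : Filter.Tendsto (fun s : Finset ι => ‖ip u (∑ i ∈ s, G i)‖) Filter.atTop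
      (nhds ‖ip u (∑' i, G i)‖) := (hc.tendsto _).comp hG.hasSum
  exact le_of_tendsto' t1 fun s =>
    (sums_ip_sum u G s).trans ((Finset.sum_le_sum fun i _ => h i).trans (hb s))

/-- a complex line through the real points -/
noncomputable def sumsLine (α β : Vs d) (x y : ℝ) (u : ℂ) : Ps d :=
  (α + u • β, star α + u • star β, (x : ℂ) + u * y)

theorem sums_rho1 (α β : Vs d) (x y : ℝ) (u : ℂ) :
    rho (pi1 (sumsLine α β x y u)) = u.im * (y - 2 * (ip α β).im) - u.im ^ 2 * (2 * nsq β) := by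
  have h : (bil (α + u • β) (star α + u • star β)).re - nsq (α + u • β)
      = -(u.im * (2 * (ip α β).im)) - u.im ^ 2 * (2 * nsq β) := by
    simp only [bil, nsq, ip, re_sum, im_sum, Finset.mul_sum, ← Finset.sum_sub_distrib,
      ← Finset.sum_neg_distrib]
    refine Finset.sum_congr rfl fun i _ => ?_
    simp [Complex.sq_norm, normSq_apply]
    ring
  rw [rho_pi1]
  simp only [sumsLine]
  have e : ((x : ℂ) + u * y).im = u.im * y := by simp
  rw [e]
  linarith

theorem sums_rho2 (α β : Vs d) (x y : ℝ) (u : ℂ) :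
    rho (pi2 (sumsLine α β x y u)) = -(u.im * (y - 2 * (ip α β).im)) - u.im ^ 2 * (2 * nsq β) := by
  have h : (bil (α + u • β) (star α + u • star β)).re - nsq (star α + u • star β)
      = u.im * (2 * (ip α β).im) - u.im ^ 2 * (2 * nsq β) := by
    simp only [bil, nsq, ip, re_sum, im_sum, Finset.mul_sum, ← Finset.sum_sub_distrib]
    refine Finset.sum_congr rfl fun i _ => ?_
    simp [Complex.sq_norm, normSq_apply]
    ring
  rw [rho_pi2]
  simp only [sumsLine]
  have e : ((x : ℂ) + u * y).im = u.im * y := by simp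
  rw [e]
  linarith

theorem sums_real (α β : Vs d) (x y r : ℝ) :
    sumsLine α β x y r = rp (α + (r : ℂ) • β, x + r * y) := by
  refine Prod.ext rfl (Prod.ext ?_ ?_)
  · ext i
    simp [sumsLine, rp]
  · simp [sumsLine, rp]

theorem sums_exists (p : Ps d) : ∃ (α β : Vs d) (x y : ℝ), sumsLine α β x y I = p := by
  refine ⟨(1 / 2 : ℂ) • (p.1 + star p.2.1), (-I / 2 : ℂ) • (p.1 - star p.2.1), p.2.2.re, p.2.2.im,
    Prod.ext ?_ (Prod.ext ?_ ?_)⟩
  · ext i
    simp only [sumsLine, Pi.add_apply, Pi.smul_apply, Pi.sub_apply, smul_eq_mul]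
    linear_combination (-(p.1 i - star p.2.1 i) / 2) * I_mul_I
  · ext i
    simp [sumsLine]
    linear_combination ((conj (p.1 i) - p.2.1 i) / 2) * I_mul_I
  · simp [sumsLine, mul_comm I]

theorem sums_diff (α β : Vs d) (x y : ℝ) : Differentiable ℂ (sumsLine α β x y) := by
  unfold sumsLine
  fun_prop

theorem three_lines {f : Ps d → ℂ} {a b : ℝ} (ha : 0 ≤ a) (hb : 0 ≤ b)
    (hf : DifferentiableOn ℂ f (Dm d (1 / 2))) (h1 : ∀ y : Hs d, ‖f (rp y)‖ ≤ a ^ 2)
    (h2 : ∀ p ∈ Dm d (1 / 2), ‖f p‖ ≤ b ^ 2) : ∀ p ∈ Dm d (1 / 8), ‖f p‖ ≤ a * b := by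
  intro p hp
  obtain ⟨α, β, x, y, rfl⟩ := sums_exists p
  obtain ⟨p1, p2⟩ := hp
  simp only [Om, mem_ofPred_eq, sums_rho1, sums_rho2, I_im] at p1 p2
  have hB := nsq_nonneg β
  have hmem : ∀ s ∈ HadamardThreeLines.verticalClosedStrip 0 2,
      sumsLine α β x y (I * s) ∈ Dm d (1 / 2) := by
    intro s hs
    obtain ⟨s0, s2⟩ : 0 ≤ s.re ∧ s.re ≤ 2 := hs
    have e : (I * s).im = s.re := by simp
    have hs2 : s.re ^ 2 * (2 * nsq β) ≤ s.re * (4 * nsq β) := by
      nlinarith [mul_nonneg (mul_nonneg s0 (sub_nonneg.2 s2)) hB]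
    constructor
    · simp only [Om, mem_ofPred_eq, sums_rho1, e]
      nlinarith
    · simp only [Om, mem_ofPred_eq, sums_rho2, e]
      nlinarith
  have hd : DifferentiableOn ℂ (fun s => f (sumsLine α β x y (I * s)))
      (HadamardThreeLines.verticalClosedStrip 0 2) :=
    hf.comp ((sums_diff α β x y).comp (by fun_prop)).differentiableOn hmem
  have hcl : closure (HadamardThreeLines.verticalStrip 0 2)
      ⊆ HadamardThreeLines.verticalClosedStrip 0 2 :=
    closure_minimal (preimage_mono Ioo_subset_Icc_self) (isClosed_Icc.preimage continuous_re)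
  have h := HadamardThreeLines.norm_le_interp_of_mem_verticalClosedStrip'
    (f := fun s => f (sumsLine α β x y (I * s))) (z := 1) (a := a ^ 2) (b := b ^ 2) (l := 0) (u := 2)
    two_pos (by constructor <;> simp) (hd.mono hcl).diffContOnCl
    ⟨b ^ 2, by rintro _ ⟨s, hs, rfl⟩; exact h2 _ (hmem s hs)⟩
    (fun s hs => by
      have hs0 : s.re = 0 := hs
      have e : I * s = ((-s.im : ℝ) : ℂ) := by
        apply Complex.ext <;> simp [hs0]
      simp only [e, sums_real]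
      exact h1 _)
    (fun s hs => by
      have hs0 : s.re = 2 := hs
      exact h2 _ (hmem s ⟨by rw [hs0]; norm_num, hs0.le⟩))
  have e1 : (1 : ℝ) - ((1 : ℂ).re - 0) / (2 - 0) = ((2 : ℕ) : ℝ)⁻¹ := by norm_num
  have e2 : ((1 : ℂ).re - 0) / (2 - 0) = ((2 : ℕ) : ℝ)⁻¹ := by norm_num
  rw [e1, e2, Real.pow_rpow_inv_natCast ha two_ne_zero, Real.pow_rpow_inv_natCast hb two_ne_zero,
    mul_one] at h
  exact h

end Pool.Agent.Lib.MP_601e9e_an
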