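import Pool.Agent.Lib.MP_601e9e_an.LatConst
import Pool.Agent.Lib.MP_601e9e_an.Sums

/-!
The sum of the peaks: convergence, holomorphy and almost orthogonality.
-/

set_option autoImplicit false

open Complex Metric Set ComplexConjugate

namespace Pool.Agent.Lib.MP_601e9e_an

variable {d : ℕ}

theorem nsq_pk {M : ℕ} {B : Type} [Fintype B] (A l L : ℕ) (n : Lat d → (Fin M → Bs d) → B → ℂ)
    (γ : Lat d) (X : Xs d) :
    nsq (pk A l L n γ X) =
      ker (2 * A) (tr (lat l γ) X) * nsq (∑ ω, num ω (tr (lat l γ) X) • n γ ω) := by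
  generalize hV : (∑ ω, num ω (tr (lat l γ) X) • n γ ω) = V
  unfold nsq
  rw [Fintype.sum_prod_type, Finset.sum_eq_single (col L γ), Finset.mul_sum]
  · refine Finset.sum_congr rfl fun b _ => ?_
    simp only [pk, hV, if_true, ker, norm_mul, norm_inv, norm_pow, mul_pow, inv_pow, ← pow_mul,
      mul_comm A 2]
  · intro c _ hc
    refine Finset.sum_eq_zero fun b _ => ?_
    simp [pk, hc]
  · intro h
    exact absurd (Finset.mem_univ _) h

theorem nsq_pk_le {M : ℕ} {B : Type} [Fintype B] (A' l L : ℕ) {μ : ℝ}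
    {n : Lat d → (Fin M → Bs d) → B → ℂ}
    (hn : ∀ γ (x : (Fin M → Bs d) → ℂ), nsq (∑ ω, x ω • n γ ω) ≤ μ ^ 2 * nsq x)
    (γ : Lat d) {X : Xs d} (hX : X ∈ Om d (1 / 2)) :
    nsq (pk (M + A') l L n γ X) ≤ (μ * 3 ^ M * ker A' (tr (lat l γ) X)) ^ 2 := by
  have hY : tr (lat l γ) X ∈ Om d (1 / 2) := (tr_mem_Om _).2 hX
  rw [nsq_pk]
  generalize tr (lat l γ) X = Y at hY ⊢
  have h1 := hn γ fun ω => num ω Y
  have h2 := nsq_num_le M hY
  have hq : 0 < ‖qq Y‖ := norm_pos_iff.2 (qq_ne_zero hY)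
  have h3 : nsq (∑ ω, num ω Y • n γ ω) ≤ μ ^ 2 * (3 ^ M * ‖qq Y‖ ^ M) ^ 2 :=
    h1.trans (mul_le_mul_of_nonneg_left h2 (sq_nonneg μ))
  refine (mul_le_mul_of_nonneg_left h3 (ker_nonneg _ _)).trans (le_of_eq ?_)
  unfold ker
  field_simp
  ring

theorem pk_norm_le {M : ℕ} {B : Type} [Fintype B] (A' l L : ℕ) {μ : ℝ} (hμ : 0 ≤ μ)
    {n : Lat d → (Fin M → Bs d) → B → ℂ}
    (hn : ∀ γ (x : (Fin M → Bs d) → ℂ), nsq (∑ ω, x ω • n γ ω) ≤ μ ^ 2 * nsq x)
    (γ : Lat d) {X : Xs d} (hX : X ∈ Om d (1 / 2)) :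
    ‖pk (M + A') l L n γ X‖ ≤ μ * 3 ^ M * ker A' (tr (lat l γ) X) :=
  norm_le_of_nsq_le (mul_nonneg (by positivity) (ker_nonneg _ _)) (nsq_pk_le A' l L hn γ hX)

theorem pk_differentiableOn {M : ℕ} {B : Type} [Fintype B] (A l L : ℕ)
    (n : Lat d → (Fin M → Bs d) → B → ℂ) (γ : Lat d) :
    DifferentiableOn ℂ (pk A l L n γ) (Om d (1 / 2)) := by
  refine differentiableOn_pi.2 fun cb => ?_
  by_cases h : cb.1 = col L γ
  · simp only [pk, h, if_true, Finset.sum_apply, Pi.smul_apply, smul_eq_mul]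
    refine DifferentiableOn.mul (DifferentiableOn.inv ?_ ?_) ?_
    · exact ((differentiable_qq.comp (differentiable_tr _)).pow A).differentiableOn
    · exact fun X hX => pow_ne_zero _ (qq_ne_zero ((tr_mem_Om _).2 hX))
    · refine DifferentiableOn.fun_sum fun ω _ => ?_
      exact (((differentiable_num ω).comp (differentiable_tr _)).mul_const _).differentiableOn
  · simp only [pk, h, if_false]
    exact differentiableOn_const _

theorem pk_ip_eq_zero {M : ℕ} {B : Type} [Fintype B] (A l L : ℕ)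
    (n : Lat d → (Fin M → Bs d) → B → ℂ) {γ γ' : Lat d} (h : col L γ ≠ col L γ') (X : Xs d) :
    ip (pk A l L n γ X) (pk A l L n γ' X) = 0 := by
  unfold ip
  refine Finset.sum_eq_zero fun cb _ => ?_
  by_cases h1 : cb.1 = col L γ
  · have h2 : ¬ cb.1 = col L γ' := fun h2 => h (h1.symm.trans h2)
    simp only [pk, h2, if_false, map_zero, mul_zero]
  · simp only [pk, h1, if_false, zero_mul]

theorem pk_ker_sq (a : ℕ) (X : Xs d) : ker a X ^ 2 = ker (2 * a) X := by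
  unfold ker
  rw [inv_pow, ← pow_mul, mul_comm]

theorem pk_ker_succ (a : ℕ) (X : Xs d) : ker (a + 1) X = ker a X * ‖qq X‖⁻¹ := by
  unfold ker
  rw [pow_succ, mul_inv]

/-- on a small ball the kernels are comparable, uniformly in the translation -/
theorem pk_local {X : Xs d} (hX : X ∈ Om d (1 / 2)) : ∃ R : ℝ, 0 < R ∧
    ball X R ⊆ Om d (1 / 2) ∧ ∀ (a : ℕ) (y : Hs d), ∀ X' ∈ ball X R,
      ker a (tr y X') ≤ 2 ^ a * ker a (tr y X) := by
  obtain ⟨R0, hR0, hb⟩ := Metric.isOpen_iff.1 (isOpen_Om (d := d) (1 / 2)) X hX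
  set K : ℝ := 2 + 2 * d * (1 + 2 * ‖X‖) with hK
  have hKpos : 0 < K := by positivity
  refine ⟨min R0 (1 / (2 * K)), lt_min hR0 (by positivity),
    (ball_subset_ball (min_le_left _ _)).trans hb, fun a y X' hX' => ?_⟩
  have h1 : ‖X' - X‖ ≤ 1 / (2 * K) := by
    rw [mem_ball, dist_eq_norm] at hX'
    exact hX'.le.trans (min_le_right _ _)
  have h2 := qq_perturb hX X' y
  rw [← hK] at h2
  have hq : 0 < ‖qq (tr y X)‖ := norm_pos_iff.2 (qq_ne_zero ((tr_mem_Om _).2 hX))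
  have h3 : ‖X' - X‖ * K ≤ 1 / 2 := by
    calc ‖X' - X‖ * K ≤ 1 / (2 * K) * K := mul_le_mul_of_nonneg_right h1 hKpos.le
      _ = 1 / 2 := by field_simp
  have h4 : ‖qq (tr y X') - qq (tr y X)‖ ≤ 1 / 2 * ‖qq (tr y X)‖ :=
    h2.trans (mul_le_mul_of_nonneg_right h3 hq.le)
  have h5 : ‖qq (tr y X)‖ / 2 ≤ ‖qq (tr y X')‖ := by
    have := norm_sub_norm_le (qq (tr y X)) (qq (tr y X'))
    rw [norm_sub_rev] at this
    linarith
  unfold ker
  calc (‖qq (tr y X')‖ ^ a)⁻¹ ≤ ((‖qq (tr y X)‖ / 2) ^ a)⁻¹ := by gcongr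
    _ = 2 ^ a * (‖qq (tr y X)‖ ^ a)⁻¹ := by
      rw [div_pow]
      field_simp

theorem pk_inv_mul_le {x y s : ℝ} (hs : 0 < s) (hx : 1 / 2 ≤ x) (hy : 1 / 2 ≤ y)
    (h : s ≤ x ∨ s ≤ y) : x⁻¹ * y⁻¹ ≤ 2 / s := by
  have hx0 : 0 < x := by linarith
  have hy0 : 0 < y := by linarith
  rw [← mul_inv, inv_eq_one_div, div_le_div_iff₀ (by positivity) hs]
  rcases h with h | h <;> nlinarith

theorem peaks (d M A' : ℕ) (hA : 2 * d + 3 ≤ A') : ∃ C : ℝ, 0 < C ∧
    ∀ (B : Type) [Fintype B] (l L : ℕ) (μ : ℝ) (n : Lat d → (Fin M → Bs d) → B → ℂ),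
      1 ≤ l → 0 ≤ μ →
      (∀ γ (x : (Fin M → Bs d) → ℂ), nsq (∑ ω, x ω • n γ ω) ≤ μ ^ 2 * nsq x) →
      DifferentiableOn ℂ (fun X => ∑' γ, pk (M + A') l L n γ X) (Om d (1 / 2)) ∧
      ∀ X ∈ Om d (1 / 2), Summable (fun γ => pk (M + A') l L n γ X) ∧
        Summable (fun γ => nsq (pk (M + A') l L n γ X)) ∧
        ∑' γ, nsq (pk (M + A') l L n γ X) ≤ C * μ ^ 2 * (l : ℝ) ^ (2 * d + 2) ∧
        |nsq (∑' γ, pk (M + A') l L n γ X) - ∑' γ, nsq (pk (M + A') l L n γ X)| ≤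
          C * μ ^ 2 * (l : ℝ) ^ (2 * d + 2) * ((l : ℝ) ^ (2 * d + 4) / ((L : ℝ) + 1)) := by
  obtain ⟨a, rfl⟩ : ∃ a, A' = a + 1 := ⟨A' - 1, by omega⟩
  obtain ⟨C1, hC1, h1⟩ := lat_upper d (2 * (a + 1)) (by omega)
  obtain ⟨C2, hC2, h2⟩ := lat_upper d a (by omega)
  refine ⟨(3 ^ M) ^ 2 * (C1 + 4 * C2 ^ 2), by positivity, fun B _ l L μ n hl hμ hn => ⟨?_, ?_⟩⟩
  · intro X hX
    obtain ⟨R, hR, hb, hk⟩ := pk_local hX
    refine (differentiableAt_tsum (fun γ => pk (M + (a + 1)) l L n γ)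
      (fun γ => μ * 3 ^ M * (2 ^ (a + 1) * ker (a + 1) (tr (lat l γ) X)))
      (((summable_ker (by omega) hl hX).mul_left _).mul_left _) hR
      (fun γ => (pk_differentiableOn _ l L n γ).mono hb) fun γ Y hY => ?_).differentiableWithinAt
    exact (pk_norm_le (a + 1) l L hμ hn γ (hb hY)).trans
      (mul_le_mul_of_nonneg_left (hk _ _ Y hY) (by positivity))
  · intro X hX
    have hl0 : (0 : ℝ) < l := by exact_mod_cast hl
    have hs : Summable (fun γ => pk (M + (a + 1)) l L n γ X) :=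
      Summable.of_norm_bounded ((summable_ker (a := a + 1) (by omega) hl hX).mul_left (μ * 3 ^ M))
        fun γ => pk_norm_le (a + 1) l L hμ hn γ hX
    have hb : ∀ γ, nsq (pk (M + (a + 1)) l L n γ X) ≤
        (μ * 3 ^ M) ^ 2 * ker (2 * (a + 1)) (tr (lat l γ) X) := fun γ => by
      have := nsq_pk_le (a + 1) l L hn γ hX
      rwa [mul_pow, pk_ker_sq] at this
    have hs2 : Summable (fun γ => nsq (pk (M + (a + 1)) l L n γ X)) :=
      Summable.of_nonneg_of_le (fun _ => nsq_nonneg _) hb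
        ((summable_ker (by omega) hl hX).mul_left _)
    refine ⟨hs, hs2, ?_, ?_⟩
    · refine hs2.tsum_le_of_sum_le fun s => ?_
      calc ∑ γ ∈ s, nsq (pk (M + (a + 1)) l L n γ X)
          ≤ ∑ γ ∈ s, (μ * 3 ^ M) ^ 2 * ker (2 * (a + 1)) (tr (lat l γ) X) :=
            Finset.sum_le_sum fun γ _ => hb γ
        _ = (μ * 3 ^ M) ^ 2 * ∑ γ ∈ s, ker (2 * (a + 1)) (tr (lat l γ) X) := by
            rw [Finset.mul_sum]
        _ ≤ (μ * 3 ^ M) ^ 2 * (C1 * (l : ℝ) ^ (2 * d + 2)) :=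
            mul_le_mul_of_nonneg_left (h1 l hl X hX s) (sq_nonneg _)
        _ = (3 ^ M) ^ 2 * C1 * μ ^ 2 * (l : ℝ) ^ (2 * d + 2) := by ring
        _ ≤ _ := by
            gcongr
            exact le_add_of_nonneg_right (by positivity)
    · have hw : (0 : ℝ) ≤ (μ * 3 ^ M) ^ 2 * (4 * (l : ℝ) ^ 2 / ((L : ℝ) + 1)) := by positivity
      have key := offdiag (fun γ => pk (M + (a + 1)) l L n γ X)
        (fun γ => ker a (tr (lat l γ) X)) _ _ hs hs2 (fun γ => ker_nonneg _ _)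
        (h2 l hl X hX) hw (fun γ γ' hne => ?_)
      · refine key.trans ?_
        calc (μ * 3 ^ M) ^ 2 * (4 * (l : ℝ) ^ 2 / ((L : ℝ) + 1)) *
              (C2 * (l : ℝ) ^ (2 * d + 2)) ^ 2
            = (3 ^ M) ^ 2 * (4 * C2 ^ 2) * μ ^ 2 * (l : ℝ) ^ (2 * d + 2) *
              ((l : ℝ) ^ (2 * d + 4) / ((L : ℝ) + 1)) := by ring
          _ ≤ _ := by
              gcongr
              exact le_add_of_nonneg_left hC1.le
      · by_cases hc : col L γ = col L γ'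
        · have hsep := lat_sep hl hc hne hX
          have hi := pk_inv_mul_le (by positivity) (half_le_norm_qq ((tr_mem_Om _).2 hX))
            (half_le_norm_qq ((tr_mem_Om _).2 hX)) hsep
          have e : (2 : ℝ) / (((L : ℝ) + 1) / (2 * (l : ℝ) ^ 2)) =
              4 * (l : ℝ) ^ 2 / ((L : ℝ) + 1) := by
            field_simp
            ring
          rw [e] at hi
          refine (norm_ip_le_mul (mul_nonneg (by positivity) (ker_nonneg _ _))
            (mul_nonneg (by positivity) (ker_nonneg _ _)) (nsq_pk_le (a + 1) l L hn γ hX)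
            (nsq_pk_le (a + 1) l L hn γ' hX)).trans ?_
          rw [pk_ker_succ, pk_ker_succ]
          have k1 := ker_nonneg a (tr (lat l γ) X)
          have k2 := ker_nonneg a (tr (lat l γ') X)
          calc μ * 3 ^ M * (ker a (tr (lat l γ) X) * ‖qq (tr (lat l γ) X)‖⁻¹) *
                (μ * 3 ^ M * (ker a (tr (lat l γ') X) * ‖qq (tr (lat l γ') X)‖⁻¹))
              = (μ * 3 ^ M) ^ 2 * (‖qq (tr (lat l γ) X)‖⁻¹ * ‖qq (tr (lat l γ') X)‖⁻¹) *
                (ker a (tr (lat l γ) X) * ker a (tr (lat l γ') X)) := by ring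
            _ ≤ _ := by gcongr
        · rw [pk_ip_eq_zero _ l L n hc, norm_zero]
          exact mul_nonneg hw (mul_nonneg (ker_nonneg _ _) (ker_nonneg _ _))

end Pool.Agent.Lib.MP_601e9e_an
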