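import Pool.Agent.Lib.MP_601e9e_an.Cross
import Pool.Agent.Lib.MP_601e9e_an.Jet
import Pool.Agent.Lib.MP_601e9e_an.Gram

/-!
One step of the construction, before the choice of the parameters.
-/

set_option autoImplicit false

open Complex Metric Set ComplexConjugate

namespace Pool.Agent.Lib.MP_601e9e_an

variable {d : ℕ}

/-- the block type -/
abbrev Bl (d M m : ℕ) : Type := Option (Idx (Lt d) m) ⊕ (Fin M → Bs d)

theorem st_ker_mul {X : Xs d} (hX : X ∈ Om d (1 / 2)) (a b : ℕ) :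
    ker (a + b) X * ‖qq X‖ ^ b = ker a X := by
  have : ‖qq X‖ ≠ 0 := norm_ne_zero_iff.2 (qq_ne_zero hX)
  unfold ker
  rw [pow_add]
  field_simp

theorem st_re_bounds {ε : Ps d → ℂ} {lam : ℝ} (h : Err ε lam) (hl : 0 < lam) (y : Hs d) :
    1 / 2 ≤ (ε (rp y)).re ∧ (ε (rp y)).re ≤ 3 / 2 := by
  have h1 := (abs_re_le_norm _).trans (h.bd _ (rp_mem_Dm hl y))
  rw [sub_re, one_re, abs_le] at h1
  constructor <;> linarith [h1.1, h1.2]

/-- The contribution of one lattice point at a real point. -/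
theorem st_diag {M : ℕ} {J B : Type} [Fintype J] [Fintype B] (A' l L : ℕ)
    (n : Lat d → (Fin M → Bs d) → B → ℂ) (γ : Lat d) (x : Hs d) (w : J → List (Lt d ⊕ Lt d))
    (ω₁ ω₂ : J → Fin M → Bs d)
    (hw : ∀ a (X : Xs d), mon c2 (w a) (X, star X) = num (ω₁ a) X * conj (num (ω₂ a) X))
    (v : J → ℂ) {θ c R : ℝ} (hc : 0 < c) (e₀ e₁ : ℂ)
    (hn : ∀ u : (Fin M → Bs d) → ℂ, nsq (∑ ω, u ω • n γ ω) =
      θ * nsq u + (e₁.re - 1 / 4) / c * ‖u fun _ => Sum.inl none‖ ^ 2 +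
        (∑ a, u (ω₁ a) * conj (u (ω₂ a)) * (v a / c)).re)
    (hR : ‖e₀ - e₁ - ∑ a, mon c2 (w a) (tr (lat l γ) (pt x), star (tr (lat l γ) (pt x))) * v a‖
      ≤ R) :
    ‖nsq (pk (M + A') l L n γ (pt x)) - (θ * ker (2 * A') (tr (lat l γ) (pt x)) +
      (e₀.re - 1 / 4) / c * ker (2 * (M + A')) (tr (lat l γ) (pt x)))‖ ≤
      R / c * ker (2 * (M + A')) (tr (lat l γ) (pt x)) := by
  obtain ⟨u, hu⟩ : ∃ u, u = tr (lat l γ) (pt x) := ⟨_, rfl⟩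
  have hu0 : rho u = 0 := by rw [hu, rho_tr, rho_pt]
  have huO : u ∈ Om d (1 / 2) := by
    simp only [Om, mem_ofPred_eq, hu0]
    norm_num
  rw [nsq_pk, hn, nsq_num, num_const]
  rw [← hu] at hR ⊢
  have e1 : ker (2 * (M + A')) u * (‖qq u‖ ^ 2 - 2 * rho u) ^ M = ker (2 * A') u := by
    rw [hu0, mul_zero, sub_zero, ← pow_mul, show 2 * (M + A') = 2 * A' + 2 * M by ring,
      st_ker_mul huO]
  have e2 : (∑ a, num (ω₁ a) u * conj (num (ω₂ a) u) * (v a / c)).re =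
      (∑ a, mon c2 (w a) (u, star u) * v a).re / c := by
    rw [← div_ofReal_re, Finset.sum_div]
    congr 1
    exact Finset.sum_congr rfl fun a _ => by rw [hw, mul_div_assoc]
  have h3 := (abs_re_le_norm _).trans hR
  rw [sub_re, sub_re] at h3
  rw [e2, ← e1, norm_one, one_pow, mul_one]
  have e4 : ∀ K P T : ℝ, K * (θ * P + (e₁.re - 1 / 4) / c + T / c) -
      (θ * (K * P) + (e₀.re - 1 / 4) / c * K) = -((e₀.re - e₁.re - T) / c * K) := by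
    intro K P T
    ring
  rw [e4, norm_neg, Real.norm_eq_abs, abs_mul, abs_div, abs_of_pos hc,
    abs_of_nonneg (ker_nonneg _ _)]
  have := ker_nonneg (2 * (M + A')) u
  gcongr

theorem st_close {S c K l t : ℝ} (hc : 0 < c) (h : |S - c| ≤ K / l * c) :
    |t / c * S - t| ≤ |t| * (K / l) := by
  have e : t / c * S - t = t * ((S - c) / c) := by
    field_simp
  rw [e, abs_mul, abs_div, abs_of_pos hc]
  refine mul_le_mul_of_nonneg_left ?_ (abs_nonneg t)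
  rwa [div_le_iff₀ hc]

theorem step (d M m : ℕ) : ∃ C : ℝ, 1 ≤ C ∧
    ∀ (l L : ℕ) (r lam τ β : ℝ) (F : Xs d → Col d L × Bl d M m → ℂ) (ε : Ps d → ℂ),
      C ≤ l → C ≤ r → (2 * d + 1) * r ^ 2 ≤ lam → 0 ≤ β → τ ^ 2 ≤ 1 / 8 → Err ε lam →
      Jet m F β (1 / 2) →
      ∃ g : Xs d → Col d L × Bl d M m → ℂ, DifferentiableOn ℂ g (Om d (1 / 2)) ∧
        (∀ X ∈ Om d (1 / 2), nsq (g X) ≤ C * (1 + (l : ℝ) ^ (2 * d + 4) / ((L : ℝ) + 1))) ∧
        (∀ p ∈ Dm d (1 / 2), ‖ip (F (pi1 p)) (g (pi2 p))‖ ≤ C * β * (l : ℝ) ^ (d + 1) ∧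
          ‖ip (g (pi1 p)) (F (pi2 p))‖ ≤ C * β * (l : ℝ) ^ (d + 1)) ∧
        ∀ y : Hs d, |(ε (rp y)).re - nsq (g (pt y)) - τ ^ 2| ≤
          C * (1 / r ^ (M + 1) + 1 / l + (l : ℝ) ^ (2 * d + 4) / ((L : ℝ) + 1)) := by
  classical
  obtain ⟨A', hA'⟩ : ∃ A', A' = m + 1 + (2 * d + 3) := ⟨_, rfl⟩
  obtain ⟨a₃, ha₃⟩ : ∃ a₃, 2 * (M + A') = a₃ + (M + 1) := ⟨M + 2 * A' - 1, by omega⟩
  obtain ⟨CT, hCT, hT⟩ := local_taylor d M
  obtain ⟨CP, hCP, hP⟩ := peaks d M A' (by omega)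
  obtain ⟨CX, hCX, hX⟩ := cross d M m A' (by omega)
  obtain ⟨c₁, hc₁, hlow₁⟩ := lat_lower d (2 * (M + A')) (by omega)
  obtain ⟨c₂, hc₂, hlow₂⟩ := lat_lower d (2 * A') (by omega)
  obtain ⟨U₂, hU₂, hup₂⟩ := SS_upper d (2 * A') (by omega)
  obtain ⟨U₃, hU₃, hup₃⟩ := SS_upper d a₃ (by omega)
  obtain ⟨K₁, hK₁, hk₁⟩ := lat_const d (2 * (M + A')) (by omega)
  obtain ⟨K₂, hK₂, hk₂⟩ := lat_const d (2 * A') (by omega)
  obtain ⟨μ₀, hμ₀⟩ : ∃ μ₀ : ℝ, μ₀ = 1 + 1 / (2 * c₂) + 2 / c₁ := ⟨_, rfl⟩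
  have hμa : 0 < 1 / (2 * c₂) := by positivity
  have hμb : 0 < 2 / c₁ := by positivity
  have hμ1 : 1 ≤ μ₀ := by linarith
  have hμ2 : 1 / (2 * c₂) + 2 / c₁ ≤ μ₀ ^ 2 := by
    have := le_self_pow₀ hμ1 two_ne_zero
    linarith
  have t1 : 0 < 8 * CT * U₂ / c₁ := by positivity
  have t2 : 0 < CP * μ₀ ^ 2 := by positivity
  have t3 : 0 ≤ CX * Fintype.card (Bl d M m) * μ₀ := by positivity
  have t4 : 0 < CT * U₃ / c₁ := by positivity
  obtain ⟨C, hC⟩ : ∃ C : ℝ, C = 2 * K₁ + K₂ + 8 * CT * U₂ / c₁ + CP * μ₀ ^ 2 +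
    CX * Fintype.card (Bl d M m) * μ₀ + CT * U₃ / c₁ := ⟨_, rfl⟩
  refine ⟨C, by linarith, fun l L r lam τ β F ε hl hr hlam hβ hτ hε hJ => ?_⟩
  have hl1 : (1 : ℝ) ≤ l := by linarith
  have hl1' : 1 ≤ l := by exact_mod_cast hl1
  have hr1 : 1 ≤ r := by linarith
  have hlam0 : 0 < lam := lt_of_lt_of_le (by positivity) hlam
  have h0 : (0 : Xs d) ∈ Om d (1 / 2) := by
    simp only [Om, mem_ofPred_eq, rho, Prod.snd_zero, Prod.fst_zero, nsq_zero, zero_im]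
    norm_num
  obtain ⟨N, hN⟩ : ∃ N : ℝ, N = (l : ℝ) ^ (2 * d + 2) := ⟨_, rfl⟩
  have hN0 : 0 < N := by rw [hN]; positivity
  obtain ⟨c, hc⟩ : ∃ c, c = SS (2 * (M + A')) l (0 : Xs d) := ⟨_, rfl⟩
  obtain ⟨c', hc'⟩ : ∃ c', c' = SS (2 * A') l (0 : Xs d) := ⟨_, rfl⟩
  have hcl : c₁ * N ≤ c := by rw [hN, hc]; exact hlow₁ l hl1'
  have hcl' : c₂ * N ≤ c' := by rw [hN, hc']; exact hlow₂ l hl1'
  have hcu' : c' ≤ U₂ * N := by rw [hN, hc']; exact hup₂ l hl1' 0 h0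
  have hc0 : 0 < c := lt_of_lt_of_le (by positivity) hcl
  have hc0' : 0 < c' := lt_of_lt_of_le (by positivity) hcl'
  have hτ0 := sq_nonneg τ
  choose vT hvT hvR using fun γ : Lat d =>
    hT r lam ε hr1 hlam hε.diff hε.bd (-lat l γ)
  choose vJ hvJ using fun γ : Lat d => hJ (-lat l γ)
  choose ω₁ ω₂ hω using fun a : Idx (Lt d ⊕ Lt d) M => exists_words (wd a) (wd_length a).2
  have hθ : ∀ γ, ∑ a, ‖vT γ a / (c : ℂ)‖ ≤ (1 / 4 - τ ^ 2) / c' := fun γ => by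
    simp only [norm_div, norm_real, Real.norm_of_nonneg hc0.le]
    rw [← Finset.sum_div]
    have h1 : 8 * CT * U₂ ≤ r * c₁ := by
      rw [← div_le_iff₀ hc₁]
      linarith
    calc (∑ a, ‖vT γ a‖) / c ≤ CT / r / (c₁ * N) := by gcongr; exact hvT γ
      _ ≤ 1 / 8 / (U₂ * N) := by
        rw [div_div, div_div, div_le_div_iff₀ (by positivity) (by positivity)]
        linarith [mul_le_mul_of_nonneg_right h1 hN0.le]
      _ ≤ (1 / 4 - τ ^ 2) / c' := by gcongr <;> linarith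
  choose n hn1 hn2 hn3 using fun γ : Lat d =>
    gram (fun _ : Fin M => (Sum.inl none : Bs d)) ω₁ ω₂ (fun a => vT γ a / (c : ℂ))
      ((1 / 4 - τ ^ 2) / c') (((ε (rp (-lat l γ))).re - 1 / 4) / c) (hθ γ)
      (div_nonneg (by linarith [(st_re_bounds hε hlam0 (-lat l γ)).1]) hc0.le)
      (fun a b => vJ γ a (col L γ, b))
  obtain ⟨μ, hμ⟩ : ∃ μ : ℝ, μ = μ₀ / (l : ℝ) ^ (d + 1) := ⟨_, rfl⟩
  have hμ0 : 0 ≤ μ := by rw [hμ]; positivity
  have hμN : μ ^ 2 * N = μ₀ ^ 2 := by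
    rw [hμ, hN, div_pow, ← pow_mul, show (d + 1) * 2 = 2 * d + 2 by ring]
    field_simp
  have hμl : μ * N = μ₀ * (l : ℝ) ^ (d + 1) := by
    rw [hμ, hN, show 2 * d + 2 = (d + 1) + (d + 1) by ring, pow_add (l : ℝ) (d + 1)]
    field_simp
  have hn : ∀ γ (x : (Fin M → Bs d) → ℂ), nsq (∑ ω, x ω • n γ ω) ≤ μ ^ 2 * nsq x := by
    intro γ x
    refine (hn2 γ x).trans (mul_le_mul_of_nonneg_right ?_ (nsq_nonneg x))
    have h1 : (1 / 4 - τ ^ 2) / c' ≤ 1 / 4 / (c₂ * N) := by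
      gcongr
      linarith
    have h2 : ((ε (rp (-lat l γ))).re - 1 / 4) / c ≤ 2 / (c₁ * N) := by
      gcongr
      linarith [(st_re_bounds hε hlam0 (-lat l γ)).2]
    have h3 : μ ^ 2 = μ₀ ^ 2 / N := by rw [← hμN]; field_simp
    have h4 : 2 * (1 / 4 / (c₂ * N)) + 2 / (c₁ * N) = (1 / (2 * c₂) + 2 / c₁) / N := by
      field_simp
      ring
    have h5 : (1 / (2 * c₂) + 2 / c₁) / N ≤ μ₀ ^ 2 / N := by
      gcongr
    linarith
  obtain ⟨hdiff, hpk⟩ := hP (Bl d M m) l L μ n hl1' hμ0 hn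
  have hcr := hX (Bl d M m) l L μ β n F vJ hl1' hμ0 hβ hn hvJ hn3
  obtain ⟨E, hE⟩ : ∃ E : ℝ, E = (l : ℝ) ^ (2 * d + 4) / ((L : ℝ) + 1) := ⟨_, rfl⟩
  have hE0 : 0 ≤ E := by rw [hE]; positivity
  rw [← hE]
  simp only [← hE, ← hN] at hpk hcr
  have hcb : CX * Fintype.card (Bl d M m) * β * μ * N ≤ C * β * (l : ℝ) ^ (d + 1) := by
    rw [mul_assoc _ μ, hμl]
    have : CX * Fintype.card (Bl d M m) * μ₀ ≤ C := by linarith
    calc CX * Fintype.card (Bl d M m) * β * (μ₀ * (l : ℝ) ^ (d + 1))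
        = CX * Fintype.card (Bl d M m) * μ₀ * β * (l : ℝ) ^ (d + 1) := by ring
      _ ≤ _ := by gcongr
  have hPC : CP * μ ^ 2 * N ≤ C := by
    rw [mul_assoc, hμN]
    linarith
  refine ⟨_, hdiff, fun X hXO => ?_, fun p hp => ⟨?_, ?_⟩, fun x => ?_⟩
  · obtain ⟨-, -, h3, h4⟩ := hpk X hXO
    have h5 := (abs_le.1 h4).2
    have h6 := mul_le_mul_of_nonneg_right hPC hE0
    linarith
  · refine (hcr _ hp.1 _ hp.2 fun y => ?_).trans hcb
    rw [← pi1_act, ← pi2_act]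
    exact (qq_compare ((act_mem_Dm y).2 hp)).1
  · rw [← conj_ip, RCLike.norm_conj]
    refine (hcr _ hp.2 _ hp.1 fun y => ?_).trans hcb
    rw [← pi1_act, ← pi2_act]
    exact (qq_compare ((act_mem_Dm y).2 hp)).2
  · have hxO : pt x ∈ Om d (1 / 2) := pt_mem_Om (by norm_num) x
    obtain ⟨-, hs, -, h4⟩ := hpk _ hxO
    have s1 := (summable_ker (a := 2 * (M + A')) (by omega) hl1' hxO).hasSum
    have s2 := (summable_ker (a := 2 * A') (by omega) hl1' hxO).hasSum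
    have s3 := (summable_ker (a := a₃) (by omega) hl1' hxO).hasSum
    have s4 := hs.hasSum.sub ((s2.mul_left ((1 / 4 - τ ^ 2) / c')).add
      (s1.mul_left (((ε (rp x)).re - 1 / 4) / c)))
    have hd := s4.norm_le_of_bounded (s3.mul_left (CT / r ^ (M + 1) / c)) fun γ => by
      have h1 := hvR γ (hmul (lat l γ) x)
      rw [hmul_neg_hmul, ← tr_pt] at h1
      refine (st_diag A' l L n γ x wd ω₁ ω₂ hω (vT γ) hc0 _ _ (hn1 γ) h1).trans (le_of_eq ?_)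
      rw [ha₃, ← st_ker_mul ((tr_mem_Om _).2 hxO) a₃ (M + 1), div_pow]
      ring
    have k1 := st_close (t := (ε (rp x)).re - 1 / 4) hc0 (hc ▸ hk₁ l (by linarith) x)
    have k2 := st_close (t := 1 / 4 - τ ^ 2) hc0' (hc' ▸ hk₂ l (by linarith) x)
    obtain ⟨b1, b2⟩ := st_re_bounds hε hlam0 x
    have hl0 : (0 : ℝ) < l := by linarith
    have k3 : |(ε (rp x)).re - 1 / 4| * (K₁ / l) ≤ 2 * K₁ * (1 / l) := by
      rw [abs_of_nonneg (by linarith), mul_one_div, mul_div_assoc]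
      gcongr
      linarith
    have k4 : |1 / 4 - τ ^ 2| * (K₂ / l) ≤ K₂ * (1 / l) := by
      rw [abs_of_nonneg (by linarith), mul_one_div]
      refine mul_le_of_le_one_left (by positivity) (by linarith)
    have k5 : CT / r ^ (M + 1) / c * SS a₃ l (pt x) ≤ CT * U₃ / c₁ * (1 / r ^ (M + 1)) := by
      have h1 : SS a₃ l (pt x) ≤ U₃ * N := by rw [hN]; exact hup₃ l hl1' _ hxO
      calc CT / r ^ (M + 1) / c * SS a₃ l (pt x) ≤ CT / r ^ (M + 1) / c * (U₃ * N) := by gcongr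
        _ ≤ CT / r ^ (M + 1) / (c₁ * N) * (U₃ * N) := by gcongr
        _ = _ := by field_simp
    have k6 : CT * U₃ / c₁ * (1 / r ^ (M + 1)) ≤ C * (1 / r ^ (M + 1)) := by
      gcongr
      linarith
    have k7 : (2 * K₁ + K₂) * (1 / (l : ℝ)) ≤ C * (1 / l) := by
      gcongr
      linarith
    have k8 := mul_le_mul_of_nonneg_right hPC hE0
    rw [Real.norm_eq_abs] at hd
    unfold SS at k1 k2 k5
    rw [abs_le] at hd k1 k2 h4 ⊢
    constructor <;> linarith [hd.1, hd.2, k1.1, k1.2, k2.1, k2.2, h4.1, h4.2]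

end Pool.Agent.Lib.MP_601e9e_an
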