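import Pool.Agent.Lib.MP_601e9e_an.Basic

/-!
Taylor expansion of bounded holomorphic maps with uniform constants.
-/

set_option autoImplicit false

open Complex Metric Set ComplexConjugate

namespace Pool.Agent.Lib.MP_601e9e_an

variable {d : ℕ}

theorem tay_norm_mon {ι E : Type} [NormedAddCommGroup E] (c : ι → E → ℂ)
    (hc : ∀ i p, ‖c i p‖ ≤ ‖p‖) (p : E) : ∀ l : List ι, ‖mon c l p‖ ≤ ‖p‖ ^ l.length
  | [] => by simp [mon]
  | i :: l => by
    have h := tay_norm_mon c hc p l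
    simp only [mon, List.map_cons, List.prod_cons, List.length_cons, norm_mul] at h ⊢
    rw [pow_succ']
    exact mul_le_mul (hc i p) h (norm_nonneg _) (norm_nonneg _)

theorem tay_mon_smul {ι E : Type} [NormedAddCommGroup E] [NormedSpace ℂ E] (c : ι → E → ℂ)
    (hc : ∀ i (s : ℂ) p, c i (s • p) = s * c i p) (s : ℂ) (p : E) :
    ∀ l : List ι, mon c l (s • p) = s ^ l.length * mon c l p
  | [] => by simp [mon]
  | i :: l => by
    have h := tay_mon_smul c hc s p l
    simp only [mon, List.map_cons, List.prod_cons, List.length_cons] at h ⊢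
    rw [h, hc]
    ring

theorem tay_mon_cons {ι E : Type} (c : ι → E → ℂ) (i : ι) (l : List ι) (p : E) :
    mon c (i :: l) p = c i p * mon c l p := by
  simp [mon]

theorem tay_far {ι : Type} [Fintype ι] {M : ℕ} {E W : Type} [NormedAddCommGroup E]
    [NormedAddCommGroup W] [NormedSpace ℂ W] (c : ι → E → ℂ) (hc : ∀ i p, ‖c i p‖ ≤ ‖p‖)
    {r B C : ℝ} (hr : 0 < r) (hC : 0 ≤ C) (v : Idx ι M → W)
    (hv : ∀ a, ‖v a‖ ≤ C * B / r ^ (wd a).length) {x y : W} (hx : ‖x‖ ≤ B) (hy : ‖y‖ ≤ B)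
    {p : E} (hp : r / 2 ≤ ‖p‖) :
    ‖x - y - ∑ a, mon c (wd a) p • v a‖ ≤
      (2 + Fintype.card (Idx ι M) * C) * 2 ^ (M + 1) * B * (‖p‖ / r) ^ (M + 1) := by
  have hB : 0 ≤ B := (norm_nonneg _).trans hx
  have ht0 : 0 ≤ ‖p‖ / r := by positivity
  have ht : 1 ≤ 2 * (‖p‖ / r) := by
    rw [← mul_div_assoc, le_div_iff₀ hr]
    linarith
  have h1 : 1 ≤ (2 * (‖p‖ / r)) ^ (M + 1) := one_le_pow₀ ht
  have h2 : ∀ a : Idx ι M, ‖mon c (wd a) p • v a‖ ≤ C * B * (2 * (‖p‖ / r)) ^ (M + 1) := by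
    intro a
    rw [norm_smul]
    calc ‖mon c (wd a) p‖ * ‖v a‖ ≤ ‖p‖ ^ (wd a).length * (C * B / r ^ (wd a).length) :=
          mul_le_mul (tay_norm_mon c hc p _) (hv a) (norm_nonneg _) (by positivity)
      _ = C * B * (‖p‖ / r) ^ (wd a).length := by rw [div_pow]; ring
      _ ≤ C * B * (2 * (‖p‖ / r)) ^ (wd a).length := by
          gcongr
          linarith
      _ ≤ C * B * (2 * (‖p‖ / r)) ^ (M + 1) :=
          mul_le_mul_of_nonneg_left (pow_le_pow_right₀ ht (by have := (wd_length a).2; omega))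
            (by positivity)
  have h3 : ‖∑ a, mon c (wd a) p • v a‖ ≤
      Fintype.card (Idx ι M) * (C * B * (2 * (‖p‖ / r)) ^ (M + 1)) := by
    refine (norm_sum_le _ _).trans ((Finset.sum_le_sum fun a _ => h2 a).trans_eq ?_)
    simp [Finset.card_univ]
  have h4 : B ≤ B * (2 * (‖p‖ / r)) ^ (M + 1) := le_mul_of_one_le_right hB h1
  calc ‖x - y - ∑ a, mon c (wd a) p • v a‖ ≤ ‖x‖ + ‖y‖ + ‖∑ a, mon c (wd a) p • v a‖ :=
        (norm_sub_le _ _).trans (by gcongr; exact norm_sub_le _ _)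
    _ ≤ B * (2 * (‖p‖ / r)) ^ (M + 1) + B * (2 * (‖p‖ / r)) ^ (M + 1) +
        Fintype.card (Idx ι M) * (C * B * (2 * (‖p‖ / r)) ^ (M + 1)) := by
        linarith
    _ = _ := by rw [mul_pow]; ring

theorem tay_sum_idx {ι : Type} [Fintype ι] {M : ℕ} {W : Type} [AddCommMonoid W]
    (g : Idx ι (M + 1) → W) :
    ∑ a, g a = ∑ i : ι, (g (none, i) + ∑ a : Idx ι M, g (some a, i)) := by
  have h : ∑ a, g a = ∑ a : Option (Idx ι M) × ι, g a := rfl
  rw [h, Fintype.sum_prod_type_right]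
  exact Finset.sum_congr rfl fun i _ => Fintype.sum_option _

theorem tay_near {ι : Type} [Fintype ι] {M : ℕ} {E W : Type} [NormedAddCommGroup E]
    [NormedSpace ℂ E] [NormedAddCommGroup W] [NormedSpace ℂ W] (e : ι → E) (c : ι → E → ℂ)
    (he : ∀ p, ∑ i, c i p • e i = p) (hc : ∀ i p, ‖c i p‖ ≤ ‖p‖)
    (hs : ∀ i (s : ℂ) p, c i (s • p) = s * c i p) (f : E → W) {r K : ℝ}
    (hf : DifferentiableOn ℂ f (ball 0 r)) (v : ι → Idx ι M → W) {p : E} (hp : ‖p‖ < r)
    (hv : ∀ i (s : ℂ), ‖s‖ ≤ 1 → ‖fderiv ℂ f (s • p) (e i) - fderiv ℂ f 0 (e i) -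
      ∑ a, mon c (wd a) (s • p) • v i a‖ ≤ K) :
    ‖f p - f 0 - ∑ i, (c i p • fderiv ℂ f 0 (e i) + ∑ a : Idx ι M,
      (c i p * mon c (wd a) p) • ((((wd a).length : ℂ) + 1)⁻¹ • v i a))‖ ≤
      Fintype.card ι * (‖p‖ * K) := by
  set φ : ℂ → W := fun s => f (s • p) - ∑ i, ((s * c i p) • fderiv ℂ f 0 (e i) +
    ∑ a : Idx ι M, (s ^ ((wd a).length + 1) * (c i p * mon c (wd a) p)) •
      ((((wd a).length : ℂ) + 1)⁻¹ • v i a)) with hφ
  set φ' : ℂ → W := fun s => ∑ i, c i p • (fderiv ℂ f (s • p) (e i) - fderiv ℂ f 0 (e i) -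
      ∑ a, mon c (wd a) (s • p) • v i a) with hφ'
  have hd : ∀ s ∈ closedBall (0 : ℂ) 1, HasDerivWithinAt φ (φ' s) (closedBall 0 1) s := by
    intro s hs1
    refine HasDerivAt.hasDerivWithinAt ?_
    have hsp : s • p ∈ ball (0 : E) r := by
      rw [mem_ball_zero_iff, norm_smul]
      rw [mem_closedBall_zero_iff] at hs1
      nlinarith [norm_nonneg p, norm_nonneg s]
    have h1 : HasDerivAt (fun s : ℂ => f (s • p)) (fderiv ℂ f (s • p) p) s := by
      have h0 : HasDerivAt (fun s : ℂ => s • p) p s := by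
        simpa using (hasDerivAt_id s).smul_const p
      exact (hf.differentiableAt (isOpen_ball.mem_nhds hsp)).hasFDerivAt.comp_hasDerivAt s h0
    have h2 : HasDerivAt (fun s : ℂ => ∑ i, ((s * c i p) • fderiv ℂ f 0 (e i) +
        ∑ a : Idx ι M, (s ^ ((wd a).length + 1) * (c i p * mon c (wd a) p)) •
          ((((wd a).length : ℂ) + 1)⁻¹ • v i a)))
        (∑ i, ((1 * c i p) • fderiv ℂ f 0 (e i) +
          ∑ a : Idx ι M, (((((wd a).length + 1 : ℕ) : ℂ) * s ^ ((wd a).length + 1 - 1)) *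
            (c i p * mon c (wd a) p)) • ((((wd a).length : ℂ) + 1)⁻¹ • v i a))) s := by
      refine HasDerivAt.fun_sum fun i _ => HasDerivAt.fun_add ?_ ?_
      · exact ((hasDerivAt_id s).mul_const _).smul_const _
      · exact HasDerivAt.fun_sum fun a _ => ((hasDerivAt_pow _ s).mul_const _).smul_const _
    convert h1.fun_sub h2 using 1
    have h3 : fderiv ℂ f (s • p) p = ∑ i, c i p • fderiv ℂ f (s • p) (e i) := by
      conv_lhs => arg 2; rw [← he p]
      rw [map_sum]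
      simp only [map_smul]
    rw [h3, hφ', ← Finset.sum_sub_distrib]
    refine Finset.sum_congr rfl fun i _ => ?_
    rw [smul_sub, smul_sub, sub_sub, one_mul, Finset.smul_sum]
    congr 2
    refine Finset.sum_congr rfl fun a _ => ?_
    have hne : ((wd a).length : ℂ) + 1 ≠ 0 := by
      exact_mod_cast Nat.succ_ne_zero (wd a).length
    rw [tay_mon_smul c hs, smul_smul, smul_smul]
    congr 1
    push_cast
    field_simp
  have hb : ∀ s ∈ closedBall (0 : ℂ) 1, ‖φ' s‖ ≤ Fintype.card ι * (‖p‖ * K) := by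
    intro s hs1
    rw [mem_closedBall_zero_iff] at hs1
    refine (norm_sum_le _ _).trans ((Finset.sum_le_sum (g := fun _ => ‖p‖ * K)
      fun i _ => ?_).trans_eq (by simp [Finset.card_univ]))
    rw [norm_smul]
    exact mul_le_mul (hc i p) (hv i s hs1) (norm_nonneg _) (norm_nonneg _)
  have key := (convex_closedBall (0 : ℂ) 1).norm_image_sub_le_of_norm_hasDerivWithin_le hd hb
    (x := 0) (y := 1) (by simp) (by simp)
  have e1 : φ 1 - φ 0 = f p - f 0 - ∑ i, (c i p • fderiv ℂ f 0 (e i) + ∑ a : Idx ι M,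
      (c i p * mon c (wd a) p) • ((((wd a).length : ℂ) + 1)⁻¹ • v i a)) := by
    simp only [hφ, one_smul, one_mul, one_pow, zero_smul, zero_mul, ne_eq, Nat.add_eq_zero_iff,
      one_ne_zero, and_false, not_false_eq_true, zero_pow, Finset.sum_const_zero, add_zero,
      sub_zero]
    abel
  rw [e1] at key
  simpa using key

theorem taylor (ι : Type) [Fintype ι] (M : ℕ) : ∃ C : ℝ, 1 ≤ C ∧
    ∀ (E W : Type) [NormedAddCommGroup E] [NormedSpace ℂ E] [NormedAddCommGroup W]
      [NormedSpace ℂ W] [CompleteSpace W] (e : ι → E) (c : ι → E → ℂ),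
      (∀ p, ∑ i, c i p • e i = p) → (∀ i p, ‖c i p‖ ≤ ‖p‖) → (∀ i, ‖e i‖ ≤ 1) →
      (∀ i (s : ℂ) p, c i (s • p) = s * c i p) →
      ∀ (f : E → W) (r B : ℝ), 0 < r → DifferentiableOn ℂ f (ball 0 r) →
        (∀ p ∈ ball (0 : E) r, ‖f p‖ ≤ B) →
        ∃ v : Idx ι M → W, (∀ a, ‖v a‖ ≤ C * B / r ^ (wd a).length) ∧
          ∀ p, ‖f p‖ ≤ B →
            ‖f p - f 0 - ∑ a, mon c (wd a) p • v a‖ ≤ C * B * (‖p‖ / r) ^ (M + 1) := by
  induction M with
  | zero =>
    refine ⟨2, by norm_num, fun E W _ _ _ _ _ e c _ _ _ _ f r B hr hf hB =>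
      ⟨fun a => Empty.elim a, fun a => Empty.elim a, fun p hp => ?_⟩⟩
    have h0 : ‖f 0‖ ≤ B := hB 0 (mem_ball_self hr)
    have hB0 : 0 ≤ B := (norm_nonneg _).trans h0
    have hz : ∑ a : Idx ι 0, mon c (wd a) p • (Empty.elim a : W) = 0 :=
      Finset.sum_eq_zero fun a _ => Empty.elim a
    rw [hz, sub_zero, zero_add, pow_one]
    by_cases hpr : ‖p‖ < r
    · have h := dist_le_div_mul_dist_of_mapsTo_ball (R₂ := 2 * B) hf (fun y hy => by
        rw [mem_closedBall, dist_eq_norm]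
        linarith [norm_sub_le (f y) (f 0), hB y hy]) (mem_ball_zero_iff.2 hpr)
      rw [dist_eq_norm, dist_zero_right] at h
      exact h.trans_eq (by ring)
    · have h1 : 1 ≤ ‖p‖ / r := by
        rw [le_div_iff₀ hr]
        linarith [not_lt.1 hpr]
      nlinarith [norm_sub_le (f p) (f 0)]
  | succ M ih =>
    obtain ⟨C, hC, ih⟩ := ih
    have h2M : (1 : ℝ) ≤ 2 ^ M := one_le_pow₀ one_le_two
    set C1 : ℝ := 4 * C * 2 ^ M with hC1
    have hC14 : 4 ≤ C1 := by nlinarith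
    set C2 : ℝ := Fintype.card ι * (8 * C * 2 ^ M) with hC2
    have hC20 : 0 ≤ C2 := by positivity
    set C3 : ℝ := (2 + Fintype.card (Idx ι (M + 1)) * C1) * 2 ^ (M + 1 + 1) with hC3
    have hC30 : 0 ≤ C3 := by positivity
    refine ⟨C1 + C2 + C3, by linarith, fun E W _ _ _ _ _ e c he hc he1 hs f r B hr hf hB => ?_⟩
    have h0 : ‖f 0‖ ≤ B := hB 0 (mem_ball_self hr)
    have hB0 : 0 ≤ B := (norm_nonneg _).trans h0
    have hr2 : 0 < r / 2 := by positivity
    have hb : ∀ i, ∀ x ∈ ball (0 : E) (r / 2), ‖fderiv ℂ f x (e i)‖ ≤ 4 * B / r := by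
      intro i x hx
      have hsub : ball x (r / 2) ⊆ ball (0 : E) r :=
        ball_subset_ball' (by rw [mem_ball] at hx; linarith)
      have h := MP_08f711_an.norm_fderiv_le_of_bound hr2 (hf.mono hsub) fun y hy => hB y (hsub hy)
      calc ‖fderiv ℂ f x (e i)‖ ≤ ‖fderiv ℂ f x‖ * ‖e i‖ := ContinuousLinearMap.le_opNorm _ _
        _ ≤ 2 * B / (r / 2) * 1 := mul_le_mul h (he1 i) (norm_nonneg _) (by positivity)
        _ = 4 * B / r := by field_simp; ring
    choose v hv1 hv2 using fun i => ih E W e c he hc he1 hs (fun x => fderiv ℂ f x (e i)) (r / 2)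
      (4 * B / r) hr2 ((MP_08f711_an.differentiableOn_fderiv_apply isOpen_ball hf (e i)).mono
        (ball_subset_ball (by linarith))) (hb i)
    let w : Idx ι (M + 1) → W := fun a => match a with
      | (none, i) => fderiv ℂ f 0 (e i)
      | (some a, i) => (((wd a).length : ℂ) + 1)⁻¹ • v i a
    have hw : ∀ a, ‖w a‖ ≤ C1 * B / r ^ (wd a).length := by
      rintro ⟨_ | a, i⟩
      · refine (hb i 0 (mem_ball_self hr2)).trans ?_
        simp only [wd, List.length_singleton, pow_one]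
        gcongr
      · have h1 : ‖(((wd a).length : ℂ) + 1)⁻¹‖ ≤ 1 := by
          rw [norm_inv]
          refine inv_le_one_of_one_le₀ ?_
          have : ((wd a).length : ℂ) + 1 = (((wd a).length + 1 : ℕ) : ℂ) := by push_cast; ring
          rw [this, Complex.norm_natCast]
          exact_mod_cast Nat.succ_pos _
        have h2 : (2 : ℝ) ^ (wd a).length ≤ 2 ^ M := pow_le_pow_right₀ one_le_two (wd_length a).2
        calc ‖w (some a, i)‖ = ‖(((wd a).length : ℂ) + 1)⁻¹‖ * ‖v i a‖ := norm_smul _ _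
          _ ≤ 1 * (C * (4 * B / r) / (r / 2) ^ (wd a).length) :=
              mul_le_mul h1 (hv1 i a) (norm_nonneg _) zero_le_one
          _ = 4 * C * 2 ^ (wd a).length * B / r ^ ((wd a).length + 1) := by
              rw [div_pow]; field_simp; ring
          _ ≤ C1 * B / r ^ ((wd a).length + 1) := by
              rw [hC1]; gcongr
    refine ⟨w, fun a => (hw a).trans (by gcongr; linarith), fun p hp => ?_⟩
    by_cases hpr : ‖p‖ < r / 2
    · have h := tay_near (K := C * (4 * B / r) * (‖p‖ / (r / 2)) ^ (M + 1)) e c he hc hs f hf v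
        (p := p) (by linarith) fun i s hs1 => by
          have hsp : ‖s • p‖ ≤ ‖p‖ := by
            rw [norm_smul]
            nlinarith [norm_nonneg p, norm_nonneg s]
          refine (hv2 i (s • p) (hb i _ (mem_ball_zero_iff.2 (by linarith)))).trans ?_
          gcongr
      have e1 : ∑ a, mon c (wd a) p • w a = ∑ i, (c i p • fderiv ℂ f 0 (e i) + ∑ a : Idx ι M,
          (c i p * mon c (wd a) p) • ((((wd a).length : ℂ) + 1)⁻¹ • v i a)) := by
        rw [tay_sum_idx]
        refine Finset.sum_congr rfl fun i _ => ?_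
        simp only [wd, tay_mon_cons, w]
        simp [mon]
      rw [e1]
      refine h.trans ?_
      calc (Fintype.card ι : ℝ) * (‖p‖ * (C * (4 * B / r) * (‖p‖ / (r / 2)) ^ (M + 1)))
          = C2 * B * (‖p‖ / r) ^ (M + 1 + 1) := by
            rw [hC2, div_pow, div_pow, div_pow]; field_simp; ring
        _ ≤ _ := by gcongr; linarith
    · refine (tay_far c hc hr (by linarith) w hw hp h0 (not_lt.1 hpr)).trans ?_
      rw [← hC3]
      gcongr
      linarith

end Pool.Agent.Lib.MP_601e9e_an
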